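import Pool.Agent.H70.Hunt.Vals

/-! # The centralizer of an arithmetic group of the smaller space -/

namespace Pool.Agent.H70.Hunt

open Matrix ComplexConjugate Filter Topology Pool.Agent.Q107.Hunt

variable {n : ℕ}

/-- equality of vertical translations -/
theorem vert_eq {p x : V n} {θ : ℂ} (hθ : θ ≠ 0) (hx : x ≠ 0) (hpp : herm p p = 0)
    (hxx : herm x x = 0) (h0p : herm (0 : V n) p = 0) (h0x : herm (0 : V n) x = 0)
    (h : T x 0 θ hxx h0x = T p 0 θ hpp h0p) : ∃ l : ℂ, l * conj l = 1 ∧ x = l • p := by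
  obtain ⟨v, hv⟩ : ∃ v, herm x v ≠ 0 := by
    by_contra hcon
    push Not at hcon
    exact hx (herm_nondeg hcon)
  have hv' : herm v x ≠ 0 := by
    rw [← conj_herm]; simpa using hv
  have key : ∀ w : V n, herm w x • x = herm w p • p := by
    intro w
    have h1 : act (T x 0 θ hxx h0x) w = act (T p 0 θ hpp h0p) w := by rw [h]
    rw [act_vert, act_vert, add_right_inj, mul_smul, mul_smul] at h1
    exact smul_right_injective _ hθ h1
  obtain ⟨l, hl⟩ : ∃ l : ℂ, x = l • p := by
    refine ⟨(herm v x)⁻¹ * herm v p, ?_⟩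
    rw [mul_smul, ← key v, smul_smul, inv_mul_cancel₀ hv', one_smul]
  refine ⟨l, ?_, hl⟩
  have h1 := key v
  have hp0 : p ≠ 0 := by rintro rfl; rw [smul_zero] at hl; exact hx hl
  have hvp : herm v p ≠ 0 := by
    intro h0
    rw [hl, herm_smul_right, h0, mul_zero] at hv'
    exact hv' rfl
  rw [hl, herm_smul_right, smul_smul] at h1
  have h2 : (conj l * herm v p * l - herm v p) • p = 0 := by
    rw [sub_smul, h1, sub_self]
  rcases smul_eq_zero.1 h2 with h3 | h3
  · have h4 : herm v p * (l * conj l - 1) = 0 := by linear_combination h3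
    rcases mul_eq_zero.1 h4 with h5 | h5
    · exact absurd h5 hvp
    · exact sub_eq_zero.1 h5
  · exact absurd h3 hp0

/-- equality of Heisenberg elements with the same centre -/
theorem heis_eq {p ζ ζ' : V n} {q : V n} (hpp : herm p p = 0) (hqp : herm q p ≠ 0)
    (hζ : herm ζ p = 0) (hζ' : herm ζ' p = 0) {θ : ℂ}
    (h : T p ζ' θ hpp hζ' = T p ζ θ hpp hζ) : ∃ c : ℂ, ζ' = ζ + c • p := by
  have h1 : act (T p ζ' θ hpp hζ') q = act (T p ζ θ hpp hζ) q := by rw [h]
  rw [act_T, act_T, add_assoc, add_assoc, add_right_inj] at h1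
  refine ⟨(herm q p)⁻¹ * ((kap ζ θ * herm q p - herm q ζ) - (kap ζ' θ * herm q p - herm q ζ')), ?_⟩
  have h2 : herm q p • ζ' = herm q p • ζ +
      ((kap ζ θ * herm q p - herm q ζ) - (kap ζ' θ * herm q p - herm q ζ')) • p := by
    rw [sub_smul]
    have := h1
    rw [← eq_sub_iff_add_eq] at this
    rw [this]
    abel
  have h3 : ζ' = (herm q p)⁻¹ • (herm q p • ζ') := by
    rw [smul_smul, inv_mul_cancel₀ hqp, one_smul]
  refine h3.trans ?_
  rw [h2, smul_add, smul_smul, smul_smul, inv_mul_cancel₀ hqp, one_smul]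

theorem act_ne_zero (g : SL n) {v : V n} (hv : v ≠ 0) : act g v ≠ 0 := by
  intro h
  apply hv
  rw [← act_inv_act g v, h, act_zero]

theorem conj_eq_of_comm {g γ : SL n} (h : g * γ = γ * g) : g * γ * g⁻¹ = γ := by
  rw [h, mul_inv_cancel_right]

/-- vertical translations of an arithmetic group -/
theorem exists_vert_mem {E : IntermediateField ℚ ℂ} {W : Submodule ℂ (V n)}
    {X : Submodule E (V n)} {Γ : Subgroup (SL n)} (h : IsArith n E W X Γ)
    {p : V n} (hp : p ∈ X) (hpp : herm p p = 0) (h0 : herm (0 : V n) p = 0) :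
    ∃ τ : ℝ, τ ≠ 0 ∧ T p 0 (τ * Complex.I) hpp h0 ∈ Γ := by
  obtain ⟨s, hs0, hs⟩ := h.2.1.2.2.1
  obtain ⟨δ, hδE, hδ0, hδ, -⟩ := h.1.exists_delta
  obtain ⟨K, hK, hm⟩ := exists_T_mem h hs hp X.zero_mem hδE hδ hpp h0
  have hδre : δ.re = 0 := by
    have := congrArg Complex.re hδ
    rw [Complex.conj_re, Complex.neg_re] at this
    linarith
  have hδim : δ.im ≠ 0 := fun h' => hδ0 (Complex.ext hδre h')
  have h1 : herm (((s : ℂ) * K) • (0 : V n)) p = 0 := by simp
  refine ⟨s * K * δ.im, ?_, ?_⟩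
  · have : (K : ℝ) ≠ 0 := by exact_mod_cast hK.ne'
    positivity
  · have h2 := hm h1
    have e : T p (((s : ℂ) * K) • (0 : V n)) ((s : ℂ) * K * δ) hpp h1 =
        T p 0 (((s * K * δ.im : ℝ) : ℂ) * Complex.I) hpp h0 := by
      have e1 : (s : ℂ) * K * δ = ((s * K * δ.im : ℝ) : ℂ) * Complex.I := by
        apply Complex.ext <;> simp [hδre]
      apply ext_act
      intro v
      rw [act_T, act_T, smul_zero, e1]
    rwa [e] at h2

/-- horizontal Heisenberg elements of an arithmetic group -/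
theorem exists_heis_mem {E : IntermediateField ℚ ℂ} {W : Submodule ℂ (V n)}
    {X : Submodule E (V n)} {Γ : Subgroup (SL n)} (h : IsArith n E W X Γ)
    {p ζ : V n} (hp : p ∈ X) (hζ : ζ ∈ X) (hpp : herm p p = 0) (hζp : herm ζ p = 0) :
    ∃ a : ℝ, a ≠ 0 ∧ ∀ h, T p ((a : ℂ) • ζ) 0 hpp h ∈ Γ := by
  obtain ⟨s, hs0, hs⟩ := h.2.1.2.2.1
  obtain ⟨K, hK, hm⟩ := exists_T_mem h hs hp hζ E.zero_mem (by simp) hpp hζp
  refine ⟨s * K, ?_, fun h' => ?_⟩
  · have : (K : ℝ) ≠ 0 := by exact_mod_cast hK.ne'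
    positivity
  · have e0 : ((s * K : ℝ) : ℂ) = (s : ℂ) * K := by push_cast; ring
    have h1 : herm (((s : ℂ) * K) • ζ) p = 0 := by rw [herm_smul_left, hζp, mul_zero]
    have h2 := hm h1
    have e : T p (((s : ℂ) * K) • ζ) ((s : ℂ) * K * 0) hpp h1 =
        T p (((s * K : ℝ) : ℂ) • ζ) 0 hpp h' := by
      apply ext_act
      intro v
      rw [act_T, act_T, mul_zero, e0]
    rwa [e] at h2

/-- **The centralizer of an arithmetic group of `SU(W)` acts on `W` by scalars.** -/
theorem centr_scalar {E : IntermediateField ℚ ℂ} {W : Submodule ℂ (V n)}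
    {X : Submodule E (V n)} {Γ : Subgroup (SL n)} (h : IsArith n E W X Γ)
    {u : SL n} (hu : u ∈ SU n) (hc : ∀ γ ∈ Γ, u * γ = γ * u) :
    ∃ l : ℂ, l * conj l = 1 ∧ ∀ w ∈ W, act u w = l • w := by
  obtain ⟨p, hpX, hp0, hpp⟩ := h.2.1.2.2.2
  obtain ⟨q, hqX, hqq, hqp⟩ := exists_second h.1 h.2.1 hpX hp0 hpp
  have hq0 : q ≠ 0 := by rintro rfl; exact hqp (herm_zero_left p)
  have hpq : herm p q ≠ 0 := by rw [← conj_herm]; simpa using hqp
  -- isotropic vectors
  have iso : ∀ x ∈ X, x ≠ 0 → herm x x = 0 → ∃ l : ℂ, l * conj l = 1 ∧ act u x = l • x := by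
    intro x hx hx0 hxx
    have h0 : herm (0 : V n) x = 0 := herm_zero_left x
    obtain ⟨τ, hτ, hm⟩ := exists_vert_mem h hx hxx h0
    have hxx' : herm (act u x) (act u x) = 0 := (act_herm hu x x).trans hxx
    have h0' : herm (act u 0) (act u x) = 0 := by rw [act_zero]; exact herm_zero_left _
    have h0'' : herm (0 : V n) (act u x) = 0 := herm_zero_left _
    have h1 := conj_T hu (θ := τ * Complex.I) hxx h0 hxx' h0'
    rw [conj_eq_of_comm (hc _ hm)] at h1
    have h2 : T (act u x) 0 (τ * Complex.I) hxx' h0'' = T x 0 (τ * Complex.I) hxx h0 := by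
      rw [h1]
      apply ext_act
      intro v
      rw [act_T, act_T, act_zero]
    exact vert_eq (mul_ne_zero (by exact_mod_cast hτ) Complex.I_ne_zero) (act_ne_zero u hx0)
      hxx hxx' h0 h0'' h2
  obtain ⟨l, hl, hlp⟩ := iso p hpX hp0 hpp
  obtain ⟨m, hm, hmq⟩ := iso q hqX hq0 hqq
  have hl0 : l ≠ 0 := by rintro rfl; simp at hl
  have hml : m = l := by
    have h1 := act_herm hu q p
    rw [hlp, hmq, herm_smul_left, herm_smul_right] at h1
    have h2 : (m * conj l - 1) * herm q p = 0 := by linear_combination h1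
    rcases mul_eq_zero.1 h2 with h3 | h3
    · have h4 : m * conj l = l * conj l := by rw [hl]; exact sub_eq_zero.1 h3
      exact mul_right_cancel₀ (by simpa using hl0) h4
    · exact absurd h3 hqp
  subst hml
  refine ⟨m, hl, ?_⟩
  -- vectors orthogonal to `p` and `q`
  have perp : ∀ ζ ∈ X, herm ζ p = 0 → herm ζ q = 0 → act u ζ = m • ζ := by
    intro ζ hζ hζp hζq
    obtain ⟨a, ha, hmem⟩ := exists_heis_mem h hpX hζ hpp hζp
    have h1 : herm ((a : ℂ) • ζ) p = 0 := by rw [herm_smul_left, hζp, mul_zero]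
    have hpp' : herm (act u p) (act u p) = 0 := (act_herm hu p p).trans hpp
    have h1' : herm (act u ((a : ℂ) • ζ)) (act u p) = 0 := (act_herm hu _ p).trans h1
    have h2 := conj_T hu (θ := 0) hpp h1 hpp' h1'
    rw [conj_eq_of_comm (hc _ (hmem h1))] at h2
    -- rewrite the right-hand side with centre `p`
    set ζ' : V n := m⁻¹ • act u ((a : ℂ) • ζ) with hζ'
    have hmζ' : m • ζ' = act u ((a : ℂ) • ζ) := by
      rw [hζ', smul_smul, mul_inv_cancel₀ hl0, one_smul]
    have hmc : m⁻¹ = conj m := by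
      field_simp
      linear_combination -hm
    have hζ'p : herm ζ' p = 0 := by
      have h3 : herm (m • ζ') (m • p) = 0 := by rw [hmζ', ← hlp]; exact h1'
      rw [herm_smul_left, herm_smul_right] at h3
      rcases mul_eq_zero.1 h3 with h4 | h4
      · exact absurd h4 hl0
      · rcases mul_eq_zero.1 h4 with h5 | h5
        · exact absurd h5 (by simpa using hl0)
        · exact h5
    have hmpp : herm (m • p) (m • p) = 0 := by rw [← hlp]; exact hpp'
    have hmζp : herm (m • ζ') (m • p) = 0 := by rw [hmζ', ← hlp]; exact h1'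
    have h4 : T p ζ' 0 hpp hζ'p = T p ((a : ℂ) • ζ) 0 hpp h1 := by
      rw [h2, ← T_unit hm hpp hζ'p hmpp hmζp]
      apply ext_act
      intro v
      rw [act_T, act_T, hmζ', hlp]
    obtain ⟨c, hc'⟩ := heis_eq hpp hqp h1 hζ'p h4
    have h5 : herm ζ' q = 0 := by
      rw [hζ', herm_smul_left]
      have h6 : herm (act u ((a : ℂ) • ζ)) (act u q) = 0 := by
        rw [act_herm hu, herm_smul_left, hζq, mul_zero]
      rw [hmq, herm_smul_right] at h6
      rcases mul_eq_zero.1 h6 with h7 | h7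
      · exact absurd h7 (by simpa using hl0)
      · rw [h7, mul_zero]
    rw [hc', herm_add_left, herm_smul_left, herm_smul_left, hζq, mul_zero, zero_add] at h5
    have hc0 : c = 0 := by
      rcases mul_eq_zero.1 h5 with h7 | h7
      · exact h7
      · exact absurd h7 hpq
    rw [hc0, zero_smul, add_zero] at hc'
    have h8 : (a : ℂ) • act u ζ = (a : ℂ) • (m • ζ) := by
      rw [← act_smul, ← hmζ', hc', smul_comm]
    exact smul_right_injective _ (by exact_mod_cast ha : (a : ℂ) ≠ 0) h8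
  obtain ⟨s, hs0, hs⟩ := h.2.1.2.2.1
  have hs0' : (s : ℂ) ≠ 0 := by exact_mod_cast hs0
  have main : ∀ x ∈ X, act u x = m • x := by
    intro x hx
    set α := herm x q / herm p q with hα
    set β := herm x p / herm q p with hβ
    have hαE : α ∈ E := by
      have h2 := E.div_mem (hs _ hx _ hqX) (hs _ hpX _ hqX)
      rwa [mul_div_mul_left _ _ hs0'] at h2
    have hβE : β ∈ E := by
      have h2 := E.div_mem (hs _ hx _ hpX) (hs _ hqX _ hpX)
      rwa [mul_div_mul_left _ _ hs0'] at h2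
    have hζX : x - α • p - β • q ∈ X :=
      X.sub_mem (X.sub_mem hx (smul_mem_E hαE hpX)) (smul_mem_E hβE hqX)
    have h1 := perp _ hζX
      (by rw [herm_sub_left, herm_sub_left, herm_smul_left, herm_smul_left, hpp, hβ]
          field_simp; ring)
      (by rw [herm_sub_left, herm_sub_left, herm_smul_left, herm_smul_left, hqq, hα]
          field_simp; ring)
    rw [act_sub, act_sub, act_smul, act_smul, hlp, hmq] at h1
    have h2 : act u x = m • (x - α • p - β • q) + α • m • p + β • m • q := by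
      rw [← h1]; abel
    rw [h2, smul_sub, smul_sub, smul_comm α m p, smul_comm β m q]
    abel
  intro w hw
  rw [← h.2.1.2.1] at hw
  induction hw using Submodule.span_induction with
  | mem x hx => exact main x hx
  | zero => rw [act_zero, smul_zero]
  | add x y _ _ hx hy => rw [act_add, hx, hy, smul_add]
  | smul a x _ hx => rw [act_smul, hx, smul_comm]

end Pool.Agent.H70.Hunt
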