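import Pool.Agent.H70.Hunt.Centr

/-! # Gluings with the same angle parameter are conjugate -/

namespace Pool.Agent.H70.Hunt

open Matrix ComplexConjugate Filter Topology Pool.Agent.Q107.Hunt

variable {n : ℕ}

/-- an isometry acting as a scalar on `W` commutes with `SU(W)` -/
theorem comm_of_scalar {W : Submodule ℂ (V n)} (hW : Module.finrank ℂ W = n)
    (hnd : ∀ v ∈ W, (∀ w ∈ W, herm v w = 0) → v = 0) {v : SL n} (hv : v ∈ SU n) {c : ℂ}
    (hc : ∀ w ∈ W, act v w = c • w) {γ : SL n} (hγ : γ ∈ suOf n W) : v * γ = γ * v := by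
  obtain ⟨m, hm, hm'⟩ := exists_normal hW hnd
  have hγm : act γ m = m := hγ.2 m fun w hw => herm_conj_zero ((hm' w).1 hw)
  have hγW : ∀ w ∈ W, act γ w ∈ W := by
    intro w hw
    rw [hm'] at hw ⊢
    rw [← hγm, act_herm hγ.1, hw]
  -- `v` preserves the normal line
  have hvm : ∀ w ∈ W, herm w (act v m) = 0 := by
    intro w hw
    have h1 : herm (act v w) (act v m) = 0 := by rw [act_herm hv, (hm' w).1 hw]
    rw [hc w hw, herm_smul_left] at h1
    rcases mul_eq_zero.1 h1 with h2 | h2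
    · have h3 : act v w = 0 := by rw [hc w hw, h2, zero_smul]
      have h4 : w = 0 := by rw [← act_inv_act v w, h3, act_zero]
      rw [h4, herm_zero_left]
    · exact h2
  have hγvm : act γ (act v m) = act v m := hγ.2 _ fun w hw => herm_conj_zero (hvm w hw)
  apply ext_act
  intro x
  rw [act_mul, act_mul]
  have hx : x = (x - (herm x m / herm m m) • m) + (herm x m / herm m m) • m := by abel
  have hxW : x - (herm x m / herm m m) • m ∈ W := by
    rw [hm', herm_sub_left, herm_smul_left, div_mul_cancel₀ _ hm, sub_self]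
  rw [hx, act_add, act_add, act_add, act_add, act_smul, act_smul, act_smul, act_smul, hγm, hγvm,
    hc _ (hγW _ hxW), hc _ hxW, act_smul]

/-- the elements of `SU(n,1)` acting on a hyperplane by a scalar and on its normal vector by a
prescribed unit times this scalar -/
theorem exists_twist {m : V n} (hm : herm m m ≠ 0) {μ : ℂ} (hμ : μ * conj μ = 1) :
    ∃ (g : SL n) (ν : ℂ), g ∈ SU n ∧ ν * conj ν = 1 ∧ (∀ w, herm w m = 0 → act g w = ν • w) ∧
      act g m = (ν * μ) • m := by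
  have hμ0 : μ ≠ 0 := by rintro rfl; simp at hμ
  obtain ⟨ν, hν⟩ := IsAlgClosed.exists_pow_nat_eq (μ⁻¹) (Nat.succ_pos n)
  have hν0 : ν ≠ 0 := by
    rintro rfl
    rw [zero_pow (Nat.succ_ne_zero n)] at hν
    exact inv_ne_zero hμ0 hν.symm
  have hνn : ν * conj ν = 1 := by
    have h1 : ‖μ‖ = 1 := by
      have h2 := hμ
      rw [Complex.mul_conj, Complex.normSq_eq_norm_sq] at h2
      have h3 : ‖μ‖ ^ 2 = 1 := by exact_mod_cast h2
      nlinarith [norm_nonneg μ]
    have h2 : ‖ν‖ ^ (n + 1) = 1 := by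
      rw [← norm_pow, hν, norm_inv, h1, inv_one]
    have h3 : ‖ν‖ = 1 := (pow_eq_one_iff_of_nonneg (norm_nonneg ν) (Nat.succ_ne_zero n)).1 h2
    rw [Complex.mul_conj, Complex.normSq_eq_norm_sq, h3]
    simp
  have hrow : Pool.Agent.Q107.Hunt.row m ⬝ᵥ m = herm m m := row_dot m m
  set c : ℂ := (μ - 1) / herm m m with hcdef
  set G : Matrix (Fin (n + 1)) (Fin (n + 1)) ℂ :=
    1 + vecMulVec (c • m) (Pool.Agent.Q107.Hunt.row m) with hG
  have hGv : ∀ v : V n, G *ᵥ v = v + (c * herm v m) • m := by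
    intro v
    rw [hG, add_mulVec, one_mulVec, vecMulVec_mulVec, row_dot]
    funext i
    simp only [Pi.add_apply, Pi.smul_apply, smul_eq_mul, MulOpposite.smul_eq_mul_unop,
      MulOpposite.unop_op]
    ring
  have hdet : G.det = μ := by
    rw [hG, vecMulVec_eq Unit, det_one_add_replicateCol_mul_replicateRow, dotProduct_smul, hrow,
      smul_eq_mul, hcdef, div_mul_cancel₀ _ hm]
    ring
  have hdet' : (ν • G).det = 1 := by
    rw [det_smul, hdet, Fintype.card_fin, hν, inv_mul_cancel₀ hμ0]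
  refine ⟨⟨ν • G, hdet'⟩, ν, ?_, hνn, ?_, ?_⟩
  · intro v w
    show herm ((ν • G) *ᵥ v) ((ν • G) *ᵥ w) = herm v w
    rw [smul_mulVec, smul_mulVec, hGv, hGv, herm_smul_left, herm_smul_right, ← mul_assoc, hνn,
      one_mul]
    simp only [herm_add_left, herm_add_right, herm_smul_left, herm_smul_right]
    have hmm : conj (herm m m) = herm m m := conj_herm m m
    have hwm : conj (herm w m) = herm m w := conj_herm w m
    have hc2 : conj c = (conj μ - 1) / herm m m := by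
      rw [hcdef, map_div₀, map_sub, map_one, hmm]
    rw [map_mul, hwm, hc2, hcdef]
    field_simp
    linear_combination (herm v m * herm m w) * hμ
  · intro w hw
    show (ν • G) *ᵥ w = ν • w
    rw [smul_mulVec, hGv, hw, mul_zero, zero_smul, add_zero]
  · show (ν • G) *ᵥ m = (ν * μ) • m
    rw [smul_mulVec, hGv, hcdef, div_mul_cancel₀ _ hm, mul_smul]
    congr 1
    rw [sub_smul, one_smul]
    abel

/-- a unit relating two numbers of the same norm -/
theorem exists_unit {a b : ℂ} (h : ‖a‖ = ‖b‖) : ∃ μ : ℂ, μ * conj μ = 1 ∧ a = μ * b := by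
  by_cases hb : b = 0
  · subst hb
    rw [norm_zero, norm_eq_zero] at h
    exact ⟨1, by simp, by rw [h]; simp⟩
  · refine ⟨a / b, ?_, (div_mul_cancel₀ _ hb).symm⟩
    rw [Complex.mul_conj, Complex.normSq_eq_norm_sq, norm_div, h,
      div_self (norm_ne_zero_iff.2 hb)]
    simp

/-- the difference vector of two hyperplanes -/
theorem exists_diff {W₁ W₂ : Submodule ℂ (V n)} {p : V n} (hp0 : p ≠ 0) (hpp : herm p p = 0)
    (hp₁ : p ∈ W₁) (hp₂ : p ∈ W₂) (hne : W₁ ≠ W₂)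
    (hnd₃ : ∀ v ∈ W₁ ⊓ W₂, (∀ w ∈ W₁ ⊓ W₂, herm v w = 0) → v = 0)
    {m₁ m₂ : V n} (hm₁ : herm m₁ m₁ ≠ 0) (hm₁' : ∀ v, v ∈ W₁ ↔ herm v m₁ = 0)
    (hm₂ : herm m₂ m₂ ≠ 0) (hm₂' : ∀ v, v ∈ W₂ ↔ herm v m₂ = 0) :
    ∃ e : V n, e ∈ W₁ ∧ herm e e ≠ 0 ∧ (∀ w ∈ W₁ ⊓ W₂, herm e w = 0) ∧
      ∀ w ∈ W₁, w - (herm w e / herm e e) • e ∈ W₁ ⊓ W₂ := by
  set c := herm m₂ m₁ / herm m₁ m₁ with hc
  set e := m₂ - c • m₁ with he
  have heW : e ∈ W₁ := by
    rw [hm₁', he, herm_sub_left, herm_smul_left, hc, div_mul_cancel₀ _ hm₁, sub_self]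
  have hperp : ∀ w ∈ W₁ ⊓ W₂, herm e w = 0 := by
    intro w hw
    rw [he, herm_sub_left, herm_smul_left, herm_conj_zero ((hm₂' w).1 hw.2),
      herm_conj_zero ((hm₁' w).1 hw.1), mul_zero, sub_zero]
  have hwe : ∀ w ∈ W₁, herm w m₂ = herm w e := by
    intro w hw
    rw [he, herm_sub_right, herm_smul_right, (hm₁' w).1 hw, mul_zero, sub_zero]
  have hee : herm e e ≠ 0 := by
    intro h0
    obtain ⟨d, hd⟩ := iso_perp hp0 hpp (hperp p ⟨hp₁, hp₂⟩) h0
    have he0 : e = 0 := by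
      refine hnd₃ e ?_ hperp
      rw [hd]
      exact ⟨W₁.smul_mem _ hp₁, W₂.smul_mem _ hp₂⟩
    have h1 : m₂ = c • m₁ := sub_eq_zero.1 (he.symm.trans he0)
    have hc0 : c ≠ 0 := by
      intro h; rw [h, zero_smul] at h1; rw [h1] at hm₂; simp at hm₂
    apply hne
    ext w
    rw [hm₁', hm₂', h1, herm_smul_right]
    constructor
    · intro h; rw [h, mul_zero]
    · intro h
      rcases mul_eq_zero.1 h with h2 | h2
      · exact absurd h2 (by simpa using hc0)
      · exact h2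
  refine ⟨e, heW, hee, hperp, fun w hw => ?_⟩
  have h1 : w - (herm w e / herm e e) • e ∈ W₁ := W₁.sub_mem hw (W₁.smul_mem _ heW)
  refine ⟨h1, (hm₂' _).2 ?_⟩
  rw [hwe _ h1, herm_sub_left, herm_smul_left, div_mul_cancel₀ _ hee, sub_self]

/-- **Gluings with the same angle parameter are conjugate.** -/
theorem conj_of_eq {W₁ W₂ : Submodule ℂ (V n)} {p : V n} (hp0 : p ≠ 0) (hpp : herm p p = 0)
    (hp₁ : p ∈ W₁) (hp₂ : p ∈ W₂)
    (hW₁ : Module.finrank ℂ W₁ = n) (hW₂ : Module.finrank ℂ W₂ = n) (hne : W₁ ≠ W₂)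
    (hnd₁ : ∀ v ∈ W₁, (∀ w ∈ W₁, herm v w = 0) → v = 0)
    (hnd₂ : ∀ v ∈ W₂, (∀ w ∈ W₂, herm v w = 0) → v = 0)
    (hnd₃ : ∀ v ∈ W₁ ⊓ W₂, (∀ w ∈ W₁ ⊓ W₂, herm v w = 0) → v = 0)
    {x y : V n} (hx : x ∈ W₁) (hx₂ : x ∉ W₂) (hy : y ∈ W₂) (hy₁ : y ∉ W₁)
    {u u' : SL n} (hu : u ∈ SU n) (hu' : u' ∈ SU n) {l l' : ℂ} (hl : l * conj l = 1)
    (hl' : l' * conj l' = 1) (hul : ∀ w ∈ W₁ ⊓ W₂, act u w = l • w)
    (hul' : ∀ w ∈ W₁ ⊓ W₂, act u' w = l' • w)
    (hz : herm x (conj l • act u y) = herm x (conj l' • act u' y)) :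
    ∃ g : SL n, g ∈ SU n ∧ (∀ γ ∈ suOf n W₁, g * γ * g⁻¹ = γ) ∧
      ∀ γ ∈ suOf n W₂, u * γ * u⁻¹ = g * (u' * γ * u'⁻¹) * g⁻¹ := by
  obtain ⟨m₁, hm₁, hm₁'⟩ := exists_normal hW₁ hnd₁
  obtain ⟨m₂, hm₂, hm₂'⟩ := exists_normal hW₂ hnd₂
  obtain ⟨e₁, he₁W, he₁, he₁p, he₁d⟩ := exists_diff hp0 hpp hp₁ hp₂ hne hnd₃ hm₁ hm₁' hm₂ hm₂'
  obtain ⟨e₂, he₂W, he₂, he₂p, he₂d⟩ := exists_diff hp0 hpp hp₂ hp₁ hne.symm
    (by rw [inf_comm]; exact hnd₃) hm₂ hm₂' hm₁ hm₁'
  rw [inf_comm] at he₂p he₂d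
  -- the normalised maps
  have hcl : conj l * l = 1 := by rw [mul_comm]; exact hl
  have hcl' : conj l' * l' = 1 := by rw [mul_comm]; exact hl'
  have fixW : ∀ (u : SL n) (l : ℂ), l * conj l = 1 → (∀ w ∈ W₁ ⊓ W₂, act u w = l • w) →
      ∀ w ∈ W₁ ⊓ W₂, conj l • act u w = w := by
    intro u l hl hul w hw
    rw [hul w hw, smul_smul, mul_comm, hl, one_smul]
  have isom : ∀ (u : SL n) (l : ℂ), u ∈ SU n → l * conj l = 1 → ∀ a b : V n,
      herm (conj l • act u a) (conj l • act u b) = herm a b := by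
    intro u l hu hl a b
    rw [herm_smul_left, herm_smul_right, act_herm hu, Complex.conj_conj, ← mul_assoc,
      mul_comm (conj l), hl, one_mul]
  -- the pairing of x with the image of y
  set α := herm x e₁ / herm e₁ e₁ with hα
  set β := herm y e₂ / herm e₂ e₂ with hβ
  have hα0 : α ≠ 0 := by
    intro h
    have h1 := he₁d x hx
    rw [← hα, h, zero_smul, sub_zero] at h1
    exact hx₂ h1.2
  have hβ0 : β ≠ 0 := by
    intro h
    have h1 := he₂d y hy
    rw [← hβ, h, zero_smul, sub_zero] at h1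
    exact hy₁ h1.1
  set x₃ := x - α • e₁ with hx₃
  set y₃ := y - β • e₂ with hy₃
  have hx₃W : x₃ ∈ W₁ ⊓ W₂ := he₁d x hx
  have hy₃W : y₃ ∈ W₁ ⊓ W₂ := he₂d y hy
  have hxe : x = x₃ + α • e₁ := by rw [hx₃]; abel
  have hye : y = y₃ + β • e₂ := by rw [hy₃]; abel
  have perp : ∀ (u : SL n) (l : ℂ), u ∈ SU n → l * conj l = 1 →
      (∀ w ∈ W₁ ⊓ W₂, act u w = l • w) → ∀ w ∈ W₁ ⊓ W₂, herm w (conj l • act u e₂) = 0 := by
    intro u l hu hl hul w hw
    conv_lhs => rw [← fixW u l hl hul w hw]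
    rw [isom u l hu hl]
    exact herm_conj_zero (he₂p w hw)
  have pair : ∀ (u : SL n) (l : ℂ), u ∈ SU n → l * conj l = 1 →
      (∀ w ∈ W₁ ⊓ W₂, act u w = l • w) →
      herm x (conj l • act u y) = herm x₃ y₃ + α * conj β * herm e₁ (conj l • act u e₂) := by
    intro u l hu hl hul
    have h1 : conj l • act u y = y₃ + β • (conj l • act u e₂) := by
      rw [hye, act_add, smul_add, fixW u l hl hul y₃ hy₃W, act_smul, smul_comm]
    have h2 := perp u l hu hl hul x₃ hx₃W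
    have h3 := he₁p y₃ hy₃W
    rw [h1]
    generalize conj l • act u e₂ = f0 at h2 ⊢
    rw [hxe, herm_add_left, herm_add_right, herm_add_right, herm_smul_right, herm_smul_left,
      herm_smul_left, herm_smul_right, h2, h3]
    ring
  set f := conj l • act u e₂ with hf
  set f' := conj l' • act u' e₂ with hf'
  have hff : herm e₁ f = herm e₁ f' := by
    rw [pair u l hu hl hul, pair u' l' hu' hl' hul'] at hz
    have h1 : α * conj β ≠ 0 := mul_ne_zero hα0 (by simpa using hβ0)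
    exact mul_left_cancel₀ h1 (add_left_cancel hz)
  have dec : ∀ v : V n, (∀ w ∈ W₁ ⊓ W₂, herm w v = 0) →
      v = (herm v e₁ / herm e₁ e₁) • e₁ + (herm v m₁ / herm m₁ m₁) • m₁ := by
    intro v hv
    set r := v - ((herm v e₁ / herm e₁ e₁) • e₁ + (herm v m₁ / herm m₁ m₁) • m₁) with hr
    have he₁m₁ : herm e₁ m₁ = 0 := (hm₁' e₁).1 he₁W
    have hm₁e₁ : herm m₁ e₁ = 0 := herm_conj_zero he₁m₁
    have hrm : herm r m₁ = 0 := by
      rw [hr, herm_sub_left, herm_add_left, herm_smul_left, herm_smul_left, he₁m₁,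
        div_mul_cancel₀ _ hm₁]
      ring
    have hre : herm r e₁ = 0 := by
      rw [hr, herm_sub_left, herm_add_left, herm_smul_left, herm_smul_left, hm₁e₁,
        div_mul_cancel₀ _ he₁]
      ring
    have hr0 : r = 0 := by
      refine hnd₁ r ((hm₁' r).2 hrm) fun w hw => ?_
      have h1 := he₁d w hw
      have h2 : w = (w - (herm w e₁ / herm e₁ e₁) • e₁) + (herm w e₁ / herm e₁ e₁) • e₁ := by abel
      rw [h2, herm_add_right, herm_smul_right, hre, mul_zero, add_zero]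
      set w₃ := w - (herm w e₁ / herm e₁ e₁) • e₁ with hw₃
      rw [hr, herm_sub_left, herm_add_left, herm_smul_left, herm_smul_left,
        herm_conj_zero (hv w₃ h1), he₁p w₃ h1, herm_conj_zero ((hm₁' w₃).1 h1.1)]
      ring
    exact sub_eq_zero.1 hr0
  have hfd := dec f (perp u l hu hl hul)
  have hfd' := dec f' (perp u' l' hu' hl' hul')
  have hae : herm f e₁ = herm f' e₁ := by
    rw [← conj_herm e₁ f, ← conj_herm e₁ f', hff]
  set a := herm f e₁ / herm e₁ e₁ with ha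
  rw [← hae, ← ha] at hfd'
  set b := herm f m₁ / herm m₁ m₁ with hb
  set b' := herm f' m₁ / herm m₁ m₁ with hb'
  have he₁m₁ : herm e₁ m₁ = 0 := (hm₁' e₁).1 he₁W
  have hm₁e₁ : herm m₁ e₁ = 0 := herm_conj_zero he₁m₁
  have hnorm : ‖b‖ = ‖b'‖ := by
    have h1 : herm f f = herm f' f' := by
      rw [hf, hf', isom u l hu hl, isom u' l' hu' hl']
    have h2 : ∀ c : ℂ, herm (a • e₁ + c • m₁) (a • e₁ + c • m₁) =
        a * conj a * herm e₁ e₁ + c * conj c * herm m₁ m₁ := by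
      intro c
      rw [herm_add_left, herm_add_right, herm_add_right, herm_smul_left, herm_smul_left,
        herm_smul_left, herm_smul_left, herm_smul_right, herm_smul_right, herm_smul_right,
        herm_smul_right, he₁m₁, hm₁e₁]
      ring
    rw [hfd, hfd', h2, h2] at h1
    have h3 : b * conj b = b' * conj b' := mul_right_cancel₀ hm₁ (add_left_cancel h1)
    rw [Complex.mul_conj, Complex.mul_conj, Complex.normSq_eq_norm_sq,
      Complex.normSq_eq_norm_sq] at h3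
    have h4 : ‖b‖ ^ 2 = ‖b'‖ ^ 2 := by exact_mod_cast h3
    exact (pow_left_inj₀ (norm_nonneg _) (norm_nonneg _) two_ne_zero).1 h4
  clear_value a b b' f f'
  obtain ⟨μ, hμ, hbμ⟩ := exists_unit hnorm
  obtain ⟨g, ν, hg, hν, hgW, hgm⟩ := exists_twist hm₁ hμ
  have hgW₁ : ∀ w ∈ W₁, act g w = ν • w := fun w hw => hgW w ((hm₁' w).1 hw)
  have hgf : act g f' = ν • f := by
    rw [hfd', hfd, act_add, act_smul, act_smul, hgW₁ e₁ he₁W, hgm, hbμ, smul_add, smul_smul,
      smul_smul, smul_smul, smul_smul]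
    congr 2 <;> ring
  have hgall : ∀ w ∈ W₂, act g (conj l' • act u' w) = ν • (conj l • act u w) := by
    intro w hw
    have h1 := he₂d w hw
    have h2 : w = (w - (herm w e₂ / herm e₂ e₂) • e₂) + (herm w e₂ / herm e₂ e₂) • e₂ := by abel
    set w₃ := w - (herm w e₂ / herm e₂ e₂) • e₂ with hw₃
    set c := herm w e₂ / herm e₂ e₂ with hc
    have e1 : conj l' • act u' w = w₃ + c • f' := by
      rw [h2, act_add, smul_add, fixW u' l' hl' hul' w₃ h1, act_smul, smul_comm, ← hf']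
    have e2 : conj l • act u w = w₃ + c • f := by
      rw [h2, act_add, smul_add, fixW u l hl hul w₃ h1, act_smul, smul_comm, ← hf]
    rw [e1, e2, act_add, act_smul, hgW₁ w₃ h1.1, hgf, smul_add, smul_comm ν c]
  have hv : ∀ w ∈ W₂, act (u⁻¹ * g * u') w = (l' * ν * conj l) • w := by
    intro w hw
    have h1 := hgall w hw
    rw [act_smul] at h1
    have h2 : act g (act u' w) = (l' * ν * conj l) • act u w := by
      have h3 : act g (act u' w) = l' • (conj l' • act g (act u' w)) := by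
        rw [smul_smul, hl', one_smul]
      rw [h3, h1, smul_smul, smul_smul]
    rw [act_mul, act_mul, h2, act_smul, act_inv_act]
  have hvSU : u⁻¹ * g * u' ∈ SU n := (SU n).mul_mem ((SU n).mul_mem ((SU n).inv_mem hu) hg) hu'
  refine ⟨g, hg, fun γ hγ => conj_eq_of_comm (comm_of_scalar hW₁ hnd₁ hg hgW₁ hγ), ?_⟩
  intro γ hγ
  have h1 := comm_of_scalar hW₂ hnd₂ hvSU hv hγ
  have h2 : g * u' * γ = u * γ * u⁻¹ * (g * u') := by
    have h3 : u * (u⁻¹ * g * u' * γ) = u * (γ * (u⁻¹ * g * u')) := by rw [h1]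
    simpa [mul_assoc] using h3
  calc u * γ * u⁻¹ = u * γ * u⁻¹ * (g * u') * (g * u')⁻¹ := by group
    _ = g * u' * γ * (g * u')⁻¹ := by rw [h2]
    _ = g * (u' * γ * u'⁻¹) * g⁻¹ := by group

end Pool.Agent.H70.Hunt
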