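import Pool.Agent.H70.Hunt.Conj
import Pool.Graph.R_pool_sql_team_seeded_3997aac3.Q107.Hunt.Ping2

/-! # Geometric representations of cusped Hunt amalgams: the two main theorems -/

namespace Pool.Agent.H70.Hunt

open Matrix ComplexConjugate Filter Topology Pool.Agent.Q107.Hunt Monoid

variable {n : ℕ}

/-- The amalgamated product `Γ₀ ⋆_{Γ₃} Γ₁` of two groups containing `Γ₃`. -/
abbrev Amalg (Γ : Fin 2 → Subgroup (SL n)) (Γ₃ : Subgroup (SL n)) (hle : ∀ i, Γ₃ ≤ Γ i) :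
    Type :=
  PushoutI fun i => Subgroup.inclusion (hle i)

/-- `ρ` is geometric: its restriction to each of the two pieces is the conjugate of the inclusion
by an element of `SU(n,1)`. -/
def IsGeometric {Γ : Fin 2 → Subgroup (SL n)} {Γ₃ : Subgroup (SL n)} {hle : ∀ i, Γ₃ ≤ Γ i}
    (ρ : Amalg Γ Γ₃ hle →* SL n) : Prop :=
  ∀ i, ∃ u ∈ SU n, ∀ γ : Γ i, ρ (PushoutI.of i γ) = u * γ * u⁻¹

/-- The data extracted from two non-cocompact arithmetic pieces with a common non-cocompact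
arithmetic subgroup. -/
structure Data (Γ : Fin 2 → Subgroup (SL n)) (W : Fin 2 → Submodule ℂ (V n))
    (Γ₃ : Subgroup (SL n)) where
  p : V n
  q : V n
  x : V n
  y : V n
  e : V n
  e' : V n
  hp0 : p ≠ 0
  hpp : herm p p = 0
  hqq : herm q q = 0
  hqp : herm q p ≠ 0
  hpW : p ∈ W 0 ⊓ W 1
  hxW : x ∈ W 0
  hyW : y ∈ W 1
  hxW' : x ∉ W 1
  hyW' : y ∉ W 0
  hxp : herm x p = 0
  hyp : herm y p = 0
  heW : ∀ w ∈ W 0 ⊓ W 1, herm e w = 0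
  hex : herm e x ≠ 0
  hep : herm e p = 0
  heW' : ∀ w ∈ W 0 ⊓ W 1, herm e' w = 0
  hey : herm e' y ≠ 0
  hep' : herm e' p = 0
  τ : ℝ
  τ' : ℝ
  hτ : τ ≠ 0
  hτ' : τ' ≠ 0
  hTp : T p 0 (τ * Complex.I) hpp (herm_zero_left p) ∈ Γ₃
  hTq : T q 0 (τ' * Complex.I) hqq (herm_zero_left q) ∈ Γ₃
  δ : ℂ
  hδ0 : δ ≠ 0
  hδ : conj δ = -δ
  a : ℝ
  a' : ℝ
  b : ℝ
  ha : a ≠ 0
  ha' : a' ≠ 0
  hb : b ≠ 0
  hTx : ∀ h, T p ((a : ℂ) • x) 0 hpp h ∈ Γ 0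
  hTx' : ∀ h, T p ((a' : ℂ) • (δ • x)) 0 hpp h ∈ Γ 0
  hTy : ∀ h, T p ((b : ℂ) • y) 0 hpp h ∈ Γ 1

/-- a rational vector of `W` orthogonal to the cusp and outside the other hyperplane -/
theorem exists_out {E : IntermediateField ℚ ℂ} {W W' : Submodule ℂ (V n)}
    {X : Submodule E (V n)} {Γ : Subgroup (SL n)} (h : IsArith n E W X Γ)
    {p e : V n} (hp : p ∈ X) (hp0 : p ≠ 0) (hpp : herm p p = 0) (he : e ∈ W)
    (hep : herm e p = 0) (heW' : e ∉ W') : ∃ x ∈ X, herm x p = 0 ∧ x ∉ W' := by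
  obtain ⟨hE, hform, -⟩ := h
  obtain ⟨q, hqX, -, hqp⟩ := exists_second hE hform hp hp0 hpp
  obtain ⟨-, hspan, ⟨s, hs0, hs⟩, -⟩ := hform
  have hs0' : (s : ℂ) ≠ 0 := by exact_mod_cast hs0
  by_contra hcon
  push Not at hcon
  apply heW'
  have h1 := span_perp hspan hs hp (x₀ := ((s : ℂ) * herm q p)⁻¹ • q)
    (smul_mem_E (E.inv_mem (hs _ hqX _ hp)) hqX)
    (by rw [herm_smul_left]; field_simp) he hep
  have h2 : Submodule.span ℂ {x : V n | x ∈ X ∧ herm x p = 0} ≤ W' := by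
    rw [Submodule.span_le]
    rintro x ⟨hx, hxp⟩
    exact hcon x hx hxp
  exact h2 h1

theorem exists_data {Γ : Fin 2 → Subgroup (SL n)} {W : Fin 2 → Submodule ℂ (V n)}
    {E : Fin 2 → IntermediateField ℚ ℂ} {X : ∀ i, Submodule (E i) (V n)}
    {E₃ : IntermediateField ℚ ℂ} {X₃ : Submodule E₃ (V n)} {Γ₃ : Subgroup (SL n)}
    (hW : ∀ i, Module.finrank ℂ (W i) = n) (hne : W 0 ≠ W 1)
    (h : ∀ i, IsArith n (E i) (W i) (X i) (Γ i)) (h₃ : IsArith n E₃ (W 0 ⊓ W 1) X₃ Γ₃)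
    (hle : ∀ i, Γ₃ ≤ Γ i) : Nonempty (Data Γ W Γ₃) := by
  obtain ⟨p, hp₃, hp0, hpp⟩ := h₃.2.1.2.2.2
  obtain ⟨q, hq₃, hqq, hqp⟩ := exists_second h₃.1 h₃.2.1 hp₃ hp0 hpp
  have hpW : p ∈ W 0 ⊓ W 1 := h₃.2.1.2.1 ▸ Submodule.subset_span hp₃
  obtain ⟨τ, hτ, hTp⟩ := exists_vert_mem h₃ hp₃ hpp (herm_zero_left p)
  obtain ⟨τ', hτ', hTq⟩ := exists_vert_mem h₃ hq₃ hqq (herm_zero_left q)
  obtain ⟨c, hc, hpc⟩ := exists_smul_mem (h 0) h₃ (hle 0) inf_le_left hp₃ hp0 hpp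
  obtain ⟨d, hd, hpd⟩ := exists_smul_mem (h 1) h₃ (hle 1) inf_le_right hp₃ hp0 hpp
  have hci : c⁻¹ ≠ 0 := inv_ne_zero hc
  have hdi : d⁻¹ ≠ 0 := inv_ne_zero hd
  have g₀ := (h 0).scale hci
  have g₁ := (h 1).scale hdi
  have hp₀ : p ∈ (X 0).map (scaleE (E 0) c⁻¹) := by rw [mem_scale hci, inv_inv]; exact hpc
  have hp₁ : p ∈ (X 1).map (scaleE (E 1) d⁻¹) := by rw [mem_scale hdi, inv_inv]; exact hpd
  obtain ⟨m₀, hm₀, hm₀'⟩ := exists_normal (hW 0) (h 0).2.1.1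
  obtain ⟨m₁, hm₁, hm₁'⟩ := exists_normal (hW 1) (h 1).2.1.1
  have hnd₃ := h₃.2.1.1
  obtain ⟨e, heW, hee, hep, hed⟩ := exists_diff hp0 hpp hpW.1 hpW.2 hne hnd₃ hm₀ hm₀' hm₁ hm₁'
  obtain ⟨e', heW', hee', hep', hed'⟩ := exists_diff hp0 hpp hpW.2 hpW.1 hne.symm
    (by rw [inf_comm]; exact hnd₃) hm₁ hm₁' hm₀ hm₀'
  rw [inf_comm] at hep' hed'
  have hout : ∀ (e : V n) (_ : herm e e ≠ 0) (_ : ∀ w ∈ W 0 ⊓ W 1, herm e w = 0),
      e ∉ W 0 ⊓ W 1 := fun e h1 h2 h3 => h1 (h2 e h3)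
  obtain ⟨x, hx, hxp, hxW⟩ := exists_out g₀ (W' := W 1) hp₀ hp0 hpp heW (hep p hpW)
    (fun h1 => hout e hee hep ⟨heW, h1⟩)
  obtain ⟨y, hy, hyp, hyW⟩ := exists_out g₁ (W' := W 0) hp₁ hp0 hpp heW' (hep' p hpW)
    (fun h1 => hout e' hee' hep' ⟨h1, heW'⟩)
  have hxW₀ : x ∈ W 0 := g₀.2.1.2.1 ▸ Submodule.subset_span hx
  have hyW₁ : y ∈ W 1 := g₁.2.1.2.1 ▸ Submodule.subset_span hy
  obtain ⟨δ, hδE, hδ0, hδ, -⟩ := (h 0).1.exists_delta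
  obtain ⟨a, ha, hTx⟩ := exists_heis_mem g₀ hp₀ hx hpp hxp
  obtain ⟨a', ha', hTx'⟩ := exists_heis_mem g₀ hp₀ (smul_mem_E hδE hx) hpp
    (by rw [herm_smul_left, hxp, mul_zero])
  obtain ⟨b, hb, hTy⟩ := exists_heis_mem g₁ hp₁ hy hpp hyp
  -- the pairings
  have hpair : ∀ (e x : V n) (_ : herm e e ≠ 0) (_ : ∀ w ∈ W 0 ⊓ W 1, herm e w = 0)
      (_ : x - (herm x e / herm e e) • e ∈ W 0 ⊓ W 1) (_ : x ∉ W 0 ⊓ W 1), herm e x ≠ 0 := by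
    intro e x h1 h2 h3 h4 h5
    apply h4
    rw [herm_conj_zero h5, zero_div, zero_smul, sub_zero] at h3
    exact h3
  exact ⟨{
    p := p, q := q, x := x, y := y, e := e, e' := e'
    hp0 := hp0, hpp := hpp, hqq := hqq, hqp := hqp, hpW := hpW
    hxW := hxW₀, hyW := hyW₁, hxW' := hxW, hyW' := hyW, hxp := hxp, hyp := hyp
    heW := hep
    hex := hpair e x hee hep (hed x hxW₀) (fun h1 => hxW h1.2)
    hep := hep p hpW
    heW' := hep'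
    hey := hpair e' y hee' hep' (hed' y hyW₁) (fun h1 => hyW h1.1)
    hep' := hep' p hpW
    τ := τ, τ' := τ', hτ := hτ, hτ' := hτ', hTp := hTp, hTq := hTq
    δ := δ, hδ0 := hδ0, hδ := hδ
    a := a, a' := a', b := b, ha := ha, ha' := ha', hb := hb
    hTx := hTx, hTx' := hTx', hTy := hTy }⟩

/-! ### The conjugated pair -/

theorem geom_base {Γ : Fin 2 → Subgroup (SL n)} {Γ₃ : Subgroup (SL n)} {hle : ∀ i, Γ₃ ≤ Γ i}
    {ρ : Amalg Γ Γ₃ hle →* SL n} {u₀ u₁ : SL n}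
    (h₀ : ∀ γ : Γ 0, ρ (PushoutI.of 0 γ) = u₀ * γ * u₀⁻¹)
    (h₁ : ∀ γ : Γ 1, ρ (PushoutI.of 1 γ) = u₁ * γ * u₁⁻¹) {γ : SL n} (hγ : γ ∈ Γ₃) :
    (u₀⁻¹ * u₁) * γ = γ * (u₀⁻¹ * u₁) := by
  have e0 := h₀ (Subgroup.inclusion (hle 0) ⟨γ, hγ⟩)
  have e1 := h₁ (Subgroup.inclusion (hle 1) ⟨γ, hγ⟩)
  have f0 := PushoutI.of_apply_eq_base (fun i => Subgroup.inclusion (hle i)) 0 ⟨γ, hγ⟩
  have f1 := PushoutI.of_apply_eq_base (fun i => Subgroup.inclusion (hle i)) 1 ⟨γ, hγ⟩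
  rw [f0] at e0
  rw [f1, e0] at e1
  have e2 : u₀ * γ * u₀⁻¹ = u₁ * γ * u₁⁻¹ := e1
  calc (u₀⁻¹ * u₁) * γ = u₀⁻¹ * (u₁ * γ * u₁⁻¹) * u₁ := by group
    _ = u₀⁻¹ * (u₀ * γ * u₀⁻¹) * u₁ := by rw [e2]
    _ = γ * (u₀⁻¹ * u₁) := by group

/-- transport of a Heisenberg element of the second piece -/
theorem moved {Γ : Fin 2 → Subgroup (SL n)} {W : Fin 2 → Submodule ℂ (V n)}
    {Γ₃ : Subgroup (SL n)} (D : Data Γ W Γ₃) {u : SL n} (hu : u ∈ SU n) {l : ℂ}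
    (hl : l * conj l = 1) (hul : ∀ w ∈ W 0 ⊓ W 1, act u w = l • w) :
    herm (conj l • act u D.y) D.p = 0 ∧
    herm (conj l • act u D.y) (conj l • act u D.y) = herm D.y D.y ∧
    ∀ h h', u * T D.p ((D.b : ℂ) • D.y) 0 D.hpp h * u⁻¹ =
      T D.p ((D.b : ℂ) • (conj l • act u D.y)) 0 D.hpp h' := by
  have hl0 : l ≠ 0 := by rintro rfl; simp at hl
  have hup : act u D.p = l • D.p := hul D.p D.hpW
  have hpfix : conj l • act u D.p = D.p := by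
    rw [hup, smul_smul, mul_comm, hl, one_smul]
  have isom : ∀ a b : V n, herm (conj l • act u a) (conj l • act u b) = herm a b := by
    intro a b
    rw [herm_smul_left, herm_smul_right, act_herm hu, Complex.conj_conj, ← mul_assoc,
      mul_comm (conj l), hl, one_mul]
  refine ⟨?_, isom _ _, fun h h' => ?_⟩
  · conv_lhs => rw [← hpfix]
    rw [isom]
    exact D.hyp
  · have hpp' : herm (act u D.p) (act u D.p) = 0 := (act_herm hu _ _).trans D.hpp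
    have hζ' : herm (act u ((D.b : ℂ) • D.y)) (act u D.p) = 0 := (act_herm hu _ _).trans h
    rw [conj_T hu D.hpp h hpp' hζ']
    have hlp : herm (l • D.p) (l • D.p) = 0 := by rw [← hup]; exact hpp'
    have e1 : l • ((D.b : ℂ) • (conj l • act u D.y)) = act u ((D.b : ℂ) • D.y) := by
      rw [act_smul, smul_comm l, smul_smul l, hl, one_smul]
    have hlζ : herm (l • ((D.b : ℂ) • (conj l • act u D.y))) (l • D.p) = 0 := by
      rw [e1, ← hup]; exact hζ'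
    rw [← T_unit hl D.hpp h' hlp hlζ]
    apply ext_act
    intro v
    rw [act_T, act_T, e1, hup]

/-- the image of the second Heisenberg element in the normalised position -/
theorem geom_scalar {E₃ : IntermediateField ℚ ℂ} {W : Fin 2 → Submodule ℂ (V n)}
    {X₃ : Submodule E₃ (V n)} {Γ : Fin 2 → Subgroup (SL n)} {Γ₃ : Subgroup (SL n)}
    {hle : ∀ i, Γ₃ ≤ Γ i} (h₃ : IsArith n E₃ (W 0 ⊓ W 1) X₃ Γ₃)
    {ρ : Amalg Γ Γ₃ hle →* SL n} {u₀ u₁ : SL n} (hu₀ : u₀ ∈ SU n) (hu₁ : u₁ ∈ SU n)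
    (h₀ : ∀ γ : Γ 0, ρ (PushoutI.of 0 γ) = u₀ * γ * u₀⁻¹)
    (h₁ : ∀ γ : Γ 1, ρ (PushoutI.of 1 γ) = u₁ * γ * u₁⁻¹) :
    ∃ l : ℂ, l * conj l = 1 ∧ ∀ w ∈ W 0 ⊓ W 1, act (u₀⁻¹ * u₁) w = l • w :=
  centr_scalar h₃ ((SU n).mul_mem ((SU n).inv_mem hu₀) hu₁) fun _ hγ => geom_base h₀ h₁ hγ

/-! ### No geometric representation is faithful -/

/-- Heisenberg elements with the same centre generate a nilpotent group of class two. -/
theorem heis_comm {p ζ ζ' : V n} {θ θ' : ℂ} (hpp : herm p p = 0) (hζ : herm ζ p = 0)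
    (hζ' : herm ζ' p = 0) {A B : SL n} (hA : A = T p ζ θ hpp hζ) (hB : B = T p ζ' θ' hpp hζ') :
    A * B * A⁻¹ * B⁻¹ * A = A * (A * B * A⁻¹ * B⁻¹) := by
  have h0 : herm (0 : V n) p = 0 := herm_zero_left p
  have h1 : herm (ζ + ζ') p = 0 := by rw [herm_add_left, hζ, hζ', add_zero]
  have h2 : herm (ζ' + ζ) p = 0 := by rw [herm_add_left, hζ, hζ', add_zero]
  have h3 : herm (0 + (ζ' + ζ)) p = 0 := by rw [zero_add, h2]
  set C := T p 0 (herm ζ ζ' - herm ζ' ζ) hpp h0 with hC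
  have key : A * B = C * (B * A) := by
    rw [hA, hB, hC, T_mul hpp hζ hζ' h1, T_mul hpp hζ' hζ h2, T_mul hpp h0 h2 h3]
    have e1 : ζ + ζ' = 0 + (ζ' + ζ) := by rw [zero_add]; exact add_comm ζ ζ'
    apply ext_act
    intro v
    rw [act_T, act_T, e1]
    simp only [kap, herm_zero_left, herm_zero_right]
    congr 3
    ring
  have hcomm : C * A = A * C := by
    have h4 : herm (0 + ζ) p = 0 := by rw [zero_add, hζ]
    have h5 : herm (ζ + 0) p = 0 := by rw [add_zero, hζ]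
    rw [hA, hC, T_mul hpp h0 hζ h4, T_mul hpp hζ h0 h5]
    apply ext_act
    intro v
    rw [act_T, act_T]
    simp only [kap, zero_add, add_zero, herm_zero_left, herm_zero_right]
    congr 3
    ring
  have h6 : A * B * A⁻¹ * B⁻¹ = C := by
    rw [key]; group
  rw [h6, hcomm]

open PushoutI in
/-- a word of length nine is not trivial in an amalgamated product -/
theorem word_ne_one {Γ : Fin 2 → Subgroup (SL n)} {Γ₃ : Subgroup (SL n)} {hle : ∀ i, Γ₃ ≤ Γ i}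
    {a : Γ 0} {b : Γ 1} (ha : (a : SL n) ∉ Γ₃) (ha2 : (a * a : SL n) ∉ Γ₃)
    (hb : (b : SL n) ∉ Γ₃)
    (h : (PushoutI.of 0 a * PushoutI.of 1 b * (PushoutI.of 0 a)⁻¹ * (PushoutI.of 1 b)⁻¹ * PushoutI.of 0 a : Amalg Γ Γ₃ hle) =
      PushoutI.of 0 a * (PushoutI.of 0 a * PushoutI.of 1 b * (PushoutI.of 0 a)⁻¹ *
        (PushoutI.of 1 b)⁻¹)) : False := by
  have hφ : ∀ i, Function.Injective (Subgroup.inclusion (hle i)) := fun i =>
    Subgroup.inclusion_injective _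
  have hr : ∀ (i : Fin 2) (g : Γ i), (g : SL n) ∉ Γ₃ → g ∉ (Subgroup.inclusion (hle i)).range := by
    rintro i g hg ⟨c, rfl⟩
    exact hg c.2
  have ha' : (a⁻¹ : Γ 0) ∉ (Subgroup.inclusion (hle 0)).range := by
    refine hr 0 _ fun h1 => ha ?_
    have := Γ₃.inv_mem h1
    simpa using this
  have hb' : (b⁻¹ : Γ 1) ∉ (Subgroup.inclusion (hle 1)).range := by
    refine hr 1 _ fun h1 => hb ?_
    have := Γ₃.inv_mem h1
    simpa using this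
  have haa : ((a⁻¹ * a⁻¹ : Γ 0)) ∉ (Subgroup.inclusion (hle 0)).range := by
    refine hr 0 _ fun h1 => ha2 ?_
    have := Γ₃.inv_mem h1
    simpa using this
  have hone : ∀ (i : Fin 2) (g : Γ i), g ∉ (Subgroup.inclusion (hle i)).range → g ≠ 1 := by
    rintro i g hg rfl
    exact hg (one_mem _)
  let w : CoprodI.Word (fun i => Γ i) := ⟨[⟨0, a⟩, ⟨1, b⟩, ⟨0, a⁻¹⟩, ⟨1, b⁻¹⟩, ⟨0, a⟩, ⟨1, b⟩,
      ⟨0, a⟩, ⟨1, b⁻¹⟩, ⟨0, a⁻¹ * a⁻¹⟩], by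
    intro l hl
    simp only [List.mem_cons, List.not_mem_nil, or_false] at hl
    rcases hl with rfl | rfl | rfl | rfl | rfl | rfl | rfl | rfl | rfl
    · exact hone 0 _ (hr 0 _ ha)
    · exact hone 1 _ (hr 1 _ hb)
    · exact hone 0 _ ha'
    · exact hone 1 _ hb'
    · exact hone 0 _ (hr 0 _ ha)
    · exact hone 1 _ (hr 1 _ hb)
    · exact hone 0 _ (hr 0 _ ha)
    · exact hone 1 _ hb'
    · exact hone 0 _ haa, by simp⟩
  have hw : Reduced (fun i => Subgroup.inclusion (hle i)) w := by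
    intro l hl
    simp only [w, List.mem_cons, List.not_mem_nil, or_false] at hl
    rcases hl with rfl | rfl | rfl | rfl | rfl | rfl | rfl | rfl | rfl
    · exact hr 0 _ ha
    · exact hr 1 _ hb
    · exact ha'
    · exact hb'
    · exact hr 0 _ ha
    · exact hr 1 _ hb
    · exact hr 0 _ ha
    · exact hb'
    · exact haa
  have h1 := hw.eq_empty_of_mem_range hφ (by
    have h2 : ofCoprodI (φ := fun i => Subgroup.inclusion (hle i)) w.prod = 1 := by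
      simp only [w, CoprodI.Word.prod, List.map_cons, List.prod_cons, List.prod_nil,
        List.map_nil, map_mul, ofCoprodI_of, map_inv, mul_one]
      have h3 : (PushoutI.of 0 a * PushoutI.of 1 b * (PushoutI.of 0 a)⁻¹ * (PushoutI.of 1 b)⁻¹ * PushoutI.of 0 a : Amalg Γ Γ₃ hle) *
        (PushoutI.of 0 a * PushoutI.of 1 b * (PushoutI.of 0 a)⁻¹ * (PushoutI.of 1 b)⁻¹)⁻¹ *
        (PushoutI.of 0 a)⁻¹ = 1 := by
        rw [h]; group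
      rw [← h3]
      group
    rw [h2]
    exact one_mem _)
  simp [w, CoprodI.Word.empty] at h1

/-- a Heisenberg element of a piece is not in the small group -/
theorem heis_not_mem {W₃ : Submodule ℂ (V n)} {p e x : V n} (hp0 : p ≠ 0) (hpp : herm p p = 0)
    (heW : ∀ w ∈ W₃, herm e w = 0) (hex : herm e x ≠ 0) (hep : herm e p = 0) {c : ℂ} (hc : c ≠ 0)
    {θ : ℂ} (h : herm (c • x) p = 0) : T p (c • x) θ hpp h ∉ suOf n W₃ := by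
  intro hm
  have h1 := hm.2 e heW
  rw [act_T, hep, zero_smul, add_zero, mul_zero, zero_sub, herm_smul_right, add_eq_left] at h1
  rcases smul_eq_zero.1 h1 with h2 | h2
  · rw [neg_eq_zero] at h2
    rcases mul_eq_zero.1 h2 with h3 | h3
    · exact hc (by simpa using h3)
    · exact hex h3
  · exact hp0 h2

theorem not_faithful {E₃ : IntermediateField ℚ ℂ} {W : Fin 2 → Submodule ℂ (V n)}
    {X₃ : Submodule E₃ (V n)} {Γ : Fin 2 → Subgroup (SL n)} {Γ₃ : Subgroup (SL n)}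
    {hle : ∀ i, Γ₃ ≤ Γ i} (h₃ : IsArith n E₃ (W 0 ⊓ W 1) X₃ Γ₃) (D : Data Γ W Γ₃)
    {ρ : Amalg Γ Γ₃ hle →* SL n} (hρ : IsGeometric ρ) : ¬ Function.Injective ρ := by
  intro hinj
  obtain ⟨u₀, hu₀, h₀⟩ := hρ 0
  obtain ⟨u₁, hu₁, h₁⟩ := hρ 1
  obtain ⟨l, hl, hul⟩ := geom_scalar h₃ hu₀ hu₁ h₀ h₁
  set u := u₀⁻¹ * u₁ with hu
  have huSU : u ∈ SU n := (SU n).mul_mem ((SU n).inv_mem hu₀) hu₁
  obtain ⟨hy'p, -, hmove⟩ := moved D huSU hl hul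
  have hax : herm ((D.a : ℂ) • D.x) D.p = 0 := by rw [herm_smul_left, D.hxp, mul_zero]
  have hby : herm ((D.b : ℂ) • D.y) D.p = 0 := by rw [herm_smul_left, D.hyp, mul_zero]
  have hby' : herm ((D.b : ℂ) • (conj l • act u D.y)) D.p = 0 := by
    rw [herm_smul_left, hy'p, mul_zero]
  have ha0 : (D.a : ℂ) ≠ 0 := by exact_mod_cast D.ha
  have hb0 : (D.b : ℂ) ≠ 0 := by exact_mod_cast D.hb
  set a : Γ 0 := ⟨_, D.hTx hax⟩ with had
  set b : Γ 1 := ⟨_, D.hTy hby⟩ with hbd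
  have hΓ₃ : ∀ g, g ∈ Γ₃ → g ∈ suOf n (W 0 ⊓ W 1) := fun g hg => h₃.2.2.1 hg
  have ha : (a : SL n) ∉ Γ₃ := fun h =>
    heis_not_mem D.hp0 D.hpp D.heW D.hex D.hep ha0 hax (hΓ₃ _ h)
  have hb : (b : SL n) ∉ Γ₃ := fun h =>
    heis_not_mem D.hp0 D.hpp D.heW' D.hey D.hep' hb0 hby (hΓ₃ _ h)
  have ha2 : (a * a : SL n) ∉ Γ₃ := by
    intro h
    have h2 : herm ((D.a : ℂ) • D.x + (D.a : ℂ) • D.x) D.p = 0 := by
      rw [herm_add_left, hax, add_zero]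
    have e : (a * a : SL n) = T D.p ((D.a : ℂ) • D.x + (D.a : ℂ) • D.x)
        (0 + 0 + (herm ((D.a : ℂ) • D.x) ((D.a : ℂ) • D.x) -
          herm ((D.a : ℂ) • D.x) ((D.a : ℂ) • D.x)) / 2) D.hpp h2 := T_mul D.hpp hax hax h2
    have h3 : herm ((2 * (D.a : ℂ)) • D.x) D.p = 0 := by rw [herm_smul_left, D.hxp, mul_zero]
    have e2 : (a * a : SL n) = T D.p ((2 * (D.a : ℂ)) • D.x)
        (0 + 0 + (herm ((D.a : ℂ) • D.x) ((D.a : ℂ) • D.x) -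
          herm ((D.a : ℂ) • D.x) ((D.a : ℂ) • D.x)) / 2) D.hpp h3 := by
      have e3 : (D.a : ℂ) • D.x + (D.a : ℂ) • D.x = (2 * (D.a : ℂ)) • D.x := by
        rw [mul_smul, two_smul]
      rw [e]
      apply ext_act
      intro v
      rw [act_T, act_T, e3]
    rw [e2] at h
    exact heis_not_mem D.hp0 D.hpp D.heW D.hex D.hep (mul_ne_zero two_ne_zero ha0) h3 (hΓ₃ _ h)
  refine word_ne_one ha ha2 hb (hinj ?_)
  have hA : ρ (PushoutI.of 0 a) = u₀ * T D.p ((D.a : ℂ) • D.x) 0 D.hpp hax * u₀⁻¹ := h₀ a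
  have hB : ρ (PushoutI.of 1 b) = u₀ * T D.p ((D.b : ℂ) • (conj l • act u D.y)) 0 D.hpp hby' *
      u₀⁻¹ := by
    rw [← hmove hby hby']
    have e1 : ρ (PushoutI.of 1 b) = u₁ * T D.p ((D.b : ℂ) • D.y) 0 D.hpp hby * u₁⁻¹ := h₁ b
    rw [e1, hu]
    group
  have hc := heis_comm D.hpp hax hby' (θ := 0) (θ' := 0) rfl rfl
  simp only [map_mul, map_inv]
  rw [hA, hB]
  set A := T D.p ((D.a : ℂ) • D.x) 0 D.hpp hax
  set B := T D.p ((D.b : ℂ) • (conj l • act u D.y)) 0 D.hpp hby'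
  calc u₀ * A * u₀⁻¹ * (u₀ * B * u₀⁻¹) * (u₀ * A * u₀⁻¹)⁻¹ * (u₀ * B * u₀⁻¹)⁻¹ *
        (u₀ * A * u₀⁻¹) = u₀ * (A * B * A⁻¹ * B⁻¹ * A) * u₀⁻¹ := by group
    _ = u₀ * (A * (A * B * A⁻¹ * B⁻¹)) * u₀⁻¹ := by rw [hc]
    _ = _ := by group

/-! ### Only finitely many geometric representations have a discrete image -/

/-- `ρ` is a geometric representation with discrete image whose angle parameter is `z`. -/
def Param {Γ : Fin 2 → Subgroup (SL n)} {W : Fin 2 → Submodule ℂ (V n)}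
    {Γ₃ : Subgroup (SL n)} {hle : ∀ i, Γ₃ ≤ Γ i} (D : Data Γ W Γ₃) (z : ℂ)
    (ρ : Amalg Γ Γ₃ hle →* SL n) : Prop :=
  DiscreteTopology ρ.range ∧ ∃ u₀ ∈ SU n, ∃ u₁ ∈ SU n,
    (∀ γ : Γ 0, ρ (PushoutI.of 0 γ) = u₀ * γ * u₀⁻¹) ∧
    (∀ γ : Γ 1, ρ (PushoutI.of 1 γ) = u₁ * γ * u₁⁻¹) ∧
    ∃ l : ℂ, l * conj l = 1 ∧ (∀ w ∈ W 0 ⊓ W 1, act (u₀⁻¹ * u₁) w = l • w) ∧
      z = herm D.x (conj l • act (u₀⁻¹ * u₁) D.y)

theorem finite_main {E₃ : IntermediateField ℚ ℂ} {W : Fin 2 → Submodule ℂ (V n)}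
    {X₃ : Submodule E₃ (V n)} {Γ : Fin 2 → Subgroup (SL n)} {Γ₃ : Subgroup (SL n)}
    {hle : ∀ i, Γ₃ ≤ Γ i} (hW : ∀ i, Module.finrank ℂ (W i) = n) (hne : W 0 ≠ W 1)
    (hnd : ∀ i, ∀ v ∈ W i, (∀ w ∈ W i, herm v w = 0) → v = 0) (hsu : ∀ i, Γ i ≤ suOf n (W i))
    (h₃ : IsArith n E₃ (W 0 ⊓ W 1) X₃ Γ₃) (D : Data Γ W Γ₃) :
    ∃ R : Set (Amalg Γ Γ₃ hle →* SL n), R.Finite ∧
      (∀ σ ∈ R, IsGeometric σ ∧ DiscreteTopology σ.range) ∧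
      ∀ ρ : Amalg Γ Γ₃ hle →* SL n, IsGeometric ρ → DiscreteTopology ρ.range →
        ∃ σ ∈ R, ∃ g ∈ SU n, ∀ a, ρ a = g * σ a * g⁻¹ := by
  classical
  obtain ⟨Z, hZ, hZ'⟩ := fin_pair (y := D.y) D.hp0 D.hpp D.hqq D.hqp (herm_zero_left D.p)
    (herm_zero_left D.q) D.hτ D.hτ' D.hxp D.ha D.ha' D.hb D.hδ0 D.hδ
  -- a geometric representation with discrete image has a parameter in `Z`
  have hparam : ∀ ρ : Amalg Γ Γ₃ hle →* SL n, IsGeometric ρ → DiscreteTopology ρ.range →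
      ∃ z ∈ Z, Param D z ρ := by
    intro ρ hρ hd
    obtain ⟨u₀, hu₀, h₀⟩ := hρ 0
    obtain ⟨u₁, hu₁, h₁⟩ := hρ 1
    obtain ⟨l, hl, hul⟩ := geom_scalar h₃ hu₀ hu₁ h₀ h₁
    refine ⟨herm D.x (conj l • act (u₀⁻¹ * u₁) D.y), ?_, hd, u₀, hu₀, u₁, hu₁, h₀, h₁, l, hl, hul,
      rfl⟩
    set u := u₀⁻¹ * u₁ with hu
    have huSU : u ∈ SU n := (SU n).mul_mem ((SU n).inv_mem hu₀) hu₁
    obtain ⟨hy'p, hy'y', hmove⟩ := moved D huSU hl hul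
    let K : Subgroup (SL n) := Γ 0 ⊔ (Γ 1).map (MulAut.conj u).toMonoidHom
    have hK : K ≤ ρ.range.comap (MulAut.conj u₀).toMonoidHom := by
      refine sup_le ?_ ?_
      · intro g hg
        refine ⟨PushoutI.of 0 ⟨g, hg⟩, ?_⟩
        rw [h₀]
        rfl
      · rintro _ ⟨g, hg, rfl⟩
        refine ⟨PushoutI.of 1 ⟨g, hg⟩, ?_⟩
        rw [h₁]
        show u₁ * g * u₁⁻¹ = u₀ * (u * g * u⁻¹) * u₀⁻¹
        rw [hu]
        group
    have hKd : DiscreteTopology K := by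
      let f : K → ρ.range := fun k => ⟨u₀ * k * u₀⁻¹, hK k.2⟩
      have hf : Continuous f := by
        refine Continuous.subtype_mk ?_ _
        fun_prop
      have hfi : Function.Injective f := by
        intro a b hab
        have h1 : u₀ * (a : SL n) * u₀⁻¹ = u₀ * (b : SL n) * u₀⁻¹ := congrArg Subtype.val hab
        apply Subtype.ext
        exact mul_left_cancel (mul_right_cancel h1)
      exact DiscreteTopology.of_continuous_injective hf hfi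
    refine hZ' K hKd (le_sup_left (a := Γ 0) (hle 0 D.hTp)) (le_sup_left (a := Γ 0) (hle 0 D.hTq))
      (fun h => le_sup_left (a := Γ 0) (D.hTx h)) (fun h => le_sup_left (a := Γ 0) (D.hTx' h))
      _ hy'p hy'y' fun h => ?_
    have hby : herm ((D.b : ℂ) • D.y) D.p = 0 := by rw [herm_smul_left, D.hyp, mul_zero]
    rw [← hmove hby h]
    exact (le_sup_right : (Γ 1).map (MulAut.conj u).toMonoidHom ≤ K) ⟨_, D.hTy hby, rfl⟩
  -- two representations with the same parameter are conjugate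
  have hconj : ∀ (z : ℂ) (ρ σ : Amalg Γ Γ₃ hle →* SL n), Param D z ρ → Param D z σ →
      ∃ g ∈ SU n, ∀ a, ρ a = g * σ a * g⁻¹ := by
    rintro z ρ σ ⟨-, u₀, hu₀, u₁, hu₁, h₀, h₁, l, hl, hul, hz⟩
      ⟨-, v₀, hv₀, v₁, hv₁, k₀, k₁, l', hl', hul', hz'⟩
    obtain ⟨g, hg, hg₀, hg₁⟩ := conj_of_eq D.hp0 D.hpp D.hpW.1 D.hpW.2 (hW 0) (hW 1) hne (hnd 0)
      (hnd 1) h₃.2.1.1 D.hxW D.hxW' D.hyW D.hyW'
      ((SU n).mul_mem ((SU n).inv_mem hu₀) hu₁) ((SU n).mul_mem ((SU n).inv_mem hv₀) hv₁)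
      hl hl' hul hul' (hz.symm.trans hz')
    refine ⟨u₀ * g * v₀⁻¹, (SU n).mul_mem ((SU n).mul_mem hu₀ hg) ((SU n).inv_mem hv₀), ?_⟩
    set G := u₀ * g * v₀⁻¹ with hG
    have hext : ρ = (MulAut.conj G).toMonoidHom.comp σ := by
      refine PushoutI.hom_ext_nonempty fun i => ?_
      refine MonoidHom.ext fun γ => ?_
      show ρ (PushoutI.of i γ) = G * σ (PushoutI.of i γ) * G⁻¹
      revert γ
      refine Fin.cases (motive := fun i => ∀ γ : Γ i,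
        ρ (PushoutI.of i γ) = G * σ (PushoutI.of i γ) * G⁻¹) ?_ (fun j => ?_) i
      · intro γ
        rw [h₀, k₀, hG]
        have h5 := hg₀ γ (hsu 0 γ.2)
        calc u₀ * (γ : SL n) * u₀⁻¹ = u₀ * (g * γ * g⁻¹) * u₀⁻¹ := by rw [h5]
          _ = _ := by group
      · have hj : j = 0 := Subsingleton.elim _ _
        subst hj
        intro γ
        have h5 := hg₁ γ (hsu 1 γ.2)
        show ρ (PushoutI.of 1 γ) = G * σ (PushoutI.of 1 γ) * G⁻¹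
        rw [h₁, k₁, hG]
        calc u₁ * (γ : SL n) * u₁⁻¹ = u₀ * (u₀⁻¹ * u₁ * γ * (u₀⁻¹ * u₁)⁻¹) * u₀⁻¹ := by group
          _ = u₀ * (g * (v₀⁻¹ * v₁ * γ * (v₀⁻¹ * v₁)⁻¹) * g⁻¹) * u₀⁻¹ := by rw [h5]
          _ = _ := by group
    intro a
    rw [hext]
    rfl
  -- choice of representatives
  let Z' : Set ℂ := {z ∈ Z | ∃ ρ : Amalg Γ Γ₃ hle →* SL n, Param D z ρ}
  let r : ℂ → (Amalg Γ Γ₃ hle →* SL n) := fun z =>
    if h : ∃ ρ : Amalg Γ Γ₃ hle →* SL n, Param D z ρ then h.choose else 1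
  have hr : ∀ z, (∃ ρ : Amalg Γ Γ₃ hle →* SL n, Param D z ρ) → Param D z (r z) := by
    intro z h
    simp only [r, dif_pos h]
    exact h.choose_spec
  refine ⟨r '' Z', (hZ.subset fun z hz => hz.1).image r, ?_, ?_⟩
  · rintro _ ⟨z, hz, rfl⟩
    obtain ⟨hd, u₀, hu₀, u₁, hu₁, h₀, h₁, -⟩ := hr z hz.2
    refine ⟨fun i => ?_, hd⟩
    refine Fin.cases (motive := fun i => ∃ u ∈ SU n, ∀ γ : Γ i,
      r z (PushoutI.of i γ) = u * γ * u⁻¹) ⟨u₀, hu₀, h₀⟩ (fun j => ?_) i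
    have hj : j = 0 := Subsingleton.elim _ _
    subst hj
    exact ⟨u₁, hu₁, h₁⟩
  · intro ρ hρ hd
    obtain ⟨z, hz, hP⟩ := hparam ρ hρ hd
    exact ⟨r z, ⟨z, ⟨hz, ρ, hP⟩, rfl⟩, hconj z ρ (r z) hP (hr z ⟨ρ, hP⟩)⟩

end Pool.Agent.H70.Hunt
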