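import Pool.Graph.R_pool_sql_team_seeded_3997aac3.Q107.Hunt.Final

/-! # A Shimizu-type lemma for the vertical translations of a discrete subgroup of `SU(n,1)` -/

namespace Pool.Agent.H70.Hunt

open Matrix ComplexConjugate Filter Topology Pool.Agent.Q107.Hunt

variable {n : ℕ}

abbrev V (n : ℕ) := Fin (n + 1) → ℂ

abbrev SL (n : ℕ) := SpecialLinearGroup (Fin (n + 1)) ℂ

theorem act_herm {g : SL n} (hg : g ∈ SU n) (v w : V n) : herm (act g v) (act g w) = herm v w :=
  hg v w

theorem act_inv_herm {g : SL n} (hg : g ∈ SU n) (v w : V n) :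
    herm (act g⁻¹ v) w = herm v (act g w) := by
  have := hg (act g⁻¹ v) w
  rw [act_act_inv] at this
  exact this.symm

/-- the conjugate of a Heisenberg element -/
theorem conj_T {g : SL n} (hg : g ∈ SU n) {p ζ : V n} {θ : ℂ} (hpp : herm p p = 0)
    (hζ : herm ζ p = 0) (hpp' : herm (act g p) (act g p) = 0)
    (hζ' : herm (act g ζ) (act g p) = 0) :
    g * T p ζ θ hpp hζ * g⁻¹ = T (act g p) (act g ζ) θ hpp' hζ' := by
  apply ext_act
  intro v
  rw [act_mul, act_mul, act_T, act_T, act_add, act_add, act_smul, act_smul, act_act_inv,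
    act_inv_herm hg, act_inv_herm hg]
  simp only [kap, act_herm hg]

/-- rescaling the centre of a Heisenberg element by a unit -/
theorem T_unit {p ζ : V n} {θ l : ℂ} (hl : l * conj l = 1) (hpp : herm p p = 0)
    (hζ : herm ζ p = 0) (hpp' : herm (l • p) (l • p) = 0) (hζ' : herm (l • ζ) (l • p) = 0) :
    T (l • p) (l • ζ) θ hpp' hζ' = T p ζ θ hpp hζ := by
  apply ext_act
  intro v
  rw [act_T, act_T]
  simp only [kap, herm_smul_left, herm_smul_right]
  funext i
  simp only [Pi.add_apply, Pi.smul_apply, smul_eq_mul]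
  linear_combination (herm v p * ζ i + (θ - herm ζ ζ / 2) * herm v p * p i - herm v ζ * p i
    - herm v p * p i * herm ζ ζ / 2 * (l * conj l)) * hl

theorem act_vert {p : V n} {θ : ℂ} (hpp : herm p p = 0) (h0 : herm (0 : V n) p = 0) (v : V n) :
    act (T p 0 θ hpp h0) v = v + (θ * herm v p) • p := by
  rw [act_T]
  simp [kap]

theorem continuous_Tmat (θ : ℂ) : Continuous fun x : V n => Tmat x 0 θ := by
  refine continuous_matrix fun i j => ?_
  simp only [Tmat, kap, Matrix.add_apply, vecMulVec_apply, Pi.sub_apply, Pi.smul_apply,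
    smul_eq_mul, Pool.Agent.Q107.Hunt.row, Pi.zero_apply]
  have h1 : ∀ k, Continuous fun x : V n => conj (x k) := fun k =>
    Complex.continuous_conj.comp (continuous_apply k)
  fun_prop

/-- the sequence of vectors of Shimizu's lemma -/
def gam (A T : SL n) : ℕ → SL n
  | 0 => A
  | k + 1 => gam A T k * T * (gam A T k)⁻¹

theorem gam_mem {Γ : Subgroup (SL n)} {A T : SL n} (hA : A ∈ Γ) (hT : T ∈ Γ) (k : ℕ) :
    gam A T k ∈ Γ := by
  induction k with
  | zero => exact hA
  | succ k ih => exact Γ.mul_mem (Γ.mul_mem ih hT) (Γ.inv_mem ih)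

/-- **A Shimizu-type lemma.** In a discrete group two vertical translations with distinct centres
cannot both be short. -/
theorem shimizu {Γ : Subgroup (SL n)} (hΓ : DiscreteTopology Γ) {p q : V n}
    (hpp : herm p p = 0) (hqq : herm q q = 0) (hqp : herm q p ≠ 0)
    (h0p : herm (0 : V n) p = 0) (h0q : herm (0 : V n) q = 0) {t τ : ℝ} (ht : t ≠ 0) (hτ : τ ≠ 0)
    (hT : T p 0 (t * Complex.I) hpp h0p ∈ Γ) (hT' : T q 0 (τ * Complex.I) hqq h0q ∈ Γ) :
    1 ≤ |t| * (|τ| * ‖herm q p‖ ^ 2) := by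
  by_contra hlt
  push Not at hlt
  have hTSU : T p 0 (t * Complex.I) hpp h0p ∈ SU n := T_mem_SU hpp h0p (by simp)
  have hASU : T q 0 (τ * Complex.I) hqq h0q ∈ SU n := T_mem_SU hqq h0q (by simp)
  set A := T q 0 (τ * Complex.I) hqq h0q with hA
  set B := T p 0 (t * Complex.I) hpp h0p with hB
  have hgSU : ∀ k, gam A B k ∈ SU n := gam_mem hASU hTSU
  have hgΓ : ∀ k, gam A B k ∈ Γ := gam_mem hT' hT
  set x : ℕ → V n := fun k => act (gam A B k) p with hx
  have hxx : ∀ k, herm (x k) (x k) = 0 := fun k => by rw [hx]; exact (act_herm (hgSU k) p p).trans hpp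
  have h0x : ∀ k, herm (0 : V n) (x k) = 0 := fun k => herm_zero_left _
  have hstep : ∀ k, gam A B (k + 1) = T (x k) 0 (t * Complex.I) (hxx k) (h0x k) := by
    intro k
    have h1 := conj_T (hgSU k) (θ := t * Complex.I) hpp h0p (hxx k) (by rw [act_zero]; exact h0x k)
    show gam A B k * B * (gam A B k)⁻¹ = _
    rw [hB, h1]
    apply ext_act
    intro v
    rw [act_T, act_T, act_zero]
  have hxs : ∀ k, x (k + 1) = p + (t * Complex.I * herm p (x k)) • x k := by
    intro k
    show act (gam A B (k + 1)) p = _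
    rw [hstep, act_vert]
  -- the pairings
  have ha : ∀ k, herm (x (k + 1)) p = t * Complex.I * herm p (x k) * herm (x k) p := by
    intro k
    rw [hxs, herm_add_left, hpp, herm_smul_left, zero_add]
  have hnc : ∀ k, ‖herm p (x k)‖ = ‖herm (x k) p‖ := by
    intro k
    rw [← conj_herm (x k) p, RCLike.norm_conj]
  set r : ℕ → ℝ := fun k => |t| * ‖herm (x k) p‖ with hr
  have hrs : ∀ k, r (k + 1) = r k ^ 2 := by
    intro k
    simp only [hr]
    rw [ha, norm_mul, norm_mul, norm_mul, Complex.norm_real, Complex.norm_I, hnc, Real.norm_eq_abs]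
    ring
  have hr0 : r 0 = |t| * (|τ| * ‖herm q p‖ ^ 2) := by
    simp only [hr]
    have : x 0 = p + (τ * Complex.I * herm p q) • q := by
      show act (gam A B 0) p = _
      show act A p = _
      rw [hA, act_vert]
    rw [this, herm_add_left, hpp, herm_smul_left, zero_add, norm_mul, norm_mul, norm_mul,
      Complex.norm_real, Complex.norm_I, Real.norm_eq_abs, ← conj_herm q p, RCLike.norm_conj]
    ring
  have hr0pos : 0 < r 0 := by
    rw [hr0]
    have h1 := abs_pos.2 ht
    have h2 := abs_pos.2 hτ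
    have h3 := norm_pos_iff.2 hqp
    positivity
  have hr0lt : r 0 < 1 := by rw [hr0]; exact hlt
  have hrpow : ∀ k, r k = r 0 ^ (2 ^ k) := by
    intro k
    induction k with
    | zero => simp
    | succ k ih => rw [hrs, ih, ← pow_mul, pow_succ]
  have hrpos : ∀ k, 0 < r k := fun k => by rw [hrpow]; positivity
  have hrle : ∀ k, r k ≤ r 0 := by
    intro k
    rw [hrpow]
    calc r 0 ^ (2 ^ k) ≤ r 0 ^ 1 := pow_le_pow_of_le_one hr0pos.le hr0lt.le (Nat.one_le_two_pow)
      _ = r 0 := pow_one _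
  have hrlim : Tendsto r atTop (𝓝 0) := by
    have h1 : Tendsto (fun k : ℕ => r 0 ^ k) atTop (𝓝 0) :=
      tendsto_pow_atTop_nhds_zero_of_lt_one hr0pos.le hr0lt
    have h2 : Tendsto (fun k : ℕ => 2 ^ k) atTop atTop := tendsto_pow_atTop_atTop_of_one_lt (by norm_num)
    have h3 := h1.comp h2
    refine h3.congr fun k => ?_
    rw [hrpow k]; rfl
  -- boundedness
  have hdiff : ∀ k, ‖x (k + 1) - p‖ ≤ r k * ‖x k‖ := by
    intro k
    rw [hxs, add_sub_cancel_left, norm_smul, norm_mul, norm_mul, Complex.norm_real, Complex.norm_I,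
      hnc, Real.norm_eq_abs, mul_one]
  set C : ℝ := max ‖x 0‖ (‖p‖ / (1 - r 0)) with hC
  have hC1 : 0 < 1 - r 0 := by linarith
  have hxC : ∀ k, ‖x k‖ ≤ C := by
    intro k
    induction k with
    | zero => exact le_max_left _ _
    | succ k ih =>
      have h1 : ‖x (k + 1)‖ ≤ ‖p‖ + r k * ‖x k‖ := by
        calc ‖x (k + 1)‖ = ‖p + (x (k + 1) - p)‖ := by congr 1; abel
          _ ≤ ‖p‖ + ‖x (k + 1) - p‖ := norm_add_le _ _
          _ ≤ ‖p‖ + r k * ‖x k‖ := by linarith [hdiff k]
      have hC0 : 0 ≤ C := le_trans (norm_nonneg _) (le_max_left _ _)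
      have h2 : r k * ‖x k‖ ≤ r 0 * C :=
        mul_le_mul (hrle k) ih (norm_nonneg _) hr0pos.le
      have h3 : ‖p‖ ≤ (1 - r 0) * C := by
        have := le_max_right ‖x 0‖ (‖p‖ / (1 - r 0))
        rw [← hC, div_le_iff₀ hC1] at this
        linarith
      linarith
  have hxlim : Tendsto x atTop (𝓝 p) := by
    rw [← tendsto_add_atTop_iff_nat 1, tendsto_iff_norm_sub_tendsto_zero]
    have h1 : Tendsto (fun k => r k * C) atTop (𝓝 0) := by
      have := hrlim.mul_const C
      rwa [zero_mul] at this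
    refine squeeze_zero (fun k => norm_nonneg _) (fun k => ?_) h1
    exact (hdiff k).trans (mul_le_mul_of_nonneg_left (hxC k) (hrpos k).le)
  -- the group elements converge
  have hglim : Tendsto (fun k => gam A B (k + 1)) atTop (𝓝 B) := by
    refine Topology.IsInducing.subtypeVal.tendsto_nhds_iff.2 ?_
    have h1 : Tendsto (fun k => Tmat (x k) 0 (t * Complex.I)) atTop (𝓝 (Tmat p 0 (t * Complex.I))) :=
      ((continuous_Tmat (n := n) (t * Complex.I)).tendsto p).comp hxlim
    refine h1.congr fun k => ?_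
    have h2 := congrArg Subtype.val (hstep k)
    exact h2.symm
  have hopen : IsOpen ({⟨B, hT⟩} : Set Γ) := isOpen_discrete _
  obtain ⟨U, hU, hU1⟩ := isOpen_induced_iff.1 hopen
  have hBU : B ∈ U := by
    have : (⟨B, hT⟩ : Γ) ∈ (Subtype.val ⁻¹' U : Set Γ) := by rw [hU1]; rfl
    exact this
  obtain ⟨k, hk⟩ := (hglim.eventually (hU.mem_nhds hBU)).exists
  have hk1 : (⟨gam A B (k + 1), hgΓ (k + 1)⟩ : Γ) ∈ (Subtype.val ⁻¹' U : Set Γ) := hk
  rw [hU1] at hk1
  have hk2 : gam A B (k + 1) = B := congrArg Subtype.val hk1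
  have hk3 : x (k + 1) = p := by
    show act (gam A B (k + 1)) p = p
    rw [hk2, hB, act_vert, hpp, mul_zero, zero_smul, add_zero]
  have hk4 := hrpos (k + 1)
  simp only [hr] at hk4
  rw [hk3, hpp, norm_zero, mul_zero] at hk4
  exact lt_irrefl _ hk4

end Pool.Agent.H70.Hunt
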