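import Pool.Agent.H70.Hunt.Stm
import Pool.Graph.R_pool_sql_team_seeded_3997aac3.Q107.Hunt.Dens2

/-! # The standard Picard modular groups: definitions and elementary elements -/

namespace Pool.Agent.H70.Hunt

open Matrix ComplexConjugate Filter Topology Pool.Agent.Q107.Hunt

variable {n : ℕ}

/-- The ring of integers of the number field `E ⊂ ℂ`. -/
noncomputable def intRing (E : IntermediateField ℚ ℂ) : Subring ℂ :=
  E.toSubring ⊓ (integralClosure ℤ ℂ).toSubring

theorem mem_intRing {E : IntermediateField ℚ ℂ} {z : ℂ} :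
    z ∈ intRing E ↔ z ∈ E ∧ IsIntegral ℤ z := by
  rw [intRing, Subring.mem_inf]
  exact Iff.rfl

/-- The group `SU(n,1;𝒪_E)` of the elements of `SU(n,1)` with entries in the ring of integers of
`E`. -/
noncomputable def Picard (E : IntermediateField ℚ ℂ) (n : ℕ) : Subgroup (SL n) :=
  (SpecialLinearGroup.map (intRing E).subtype).range ⊓ SU n

/-- The subgroup of `SL(n+1,ℂ)` fixing a vector. -/
def fixer (v : V n) : Subgroup (SL n) where
  carrier := {g | act g v = v}
  mul_mem' := by
    intro a b ha hb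
    show act (a * b) v = v
    rw [act_mul]
    exact (congrArg (act a) hb).trans ha
  one_mem' := act_one v
  inv_mem' := by
    intro a ha
    show act a⁻¹ v = v
    have h1 : act a v = v := ha
    conv_lhs => rw [← h1]
    exact act_inv_act a v

theorem mem_fixer {v : V n} {g : SL n} : g ∈ fixer v ↔ act g v = v := Iff.rfl

/-- The standard basis vector `e_k` of `ℂ^(n+1)`, `0 ≤ k ≤ n`. -/
def bv (n : ℕ) (k : ℕ) : V n := fun j => if (j : ℕ) = k then 1 else 0

/-- integral vectors -/
def IsInt (E : IntermediateField ℚ ℂ) (v : V n) : Prop := ∀ i, v i ∈ intRing E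

theorem IsInt.add {E : IntermediateField ℚ ℂ} {v w : V n} (hv : IsInt E v) (hw : IsInt E w) :
    IsInt E (v + w) := fun i => (intRing E).add_mem (hv i) (hw i)

theorem IsInt.sub {E : IntermediateField ℚ ℂ} {v w : V n} (hv : IsInt E v) (hw : IsInt E w) :
    IsInt E (v - w) := fun i => (intRing E).sub_mem (hv i) (hw i)

theorem IsInt.smul {E : IntermediateField ℚ ℂ} {v : V n} {c : ℂ} (hc : c ∈ intRing E)
    (hv : IsInt E v) : IsInt E (c • v) := fun i => (intRing E).mul_mem hc (hv i)

theorem IsInt.bv (E : IntermediateField ℚ ℂ) (k : ℕ) : IsInt E (bv n k) := by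
  intro i
  simp only [Hunt.bv]
  split_ifs
  · exact (intRing E).one_mem
  · exact (intRing E).zero_mem

theorem intRing_conj {E : IntermediateField ℚ ℂ} (hE : ImagQuad E) {z : ℂ}
    (hz : z ∈ intRing E) : conj z ∈ intRing E := by
  rw [mem_intRing] at hz ⊢
  exact ⟨hE.conj_mem hz.1, hz.2.map (starRingEnd ℂ).toIntAlgHom⟩

theorem IsInt.herm {E : IntermediateField ℚ ℂ} (hE : ImagQuad E) {v w : V n} (hv : IsInt E v)
    (hw : IsInt E w) : herm v w ∈ intRing E := by
  refine (intRing E).sum_mem fun i _ => (intRing E).mul_mem ?_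
    ((intRing E).mul_mem (hv i) (intRing_conj hE (hw i)))
  unfold sg
  split_ifs
  · exact (intRing E).neg_mem (intRing E).one_mem
  · exact (intRing E).one_mem

theorem act_bv (g : SL n) (j : Fin (n + 1)) : act g (bv n j) = fun i => g i j := by
  funext i
  show ((g : Matrix (Fin (n + 1)) (Fin (n + 1)) ℂ) *ᵥ (bv n j)) i = _
  rw [mulVec, dotProduct, Finset.sum_eq_single j]
  · simp [bv]
  · intro k _ hk
    have : ¬ ((k : ℕ) = j) := fun h => hk (Fin.ext h)
    simp [bv, this]
  · intro h; exact absurd (Finset.mem_univ j) h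

/-- an element of `SU(n,1)` mapping integral vectors to integral vectors is in the Picard group -/
theorem mem_picard {E : IntermediateField ℚ ℂ} {g : SL n} (hg : g ∈ SU n)
    (h : ∀ v : V n, IsInt E v → IsInt E (act g v)) : g ∈ Picard E n := by
  refine ⟨?_, hg⟩
  have hent : ∀ i j, g i j ∈ intRing E := by
    intro i j
    have := h _ (IsInt.bv E (j : ℕ)) i
    rwa [act_bv] at this
  let M : Matrix (Fin (n + 1)) (Fin (n + 1)) (intRing E) := fun i j => ⟨g i j, hent i j⟩
  have hM : M.map (intRing E).subtype = (g : Matrix (Fin (n + 1)) (Fin (n + 1)) ℂ) := by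
    ext i j
    rfl
  have hdet : M.det = 1 := by
    apply (intRing E).subtype_injective
    rw [RingHom.map_det, RingHom.mapMatrix_apply, hM, map_one]
    exact g.2
  refine ⟨⟨M, hdet⟩, ?_⟩
  apply Subtype.ext
  exact hM

/-- elements of the Picard group map integral vectors to integral vectors -/
theorem picard_int {E : IntermediateField ℚ ℂ} {g : SL n} (hg : g ∈ Picard E n) {v : V n}
    (hv : IsInt E v) : IsInt E (act g v) := by
  obtain ⟨⟨M, rfl⟩, -⟩ := hg
  intro i
  show ((SpecialLinearGroup.map (intRing E).subtype M : Matrix (Fin (n + 1)) (Fin (n + 1)) ℂ) *ᵥ v)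
    i ∈ intRing E
  rw [mulVec, dotProduct]
  exact (intRing E).sum_mem fun j _ => (intRing E).mul_mem (M.1 i j).2 (hv j)

theorem T_mem_picard {E : IntermediateField ℚ ℂ} (hE : ImagQuad E) {p ζ : V n} {θ : ℂ}
    (hpp : herm p p = 0) (hζ : herm ζ p = 0) (hθ : conj θ = -θ) (hp : IsInt E p)
    (hz : IsInt E ζ) (hk : kap ζ θ ∈ intRing E) : T p ζ θ hpp hζ ∈ Picard E n := by
  refine mem_picard (T_mem_SU hpp hζ hθ) fun v hv => ?_
  rw [act_T]
  refine (hv.add (IsInt.smul (hv.herm hE hp) hz)).add (IsInt.smul ?_ hp)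
  exact (intRing E).sub_mem ((intRing E).mul_mem hk (hv.herm hE hp)) (hv.herm hE hz)

/-! ### Rotations in a coordinate plane -/

theorem det_rank_two (a b x y : V n) :
    (1 + (rk a x + rk b y) : Matrix (Fin (n + 1)) (Fin (n + 1)) ℂ).det =
      (1 + herm a x) * (1 + herm b y) - herm b x * herm a y := by
  set A : Matrix (Fin (n + 1)) (Fin 2) ℂ := Matrix.of fun i j => ![a i, b i] j with hA
  set B : Matrix (Fin 2) (Fin (n + 1)) ℂ :=
    Matrix.of fun j i => ![Pool.Agent.Q107.Hunt.row x i, Pool.Agent.Q107.Hunt.row y i] j with hB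
  have h1 : (1 + (rk a x + rk b y) : Matrix (Fin (n + 1)) (Fin (n + 1)) ℂ) = 1 + A * B := by
    congr 1
    ext i j
    rw [Matrix.mul_apply, Fin.sum_univ_two]
    simp [hA, hB, rk, vecMulVec_apply]
  rw [h1, det_one_add_mul_comm, det_fin_two]
  have e : ∀ i j, (B * A) i j = B i ⬝ᵥ (fun k => A k j) := fun i j => rfl
  have b0 : B 0 = Pool.Agent.Q107.Hunt.row x := by ext i; simp [hB]
  have b1 : B 1 = Pool.Agent.Q107.Hunt.row y := by ext i; simp [hB]
  have a0 : (fun i => A i 0) = a := by ext i; simp [hA]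
  have a1 : (fun i => A i 1) = b := by ext i; simp [hA]
  simp only [Matrix.add_apply, e, b0, b1, a0, a1, row_dot]
  simp

/-- the data of a rotation in the plane of two orthogonal unit vectors -/
structure RotData (e f : V n) (ε ε' A B C D : ℂ) : Prop where
  ee : herm e e = ε
  ff : herm f f = ε'
  ef : herm e f = 0
  hε : ε * ε = 1
  hε' : ε' * ε' = 1
  cε : conj ε = ε
  cε' : conj ε' = ε'
  det : A * D - B * C = 1
  n1 : A * conj A * ε + C * conj C * ε' = ε
  n2 : B * conj B * ε + D * conj D * ε' = ε'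
  o1 : A * conj B * ε + C * conj D * ε' = 0

/-- the matrix of the rotation `e ↦ A e + C f`, `f ↦ B e + D f` -/
noncomputable def rotM (e f : V n) (ε ε' A B C D : ℂ) : Matrix (Fin (n + 1)) (Fin (n + 1)) ℂ :=
  1 + (rk ((A - 1) • e + C • f) (ε • e) + rk (B • e + (D - 1) • f) (ε' • f))

theorem RotData.detM {e f : V n} {ε ε' A B C D : ℂ} (h : RotData e f ε ε' A B C D) :
    (rotM e f ε ε' A B C D).det = 1 := by
  have fe : herm f e = 0 := herm_conj_zero h.ef
  rw [rotM, det_rank_two]
  simp only [herm_add_left, herm_smul_left, herm_smul_right, h.ee, h.ff, h.ef, fe, h.cε, h.cε']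
  linear_combination h.det + (A - 1) * (1 + (D - 1) * (ε' * ε')) * h.hε + (D - 1) * A * h.hε'
    - B * C * (ε' * ε') * h.hε - B * C * h.hε'

/-- the rotation `e ↦ A e + C f`, `f ↦ B e + D f` -/
noncomputable def rot {e f : V n} {ε ε' A B C D : ℂ} (h : RotData e f ε ε' A B C D) : SL n :=
  ⟨rotM e f ε ε' A B C D, h.detM⟩

theorem act_rot {e f : V n} {ε ε' A B C D : ℂ} (h : RotData e f ε ε' A B C D) (v : V n) :
    act (rot h) v = v + (ε * herm v e) • ((A - 1) • e + C • f) +
      (ε' * herm v f) • (B • e + (D - 1) • f) := by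
  show rotM e f ε ε' A B C D *ᵥ v = _
  rw [rotM, add_mulVec, one_mulVec, add_mulVec, rk_mulVec, rk_mulVec, herm_smul_right,
    herm_smul_right, h.cε, h.cε', add_assoc]

theorem act_rot_e {e f : V n} {ε ε' A B C D : ℂ} (h : RotData e f ε ε' A B C D) :
    act (rot h) e = A • e + C • f := by
  rw [act_rot, h.ee, h.ef, h.hε, mul_zero, zero_smul, add_zero, one_smul, sub_smul, one_smul]
  abel

theorem act_rot_f {e f : V n} {ε ε' A B C D : ℂ} (h : RotData e f ε ε' A B C D) :
    act (rot h) f = B • e + D • f := by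
  rw [act_rot, h.ff, herm_conj_zero h.ef, h.hε', mul_zero, zero_smul, add_zero, one_smul,
    sub_smul, one_smul]
  abel

theorem act_rot_perp {e f : V n} {ε ε' A B C D : ℂ} (h : RotData e f ε ε' A B C D) {v : V n}
    (h1 : herm v e = 0) (h2 : herm v f = 0) : act (rot h) v = v := by
  rw [act_rot, h1, h2, mul_zero, mul_zero, zero_smul, zero_smul, add_zero, add_zero]

theorem rot_mem_SU {e f : V n} {ε ε' A B C D : ℂ} (h : RotData e f ε ε' A B C D) :
    rot h ∈ SU n := by
  have fe : herm f e = 0 := herm_conj_zero h.ef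
  have hε0 : ε ≠ 0 := by rintro rfl; simpa using h.hε
  have hε'0 : ε' ≠ 0 := by rintro rfl; simpa using h.hε'
  -- decomposition
  have hdec : ∀ v : V n, ∃ (a b : ℂ) (v' : V n), v = a • e + b • f + v' ∧ herm v' e = 0 ∧
      herm v' f = 0 := by
    intro v
    refine ⟨ε * herm v e, ε' * herm v f, v - (ε * herm v e) • e - (ε' * herm v f) • f, by abel,
      ?_, ?_⟩
    · rw [herm_sub_left, herm_sub_left, herm_smul_left, herm_smul_left, h.ee, fe]
      linear_combination (-herm v e) * h.hε
    · rw [herm_sub_left, herm_sub_left, herm_smul_left, herm_smul_left, h.ff, h.ef]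
      linear_combination (-herm v f) * h.hε'
  intro v w
  obtain ⟨a, b, v', rfl, hv1, hv2⟩ := hdec v
  obtain ⟨c, d, w', rfl, hw1, hw2⟩ := hdec w
  have e1 : ∀ (a b : ℂ) (v' : V n), herm v' e = 0 → herm v' f = 0 →
      act (rot h) (a • e + b • f + v') = a • (A • e + C • f) + b • (B • e + D • f) + v' := by
    intro a b v' h1 h2
    rw [act_add, act_add, act_smul, act_smul, act_rot_e, act_rot_f, act_rot_perp h h1 h2]
  rw [e1 a b v' hv1 hv2, e1 c d w' hw1 hw2]
  have o2 : B * conj A * ε + D * conj C * ε' = 0 := by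
    have := congrArg conj h.o1
    simp only [map_add, map_mul, Complex.conj_conj, h.cε, h.cε', map_zero] at this
    linear_combination this
  simp only [herm_add_left, herm_add_right, herm_smul_left, herm_smul_right, hv1, hv2,
    herm_conj_zero hw1, herm_conj_zero hw2, h.ee, h.ff, h.ef, fe]
  linear_combination (a * conj c) * h.n1 + (b * conj d) * h.n2 + (a * conj d) * h.o1 +
    (b * conj c) * o2

theorem rot_mem_picard {E : IntermediateField ℚ ℂ} (hE : ImagQuad E) {e f : V n}
    {ε ε' A B C D : ℂ} (h : RotData e f ε ε' A B C D) (he : IsInt E e) (hf : IsInt E f)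
    (hA : A ∈ intRing E) (hB : B ∈ intRing E) (hC : C ∈ intRing E) (hD : D ∈ intRing E) :
    rot h ∈ Picard E n := by
  have h1 : (1 : ℂ) ∈ intRing E := (intRing E).one_mem
  have hεI : ε ∈ intRing E := by rw [← h.ee]; exact he.herm hE he
  have hε'I : ε' ∈ intRing E := by rw [← h.ff]; exact hf.herm hE hf
  refine mem_picard (rot_mem_SU h) fun v hv => ?_
  rw [act_rot]
  refine (hv.add (IsInt.smul ((intRing E).mul_mem hεI (hv.herm hE he)) ?_)).add
    (IsInt.smul ((intRing E).mul_mem hε'I (hv.herm hE hf)) ?_)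
  · exact (IsInt.smul ((intRing E).sub_mem hA h1) he).add (IsInt.smul hC hf)
  · exact (IsInt.smul hB he).add (IsInt.smul ((intRing E).sub_mem hD h1) hf)

/-! ### The standard basis -/

theorem herm_bv {k : ℕ} (hk : k < n) (v : V n) : herm v (bv n k) = v ⟨k, by omega⟩ := by
  rw [herm, Finset.sum_eq_single (⟨k, by omega⟩ : Fin (n + 1))]
  · have : (⟨k, by omega⟩ : Fin (n + 1)) ≠ Fin.last n := by
      intro h
      have := congrArg Fin.val h
      simp at this
      omega
    simp [sg, bv, this]
  · intro j _ hj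
    have : ¬ ((j : ℕ) = k) := fun h => hj (Fin.ext h)
    simp [bv, this]
  · intro h; exact absurd (Finset.mem_univ _) h

theorem herm_bv_last (v : V n) : herm v (bv n n) = - v (Fin.last n) := by
  rw [herm, Finset.sum_eq_single (Fin.last n)]
  · simp [sg, bv]
  · intro j _ hj
    have : ¬ ((j : ℕ) = n) := fun h => hj (Fin.ext h)
    simp [bv, this]
  · intro h; exact absurd (Finset.mem_univ _) h

theorem bv_bv {j k : ℕ} (hk : k < n) : herm (bv n j) (bv n k) = if k = j then 1 else 0 := by
  rw [herm_bv hk]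
  simp [bv]

theorem bv_last {j : ℕ} (hj : j < n) : herm (bv n j) (bv n n) = 0 := by
  rw [herm_bv_last]
  simp only [bv, Fin.val_last]
  rw [if_neg (by omega)]
  simp

theorem last_last : herm (bv n n) (bv n n) = -1 := by
  rw [herm_bv_last]
  simp [bv]

theorem last_bv {j : ℕ} (hj : j < n) : herm (bv n n) (bv n j) = 0 := herm_conj_zero (bv_last hj)

end Pool.Agent.H70.Hunt
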