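import Pool.Agent.H70.Hunt.Std

/-! # The standard pieces: scalars, torsion, integrality -/

namespace Pool.Agent.H70.Hunt

open Matrix ComplexConjugate Filter Topology Pool.Agent.Q107.Hunt

variable {n : ℕ}

/-- An isometry commuting with two vertical translations (and more) acts by a scalar. -/
theorem scalar_core {Γ : Subgroup (SL n)} {u : SL n} (hu : u ∈ SU n)
    (hc : ∀ γ ∈ Γ, u * γ = γ * u) {p q : V n} (hp0 : p ≠ 0) (hq0 : q ≠ 0) (hpp : herm p p = 0)
    (hqq : herm q q = 0) (hqp : herm q p ≠ 0) {θ θ' : ℂ} (hθ : θ ≠ 0) (hθ' : θ' ≠ 0)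
    (h1 : T p 0 θ hpp (herm_zero_left p) ∈ Γ) (h2 : T q 0 θ' hqq (herm_zero_left q) ∈ Γ) :
    ∃ l : ℂ, l * conj l = 1 ∧ act u p = l • p ∧ act u q = l • q ∧
      ∀ (ζ : V n) (a : ℂ), a ≠ 0 → herm ζ p = 0 → herm ζ q = 0 →
        (∀ (θ : ℂ) h, θ = 0 → T p (a • ζ) θ hpp h ∈ Γ) → act u ζ = l • ζ := by
  have hpq : herm p q ≠ 0 := by rw [← conj_herm]; simpa using hqp
  -- isotropic vectors
  have iso : ∀ (x : V n) (hxx : herm x x = 0) (θ : ℂ), θ ≠ 0 → x ≠ 0 →
      T x 0 θ hxx (herm_zero_left x) ∈ Γ → ∃ l : ℂ, l * conj l = 1 ∧ act u x = l • x := by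
    intro x hxx θ hθ hx0 hm
    have h0 : herm (0 : V n) x = 0 := herm_zero_left x
    have hxx' : herm (act u x) (act u x) = 0 := (act_herm hu x x).trans hxx
    have h0' : herm (act u 0) (act u x) = 0 := by rw [act_zero]; exact herm_zero_left _
    have h0'' : herm (0 : V n) (act u x) = 0 := herm_zero_left _
    have h1 := conj_T hu (θ := θ) hxx h0 hxx' h0'
    rw [conj_eq_of_comm (hc _ hm)] at h1
    have h2 : T (act u x) 0 θ hxx' h0'' = T x 0 θ hxx h0 := by
      rw [h1]
      apply ext_act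
      intro v
      rw [act_T, act_T, act_zero]
    exact vert_eq hθ (act_ne_zero u hx0) hxx hxx' h0 h0'' h2
  obtain ⟨l, hl, hlp⟩ := iso p hpp θ hθ hp0 h1
  obtain ⟨m, hm, hmq⟩ := iso q hqq θ' hθ' hq0 h2
  have hl0 : l ≠ 0 := by rintro rfl; simp at hl
  have hml : m = l := by
    have h1 := act_herm hu q p
    rw [hlp, hmq, herm_smul_left, herm_smul_right] at h1
    have h2 : (m * conj l - 1) * herm q p = 0 := by linear_combination h1
    rcases mul_eq_zero.1 h2 with h3 | h3
    · have h4 : m * conj l = l * conj l := by rw [hl]; exact sub_eq_zero.1 h3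
      exact mul_right_cancel₀ (by simpa using hl0) h4
    · exact absurd h3 hqp
  subst hml
  refine ⟨m, hl, hlp, hmq, ?_⟩
  intro ζ a ha hζp hζq hmem
  have h1 : herm (a • ζ) p = 0 := by rw [herm_smul_left, hζp, mul_zero]
  have hpp' : herm (act u p) (act u p) = 0 := (act_herm hu p p).trans hpp
  have h1' : herm (act u (a • ζ)) (act u p) = 0 := (act_herm hu _ p).trans h1
  have h2 := conj_T hu (θ := 0) hpp h1 hpp' h1'
  rw [conj_eq_of_comm (hc _ (hmem 0 h1 rfl))] at h2
  set ζ' : V n := m⁻¹ • act u (a • ζ) with hζ'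
  have hmζ' : m • ζ' = act u (a • ζ) := by
    rw [hζ', smul_smul, mul_inv_cancel₀ hl0, one_smul]
  have hζ'p : herm ζ' p = 0 := by
    have h3 : herm (m • ζ') (m • p) = 0 := by rw [hmζ', ← hlp]; exact h1'
    rw [herm_smul_left, herm_smul_right] at h3
    rcases mul_eq_zero.1 h3 with h4 | h4
    · exact absurd h4 hl0
    · rcases mul_eq_zero.1 h4 with h5 | h5
      · exact absurd h5 (by simpa using hl0)
      · exact h5
  have hmpp : herm (m • p) (m • p) = 0 := by rw [← hlp]; exact hpp'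
  have hmζp : herm (m • ζ') (m • p) = 0 := by rw [hmζ', ← hlp]; exact h1'
  have h4 : T p ζ' 0 hpp hζ'p = T p (a • ζ) 0 hpp h1 := by
    rw [h2, ← T_unit hm hpp hζ'p hmpp hmζp]
    apply ext_act
    intro v
    rw [act_T, act_T, hmζ', hlp]
  obtain ⟨c, hc'⟩ := heis_eq hpp hqp h1 hζ'p h4
  have h5 : herm ζ' q = 0 := by
    rw [hζ', herm_smul_left]
    have h6 : herm (act u (a • ζ)) (act u q) = 0 := by
      rw [act_herm hu, herm_smul_left, hζq, mul_zero]
    rw [hmq, herm_smul_right] at h6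
    rcases mul_eq_zero.1 h6 with h7 | h7
    · exact absurd h7 (by simpa using hl0)
    · rw [h7, mul_zero]
  rw [hc', herm_add_left, herm_smul_left, herm_smul_left, hζq, mul_zero, zero_add] at h5
  have hc0 : c = 0 := by
    rcases mul_eq_zero.1 h5 with h7 | h7
    · exact h7
    · exact absurd h7 hpq
  rw [hc0, zero_smul, add_zero] at hc'
  have h8 : a • act u ζ = a • (m • ζ) := by
    rw [← act_smul, ← hmζ', hc', smul_comm]
  exact smul_right_injective _ ha h8

/-- transport of a Heisenberg element -/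
theorem moved' {u : SL n} (hu : u ∈ SU n) {l : ℂ} (hl : l * conj l = 1) {p ζ : V n} {θ : ℂ}
    (hup : act u p = l • p) (hpp : herm p p = 0) (h : herm ζ p = 0)
    (h' : herm (conj l • act u ζ) p = 0) :
    u * T p ζ θ hpp h * u⁻¹ = T p (conj l • act u ζ) θ hpp h' := by
  have hpp' : herm (act u p) (act u p) = 0 := (act_herm hu _ _).trans hpp
  have hζ' : herm (act u ζ) (act u p) = 0 := (act_herm hu _ _).trans h
  rw [conj_T hu hpp h hpp' hζ']
  have hlp : herm (l • p) (l • p) = 0 := by rw [← hup]; exact hpp'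
  have e1 : l • (conj l • act u ζ) = act u ζ := by rw [smul_smul, hl, one_smul]
  have hlζ : herm (l • (conj l • act u ζ)) (l • p) = 0 := by rw [e1, ← hup]; exact hζ'
  rw [← T_unit hl hpp h' hlp hlζ]
  apply ext_act
  intro v
  rw [act_T, act_T, e1, hup]

/-- transport of a rotation -/
theorem rot_conj {u : SL n} (hu : u ∈ SU n) {l : ℂ} (hl : l * conj l = 1) {e f e' f' : V n}
    {ε ε' A B C D : ℂ} (h : RotData e f ε ε' A B C D) (h' : RotData e' f' ε ε' A B C D)
    (he : act u e = l • e') (hf : act u f = l • f') : u * rot h * u⁻¹ = rot h' := by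
  apply ext_act
  intro v
  rw [act_mul, act_mul, act_rot, act_rot, act_add, act_add, act_act_inv, act_smul, act_smul,
    act_add, act_add, act_smul, act_smul, act_smul, act_smul, act_inv_herm hu, act_inv_herm hu,
    he, hf, herm_smul_right, herm_smul_right]
  funext i
  simp only [Pi.add_apply, Pi.smul_apply, smul_eq_mul]
  linear_combination (ε * herm v e' * ((A - 1) * e' i + C * f' i) +
    ε' * herm v f' * (B * e' i + (D - 1) * f' i)) * hl

/-- the trace of a product of two rotations -/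
theorem trace_rot_mul {e f e' f' : V n} {ε ε' A B C D : ℂ} {η η' A' B' C' D' : ℂ}
    (h : RotData e f ε ε' A B C D) (h' : RotData e' f' η η' A' B' C' D') :
    (rot h * rot h' : SL n).1.trace = (n + 1) + herm ((A - 1) • e + C • f) (ε • e)
      + herm (B • e + (D - 1) • f) (ε' • f) + herm ((A' - 1) • e' + C' • f') (η • e')
      + herm (B' • e' + (D' - 1) • f') (η' • f')
      + herm ((A' - 1) • e' + C' • f') (ε • e) * herm ((A - 1) • e + C • f) (η • e')
      + herm (B' • e' + (D' - 1) • f') (ε • e) * herm ((A - 1) • e + C • f) (η' • f')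
      + herm ((A' - 1) • e' + C' • f') (ε' • f) * herm (B • e + (D - 1) • f) (η • e')
      + herm (B' • e' + (D' - 1) • f') (ε' • f) * herm (B • e + (D - 1) • f) (η' • f') := by
  have e1 : (rot h * rot h' : SL n).1 = rotM e f ε ε' A B C D * rotM e' f' η η' A' B' C' D' := rfl
  rw [e1, rotM, rotM, mul_add, mul_one, add_mul, one_mul, add_mul, mul_add, mul_add]
  simp only [rk_mul_rk, Matrix.trace_add, Matrix.trace_smul, rk_trace, Matrix.trace_one,
    Fintype.card_fin, smul_eq_mul]
  push_cast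
  ring

/-- an isometry fixing the last basis vector has entries of absolute value at most one -/
theorem entries_le {g : SL n} (hg : g ∈ SU n) (hgn : act g (bv n n) = bv n n)
    (i j : Fin (n + 1)) : ‖g i j‖ ≤ 1 := by
  have hsum : ∀ v : V n, herm v v + 2 * (v (Fin.last n) * conj (v (Fin.last n))) =
      ((∑ k, ‖v k‖ ^ 2 : ℝ) : ℂ) := by
    intro v
    rw [herm, Fin.sum_univ_castSucc, Fin.sum_univ_castSucc]
    push_cast
    have h1 : ∀ k : Fin n, sg n (Fin.castSucc k) = 1 := by
      intro k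
      unfold sg
      rw [if_neg (Fin.castSucc_lt_last k).ne]
    have h2 : sg n (Fin.last n) = -1 := by unfold sg; rw [if_pos rfl]
    simp only [h1, h2, one_mul, Complex.mul_conj, Complex.normSq_eq_norm_sq]
    push_cast
    ring
  have hlast : ∀ v : V n, act g v (Fin.last n) = v (Fin.last n) := by
    intro v
    have h1 := act_herm hg v (bv n n)
    rw [hgn, herm_bv_last, herm_bv_last] at h1
    exact neg_injective h1
  have h1 := hsum (act g (bv n j))
  rw [act_herm hg, hlast, hsum] at h1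
  have h2 : (∑ k, ‖bv n (j : ℕ) k‖ ^ 2 : ℝ) = ∑ k, ‖act g (bv n j) k‖ ^ 2 := by exact_mod_cast h1
  have h3 : (∑ k, ‖bv n (j : ℕ) k‖ ^ 2 : ℝ) = 1 := by
    rw [Finset.sum_eq_single j]
    · simp [bv]
    · intro k _ hk
      have : ¬ ((k : ℕ) = j) := fun h => hk (Fin.ext h)
      simp [bv, this]
    · intro h; exact absurd (Finset.mem_univ _) h
  rw [h3] at h2
  have h4 : ‖act g (bv n j) i‖ ^ 2 ≤ ∑ k, ‖act g (bv n j) k‖ ^ 2 :=
    Finset.single_le_sum (f := fun k => ‖act g (bv n j) k‖ ^ 2) (fun k _ => by positivity)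
      (Finset.mem_univ i)
  rw [← h2, act_bv] at h4
  have h5 : ‖g i j‖ ^ 2 ≤ 1 := h4
  nlinarith [norm_nonneg (g i j)]

theorem compact_box : IsCompact {g : SL n | ∀ i j, ‖g i j‖ ≤ 1} := by
  have hcl : IsClosed {A : Matrix (Fin (n + 1)) (Fin (n + 1)) ℂ | A.det = 1} :=
    isClosed_eq (by fun_prop) continuous_const
  have hemb : Topology.IsClosedEmbedding
      (Subtype.val : {A : Matrix (Fin (n + 1)) (Fin (n + 1)) ℂ // A.det = 1} → _) :=
    hcl.isClosedEmbedding_subtypeVal
  have hbox : IsCompact {A : Matrix (Fin (n + 1)) (Fin (n + 1)) ℂ | ∀ i j, ‖A i j‖ ≤ 1} := by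
    have h1 : IsCompact (Set.univ.pi fun _ : Fin (n + 1) => Set.univ.pi fun _ : Fin (n + 1) =>
        Metric.closedBall (0 : ℂ) 1) :=
      isCompact_univ_pi fun _ => isCompact_univ_pi fun _ => isCompact_closedBall _ _
    have e : ({A : Matrix (Fin (n + 1)) (Fin (n + 1)) ℂ | ∀ i j, ‖A i j‖ ≤ 1} :
        Set (Fin (n + 1) → Fin (n + 1) → ℂ)) =
        (Set.univ.pi fun _ : Fin (n + 1) => Set.univ.pi fun _ : Fin (n + 1) =>
        Metric.closedBall (0 : ℂ) 1) := by
      ext A
      simp only [Set.mem_pi, Set.mem_univ, true_implies, mem_closedBall_zero_iff]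
      exact Iff.rfl
    exact e ▸ h1
  exact hemb.isCompact_preimage hbox

/-- elements of a discrete group fixing the last basis vector have finite order -/
theorem fin_order {Γ : Subgroup (SL n)} (hΓ : DiscreteTopology Γ) {g : SL n} (hg : g ∈ Γ)
    (hgS : g ∈ SU n) (hgn : act g (bv n n) = bv n n) : ∃ m : ℕ, 0 < m ∧ g ^ m = 1 := by
  have hcl : IsClosed (Γ : Set (SL n)) := Subgroup.isClosed_of_discrete
  have hcomp : IsCompact ((Γ : Set (SL n)) ∩ {g : SL n | ∀ i j, ‖g i j‖ ≤ 1}) :=
    compact_box.inter_left hcl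
  have hdisc : DiscreteTopology ↥((Γ : Set (SL n)) ∩ {g : SL n | ∀ i j, ‖g i j‖ ≤ 1}) :=
    DiscreteTopology.of_subset (s := (Γ : Set (SL n))) hΓ Set.inter_subset_left
  have hfin : ((Γ : Set (SL n)) ∩ {g : SL n | ∀ i j, ‖g i j‖ ≤ 1}).Finite :=
    hcomp.finite (isDiscrete_iff_discreteTopology.2 hdisc)
  have hpow : ∀ k : ℕ, g ^ k ∈ ((Γ : Set (SL n)) ∩ {g : SL n | ∀ i j, ‖g i j‖ ≤ 1}) := by
    intro k
    refine ⟨Γ.pow_mem hg k, fun i j => entries_le ((SU n).pow_mem hgS k) ?_ i j⟩
    induction k with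
    | zero => rw [pow_zero, act_one]
    | succ k ih => rw [pow_succ, act_mul, hgn, ih]
  obtain ⟨i, j, hij, h1⟩ := hfin.exists_lt_map_eq_of_forall_mem (f := fun k : ℕ => g ^ k) hpow
  refine ⟨j - i, by omega, ?_⟩
  have h2 : g ^ i = g ^ j := h1
  have h3 : g ^ j = g ^ i * g ^ (j - i) := by rw [← pow_add]; congr 1; omega
  rw [h3] at h2
  exact (mul_eq_left.1 h2.symm)

/-- the trace of an element of finite order is an algebraic integer -/
theorem trace_int {g : SL n} {m : ℕ} (hm : 0 < m) (hg : g ^ m = 1) : IsIntegral ℤ g.1.trace := by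
  rw [Matrix.trace_eq_sum_roots_charpoly]
  refine Multiset.sum_induction (fun z : ℂ => IsIntegral ℤ z) _ (fun a b ha hb => ha.add hb)
    isIntegral_zero fun z hz => ?_
  have hroot : g.1.charpoly.IsRoot z := (Polynomial.mem_roots'.1 hz).2
  have heig : Module.End.HasEigenvalue (Matrix.toLin' g.1) z := by
    rw [Module.End.hasEigenvalue_iff_isRoot_charpoly, Matrix.charpoly_toLin']
    exact hroot
  obtain ⟨v, hv⟩ := heig.exists_hasEigenvector
  have hgv : act g v = z • v := by
    have := hv.apply_eq_smul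
    rwa [Matrix.toLin'_apply] at this
  have hpow : ∀ k : ℕ, act (g ^ k) v = z ^ k • v := by
    intro k
    induction k with
    | zero => rw [pow_zero, act_one, pow_zero, one_smul]
    | succ k ih => rw [pow_succ, act_mul, hgv, act_smul, ih, smul_smul, pow_succ, mul_comm]
  have h1 := hpow m
  rw [hg, act_one] at h1
  have h2 : (z ^ m - 1) • v = 0 := by rw [sub_smul, one_smul, ← h1, sub_self]
  have h3 : z ^ m = 1 := by
    rcases smul_eq_zero.1 h2 with h | h
    · exact sub_eq_zero.1 h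
    · exact absurd h hv.2
  exact IsIntegral.of_pow hm (by rw [h3]; exact isIntegral_one)

/-- a rational algebraic integer is an integer -/
theorem int_of_rat {q : ℚ} (h : IsIntegral ℤ (q : ℂ)) : ∃ k : ℤ, q = k := by
  have h1 : IsIntegral ℤ q := by
    have h2 : (q : ℂ) = algebraMap ℚ ℂ q := by simp
    rw [h2] at h
    exact (isIntegral_algebraMap_iff (algebraMap ℚ ℂ).injective).1 h
  obtain ⟨k, hk⟩ := IsIntegrallyClosed.isIntegral_iff.1 h1
  exact ⟨k, by rw [← hk]; simp⟩

end Pool.Agent.H70.Hunt
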