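import Pool.Agent.H70.Hunt.Std2

/-! # The standard pieces: the possible angles -/

namespace Pool.Agent.H70.Hunt

open Matrix ComplexConjugate Filter Topology Pool.Agent.Q107.Hunt

variable {n : ℕ}

/-- The stabiliser of `e_i`, `i = 0, 1`, in `SU(n,1;𝒪_E)`: a copy of `SU(n-1,1;𝒪_E)`. -/
noncomputable def stdPiece (E : IntermediateField ℚ ℂ) (n : ℕ) (i : Fin 2) : Subgroup (SL n) :=
  Picard E n ⊓ fixer (bv n i)

/-- The common stabiliser of `e_0` and `e_1` in `SU(n,1;𝒪_E)`: a copy of `SU(n-2,1;𝒪_E)`. -/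
noncomputable def stdCore (E : IntermediateField ℚ ℂ) (n : ℕ) : Subgroup (SL n) :=
  Picard E n ⊓ fixer (bv n 0) ⊓ fixer (bv n 1)

theorem stdCore_le (E : IntermediateField ℚ ℂ) (n : ℕ) (i : Fin 2) :
    stdCore E n ≤ stdPiece E n i := by
  intro g hg
  refine ⟨hg.1.1, ?_⟩
  revert i
  rw [Fin.forall_fin_two]
  exact ⟨hg.1.2, hg.2⟩

/-- an integral purely imaginary generator -/
theorem exists_int_delta {E : IntermediateField ℚ ℂ} (hE : ImagQuad E) :
    ∃ δ ∈ intRing E, δ ≠ 0 ∧ conj δ = -δ := by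
  obtain ⟨δ, hδE, hδ0, hδ, -⟩ := hE.exists_delta
  have hfin : FiniteDimensional ℚ E := Module.finite_of_finrank_pos (by rw [hE.1]; norm_num)
  have halg : IsAlgebraic ℤ δ := by
    have h2 : IsAlgebraic ℚ (⟨δ, hδE⟩ : E) := Algebra.IsAlgebraic.isAlgebraic _
    have h3 : IsAlgebraic ℚ δ := h2.algebraMap
    exact (IsFractionRing.isAlgebraic_iff ℤ ℚ ℂ).2 h3
  obtain ⟨m, hm, hint⟩ := halg.exists_integral_multiple
  refine ⟨m • δ, ?_, ?_, ?_⟩
  · rw [mem_intRing]
    exact ⟨E.zsmul_mem hδE m, hint⟩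
  · rw [zsmul_eq_mul]
    exact mul_ne_zero (by exact_mod_cast hm) hδ0
  · rw [zsmul_eq_mul, map_mul, hδ, map_intCast]
    ring

/-- a real number is determined by an integer equation -/
theorem quad_integral {a : ℂ} {e : ℤ} (h : a * a - e * a + 2 = 0) : IsIntegral ℤ a := by
  refine ⟨Polynomial.X ^ 2 + (Polynomial.C (-e) * Polynomial.X + Polynomial.C 2), ?_, ?_⟩
  · exact Polynomial.monic_X_pow_add
      (lt_of_le_of_lt Polynomial.degree_linear_le (by norm_num))
  · simp only [Polynomial.eval₂_add, Polynomial.eval₂_pow, Polynomial.eval₂_X,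
      Polynomial.eval₂_mul, Polynomial.eval₂_C]
    simp only [algebraMap_int_eq, eq_intCast, Int.cast_neg, Int.cast_ofNat]
    linear_combination h

/-- **The possible angle parameters of discrete hybrids of the standard pieces.** -/
theorem std_cases {E : IntermediateField ℚ ℂ} (hE : ImagQuad E) (hn : 3 ≤ n)
    {K : Subgroup (SL n)} (hK : DiscreteTopology K) {u : SL n} (hu : u ∈ SU n) {l : ℂ}
    (hl : l * conj l = 1)
    (hul : ∀ w : V n, herm w (bv n 0) = 0 → herm w (bv n 1) = 0 → act u w = l • w)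
    (hK0 : ∀ γ ∈ Picard E n, act γ (bv n 0) = bv n 0 → γ ∈ K)
    (hK1 : ∀ γ ∈ Picard E n, act γ (bv n 1) = bv n 1 → u * γ * u⁻¹ ∈ K) :
    herm (bv n 1) (conj l • act u (bv n 0)) = 0 ∨
      ‖herm (bv n 1) (conj l • act u (bv n 0))‖ = 1 := by
  have h0n : 0 < n := by omega
  have h1n : 1 < n := by omega
  have h2n : 2 < n := by omega
  have hl0 : l ≠ 0 := by rintro rfl; simp at hl
  have hcl : conj l * l = 1 := by rw [mul_comm]; exact hl
  -- basic pairings
  have e00 : herm (bv n 0) (bv n 0) = 1 := by rw [bv_bv h0n]; simp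
  have e11 : herm (bv n 1) (bv n 1) = 1 := by rw [bv_bv h1n]; simp
  have e22 : herm (bv n 2) (bv n 2) = 1 := by rw [bv_bv h2n]; simp
  have e10 : herm (bv n 1) (bv n 0) = 0 := by rw [bv_bv h0n]; simp
  have e01 : herm (bv n 0) (bv n 1) = 0 := herm_conj_zero e10
  have e20 : herm (bv n 2) (bv n 0) = 0 := by rw [bv_bv h0n]; simp
  have e02 : herm (bv n 0) (bv n 2) = 0 := herm_conj_zero e20
  have e21 : herm (bv n 2) (bv n 1) = 0 := by rw [bv_bv h1n]; simp
  have e12 : herm (bv n 1) (bv n 2) = 0 := herm_conj_zero e21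
  have en0 : herm (bv n n) (bv n 0) = 0 := last_bv h0n
  have e0n : herm (bv n 0) (bv n n) = 0 := bv_last h0n
  have en1 : herm (bv n n) (bv n 1) = 0 := last_bv h1n
  have e1n : herm (bv n 1) (bv n n) = 0 := bv_last h1n
  have en2 : herm (bv n n) (bv n 2) = 0 := last_bv h2n
  have e2n : herm (bv n 2) (bv n n) = 0 := bv_last h2n
  have enn : herm (bv n n) (bv n n) = -1 := last_last
  set e0 := bv n 0 with he0
  set e1 := bv n 1 with he1
  set e2 := bv n 2 with he2
  set en := bv n n with hen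
  have ie0 : IsInt E e0 := IsInt.bv E 0
  have ie1 : IsInt E e1 := IsInt.bv E 1
  have ie2 : IsInt E e2 := IsInt.bv E 2
  have ien : IsInt E en := IsInt.bv E n
  have hO1 : (1 : ℂ) ∈ intRing E := (intRing E).one_mem
  have hO0 : (0 : ℂ) ∈ intRing E := (intRing E).zero_mem
  have hOm : (-1 : ℂ) ∈ intRing E := (intRing E).neg_mem hO1
  have hO2 : (2 : ℂ) ∈ intRing E := by
    have h := (intRing E).add_mem hO1 hO1
    have e : (1 : ℂ) + 1 = 2 := by norm_num
    rwa [e] at h
  clear_value e0 e1 e2 en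
  -- the cusp
  set p : V n := e2 + en with hp
  have hpp : herm p p = 0 := by
    rw [hp, herm_add_left, herm_add_right, herm_add_right, e22, e2n, en2, enn]; ring
  have ip : IsInt E p := ie2.add ien
  have hp0 : p ≠ 0 := by
    intro h
    have h1 : herm p e2 = 1 := by rw [hp, herm_add_left, e22, en2, add_zero]
    rw [h, herm_zero_left] at h1
    exact zero_ne_one h1
  have e0p : herm e0 p = 0 := by rw [hp, herm_add_right, e02, e0n, add_zero]
  have e1p : herm e1 p = 0 := by rw [hp, herm_add_right, e12, e1n, add_zero]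
  have hup : act u p = l • p := hul p (by rw [hp, herm_add_left, e20, en0, add_zero])
    (by rw [hp, herm_add_left, e21, en1, add_zero])
  have hu2 : act u e2 = l • e2 := hul e2 e20 e21
  have hun : act u en = l • en := hul en en0 en1
  -- the normalised image of `e0`
  set f : V n := conj l • act u e0 with hf
  clear_value f
  have hlf : act u e0 = l • f := by rw [hf, smul_smul, hl, one_smul]
  have hff : herm f f = 1 := by
    rw [hf, herm_smul_left, herm_smul_right, act_herm hu, e00, Complex.conj_conj]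
    linear_combination hl
  have fperp : ∀ w : V n, act u w = l • w → herm e0 w = 0 → herm f w = 0 := by
    intro w hw h0
    have h1 : w = conj l • act u w := by rw [hw, smul_smul, hcl, one_smul]
    rw [h1, hf, herm_smul_left, herm_smul_right, act_herm hu, h0]
    ring
  have f2 : herm f e2 = 0 := fperp e2 hu2 e02
  have fn : herm f en = 0 := fperp en hun e0n
  have fp : herm f p = 0 := fperp p hup e0p
  have tf : herm e2 f = 0 := herm_conj_zero f2
  have nf : herm en f = 0 := herm_conj_zero fn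
  set z : ℂ := herm e1 f with hz
  have hfz : herm f e1 = conj z := by rw [hz, conj_herm]
  -- Heisenberg elements of the two pieces
  have heis0 : ∀ (c θ : ℂ) (h : herm (c • e1) p = 0), c ∈ intRing E → conj θ = -θ →
      θ - c * conj c / 2 ∈ intRing E → T p (c • e1) θ hpp h ∈ K := by
    intro c θ h hc hθ hk
    refine hK0 _ (T_mem_picard hE hpp h hθ ip (ie1.smul hc) ?_) ?_
    · rw [kap, herm_smul_left, herm_smul_right, e11]
      convert hk using 1
      ring
    · rw [act_T, e0p, herm_smul_right, e01, mul_zero, mul_zero, sub_zero, zero_smul, zero_smul,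
        add_zero, add_zero]
  have heis1 : ∀ (c θ : ℂ) (h : herm (c • f) p = 0), c ∈ intRing E → conj θ = -θ →
      θ - c * conj c / 2 ∈ intRing E → T p (c • f) θ hpp h ∈ K := by
    intro c θ h hc hθ hk
    have h' : herm (c • e0) p = 0 := by rw [herm_smul_left, e0p, mul_zero]
    have h1 : T p (c • e0) θ hpp h' ∈ Picard E n := by
      refine T_mem_picard hE hpp h' hθ ip (ie0.smul hc) ?_
      rw [kap, herm_smul_left, herm_smul_right, e00]
      convert hk using 1
      ring
    have h2 := hK1 _ h1 (by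
      rw [act_T, e1p, herm_smul_right, e10, mul_zero, mul_zero, sub_zero, zero_smul, zero_smul,
        add_zero, add_zero])
    have e3 : conj l • act u (c • e0) = c • f := by rw [act_smul, smul_comm, ← hf]
    have h3 : herm (conj l • act u (c • e0)) p = 0 := by rw [e3]; exact h
    rw [moved' hu hl hup hpp h' h3] at h2
    have e4 : T p (conj l • act u (c • e0)) θ hpp h3 = T p (c • f) θ hpp h := by
      apply ext_act
      intro v
      rw [act_T, act_T, e3]
    rwa [e4] at h2
  have hvert : ∀ θ : ℂ, θ ∈ intRing E → conj θ = -θ → T p 0 θ hpp (herm_zero_left p) ∈ K := by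
    intro θ hθI hθ
    refine hK0 _ (T_mem_picard hE hpp _ hθ ip (fun i => hO0) ?_) ?_
    · simpa [kap] using hθI
    · rw [act_vert, e0p, mul_zero, zero_smul, add_zero]
  -- step 1: rationality
  obtain ⟨δ, hδI, hδ0, hδ⟩ := exists_int_delta hE
  have hδE : δ ∈ E := (mem_intRing.1 hδI).1
  have k0 : herm (0 : V n) p = 0 := herm_zero_left p
  have c1 : herm ((2 : ℂ) • e1) p = 0 := by rw [herm_smul_left, e1p, mul_zero]
  have c2 : herm ((2 * δ) • e1) p = 0 := by rw [herm_smul_left, e1p, mul_zero]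
  have c3 : herm ((2 : ℂ) • f) p = 0 := by rw [herm_smul_left, fp, mul_zero]
  have m1 := heis0 2 0 c1 hO2 (by simp) (by
    convert (intRing E).neg_mem hO2 using 1
    rw [Complex.conj_ofNat]; ring)
  have m2 := heis0 (2 * δ) 0 c2 ((intRing E).mul_mem hO2 hδI) (by simp) (by
    convert (intRing E).mul_mem hO2 ((intRing E).mul_mem hδI hδI) using 1
    rw [map_mul, Complex.conj_ofNat, hδ]; ring)
  have m3 := heis1 2 0 c3 hO2 (by simp) (by
    convert (intRing E).neg_mem hO2 using 1
    rw [Complex.conj_ofNat]; ring)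
  have q1 := T_comm_mem hpp c1 c3 k0 m1 m3
  have q2 := T_comm_mem hpp c2 c3 k0 m2 m3
  have b1 : herm ((2 : ℂ) • e1) ((2 : ℂ) • f) - herm ((2 : ℂ) • f) ((2 : ℂ) • e1) =
      4 * (z - conj z) := by
    rw [herm_smul_left, herm_smul_right, herm_smul_left, herm_smul_right, hfz, ← hz,
      Complex.conj_ofNat]
    ring
  have b2 : herm ((2 * δ) • e1) ((2 : ℂ) • f) - herm ((2 : ℂ) • f) ((2 * δ) • e1) =
      4 * (z + conj z) * δ := by
    rw [herm_smul_left, herm_smul_right, herm_smul_left, herm_smul_right, hfz, ← hz,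
      map_mul, Complex.conj_ofNat, hδ]
    ring
  rw [b1] at q1
  rw [b2] at q2
  obtain ⟨r, hr⟩ := disc_ratio hK hp0 hpp k0 hδ (by
    rw [map_mul, map_sub, Complex.conj_conj, Complex.conj_ofNat]; ring) hδ0 (hvert δ hδI hδ) q1
  obtain ⟨r', hr'⟩ := disc_ratio hK hp0 hpp k0 hδ (by
    rw [map_mul, map_mul, map_add, Complex.conj_conj, Complex.conj_ofNat, hδ]; ring) hδ0
    (hvert δ hδI hδ) q2
  have hr'' : 4 * (z + conj z) = r' := mul_right_cancel₀ hδ0 hr'
  have hzE : z ∈ E := by
    have h1 : z = ((r' : ℂ) + r * δ) / 8 := by linear_combination (1/8 : ℂ) * hr'' + (1/8 : ℂ) * hr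
    rw [h1]
    have h8 : (8 : ℂ) ∈ E := by
      have := rat_mem E 8
      rwa [Rat.cast_ofNat] at this
    exact E.div_mem (E.add_mem (rat_mem E r') (E.mul_mem (rat_mem E r) hδE)) h8
  have hzz : conj (z * conj z) = z * conj z := by rw [map_mul, Complex.conj_conj]; ring
  obtain ⟨c, hc⟩ := hE.rat_of_real (E.mul_mem hzE (hE.conj_mem hzE)) hzz
  -- step 2: the elements of finite order
  have D1 : RotData e2 e1 1 1 0 (-1) 1 0 := by
    constructor <;> first | exact e22 | exact e11 | exact e21 | simp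
  have D0 : RotData e2 e0 1 1 0 (-1) 1 0 := by
    constructor <;> first | exact e22 | exact e00 | exact e20 | simp
  have D0' : RotData e2 e0 1 1 0 1 (-1) 0 := by
    constructor <;> first | exact e22 | exact e00 | exact e20 | simp
  have Df : RotData e2 f 1 1 0 (-1) 1 0 := by
    constructor <;> first | exact e22 | exact hff | exact tf | simp
  have Df' : RotData e2 f 1 1 0 1 (-1) 0 := by
    constructor <;> first | exact e22 | exact hff | exact tf | simp
  have R1K : rot D1 ∈ K := hK0 _ (rot_mem_picard hE D1 ie2 ie1 hO0 hOm hO1 hO0)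
    (act_rot_perp D1 e02 e01)
  have RfK : rot Df ∈ K := by
    rw [← rot_conj hu hl D0 Df hu2 hlf]
    exact hK1 _ (rot_mem_picard hE D0 ie2 ie0 hO0 hOm hO1 hO0) (act_rot_perp D0 e12 e10)
  have RfK' : rot Df' ∈ K := by
    rw [← rot_conj hu hl D0' Df' hu2 hlf]
    exact hK1 _ (rot_mem_picard hE D0' ie2 ie0 hO0 hO1 hOm hO0) (act_rot_perp D0' e12 e10)
  have hint : ∀ (q : ℚ) (g : SL n), g ∈ K → g ∈ SU n → act g (bv n n) = bv n n →
      g.1.trace = ((n : ℂ) - 3) + q → ∃ k : ℤ, q = k := by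
    intro q g hgK hgS hgn htr
    obtain ⟨m, hm, hgm⟩ := fin_order hK hgK hgS hgn
    have h1 := trace_int hm hgm
    rw [htr] at h1
    have h2 : IsIntegral ℤ (q : ℂ) := by
      have h3 : (q : ℂ) = ((n : ℂ) - 3 + q) - (((n : ℤ) - 3 : ℤ) : ℂ) := by push_cast; ring
      rw [h3]
      exact h1.sub (isIntegral_algebraMap (R := ℤ) (x := ((n : ℤ) - 3)))
    exact int_of_rat h2
  have hfix : ∀ {e f : V n} {ε ε' A B C D : ℂ} (h : RotData e f ε ε' A B C D),
      herm en e = 0 → herm en f = 0 → act (rot h) (bv n n) = bv n n := by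
    intro e f ε ε' A B C D h h1 h2
    rw [← hen]
    exact act_rot_perp h h1 h2
  obtain ⟨A, hA⟩ := hint (1 - r' / 4 + c) (rot D1 * rot Df) (K.mul_mem R1K RfK)
    ((SU n).mul_mem (rot_mem_SU D1) (rot_mem_SU Df))
    (by rw [act_mul, hfix Df en2 nf, hfix D1 en2 en1])
    (by
      rw [trace_rot_mul D1 Df]
      simp only [herm_add_left, herm_smul_left, herm_smul_right, e22, e11, e21, e12, hff, f2,
        tf, hfz, ← hz, map_one]
      push_cast
      rw [← hr'', ← hc]
      ring)
  obtain ⟨B, hB⟩ := hint (1 + r' / 4 + c) (rot D1 * rot Df') (K.mul_mem R1K RfK')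
    ((SU n).mul_mem (rot_mem_SU D1) (rot_mem_SU Df'))
    (by rw [act_mul, hfix Df' en2 nf, hfix D1 en2 en1])
    (by
      rw [trace_rot_mul D1 Df']
      simp only [herm_add_left, herm_smul_left, herm_smul_right, e22, e11, e21, e12, hff, f2,
        tf, hfz, ← hz, map_one]
      push_cast
      rw [← hr'', ← hc]
      ring)
  -- step 3: the cases
  have hcn : (c : ℝ) = ‖z‖ ^ 2 := by
    have h1 : ((‖z‖ ^ 2 : ℝ) : ℂ) = (c : ℂ) := by
      rw [← hc, Complex.mul_conj, Complex.normSq_eq_norm_sq]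
    have h2 : ((‖z‖ ^ 2 : ℝ) : ℂ) = ((c : ℝ) : ℂ) := by rw [h1]; norm_cast
    exact (Complex.ofReal_injective h2).symm
  have hcle : ‖z‖ ^ 2 ≤ 1 := by
    have h1 := cs_perp hp0 hpp e1p fp
    rw [e11, hff] at h1
    simpa using h1
  by_cases hone : ‖z‖ = 1
  · exact Or.inr hone
  left
  have hlt : ‖z‖ ^ 2 < 1 := by
    rcases lt_or_eq_of_le hcle with h | h
    · exact h
    · exfalso
      apply hone
      nlinarith [norm_nonneg z]
  have hc0 : (0 : ℚ) ≤ c := by
    have : (0 : ℝ) ≤ c := by rw [hcn]; positivity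
    exact_mod_cast this
  have hc1 : c < 1 := by
    have : (c : ℝ) < 1 := by rw [hcn]; exact hlt
    exact_mod_cast this
  have hAB : ((A + B : ℤ) : ℚ) = 2 + 2 * c := by push_cast; rw [← hA, ← hB]; ring
  have h2le : 2 ≤ A + B := by
    have : ((2 : ℤ) : ℚ) ≤ ((A + B : ℤ) : ℚ) := by rw [hAB]; push_cast; linarith
    exact_mod_cast this
  have h4lt : A + B < 4 := by
    have : ((A + B : ℤ) : ℚ) < ((4 : ℤ) : ℚ) := by rw [hAB]; push_cast; linarith
    exact_mod_cast this
  have h23 : A + B = 2 ∨ A + B = 3 := by omega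
  rcases h23 with hs | hs
  · rw [hs] at hAB
    have hcz : c = 0 := by push_cast at hAB; linarith
    rw [hcz] at hcn
    have : ‖z‖ = 0 := by
      have h5 : ‖z‖ ^ 2 = 0 := by rw [← hcn]; simp
      exact (pow_eq_zero_iff two_ne_zero).1 h5
    exact norm_eq_zero.1 this
  exfalso
  rw [hs] at hAB
  have hch : c = 1 / 2 := by push_cast at hAB; linarith
  -- A, B are the squared norms of 1 - z and 1 + z
  have hre : z + conj z = ((2 * z.re : ℝ) : ℂ) := by rw [Complex.add_conj]
  have hrr : (r' : ℝ) / 4 = 2 * z.re := by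
    have h1 : ((2 * z.re : ℝ) : ℂ) = ((r' / 4 : ℝ) : ℂ) := by
      rw [← hre]; push_cast
      linear_combination (1/4 : ℂ) * hr''
    exact (Complex.ofReal_injective h1).symm
  have hzsq : ‖z‖ ^ 2 = z.re ^ 2 + z.im ^ 2 := by
    rw [← Complex.normSq_eq_norm_sq, Complex.normSq_apply]; ring
  have hA' : (A : ℝ) = (1 - z.re) ^ 2 + z.im ^ 2 := by
    have h1 : ((A : ℚ) : ℝ) = ((1 - r' / 4 + c : ℚ) : ℝ) := by rw [hA]
    push_cast at h1
    rw [h1, hcn, hzsq, hrr]; ring
  have hB' : (B : ℝ) = (1 + z.re) ^ 2 + z.im ^ 2 := by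
    have h1 : ((B : ℚ) : ℝ) = ((1 + r' / 4 + c : ℚ) : ℝ) := by rw [hB]
    push_cast at h1
    rw [h1, hcn, hzsq, hrr]; ring
  have hhalf : z.re ^ 2 + z.im ^ 2 = 1 / 2 := by
    rw [← hzsq, ← hcn, hch]; norm_num
  have hA1 : 1 ≤ A := by
    have : (0 : ℝ) < A := by
      rw [hA']
      nlinarith [sq_nonneg (z.re - 3 / 4), sq_nonneg z.im]
    have : (0 : ℤ) < A := by exact_mod_cast this
    omega
  have hB1 : 1 ≤ B := by
    have : (0 : ℝ) < B := by
      rw [hB']
      nlinarith [sq_nonneg (z.re + 3 / 4), sq_nonneg z.im]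
    have : (0 : ℤ) < B := by exact_mod_cast this
    omega
  obtain ⟨ε, hε, hεz⟩ : ∃ ε : ℤ, (ε = 1 ∨ ε = -1) ∧ 2 * z + 2 * conj z = ε := by
    have hBA : (B : ℝ) - A = 4 * z.re := by rw [hA', hB']; ring
    have h5 : A = 1 ∧ B = 2 ∨ A = 2 ∧ B = 1 := by omega
    have h6 : 2 * z + 2 * conj z = (((B : ℝ) - A : ℝ) : ℂ) := by
      rw [hBA]
      have : 2 * z + 2 * conj z = 2 * (z + conj z) := by ring
      rw [this, hre]; push_cast; ring
    rcases h5 with ⟨hA2, hB2⟩ | ⟨hA2, hB2⟩
    · refine ⟨1, Or.inl rfl, ?_⟩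
      rw [h6, hA2, hB2]; norm_num
    · refine ⟨-1, Or.inr rfl, ?_⟩
      rw [h6, hA2, hB2]; norm_num
  set a : ℂ := 2 * z with ha
  have hca : conj a = 2 * conj z := by rw [ha, map_mul, Complex.conj_ofNat]
  have haa : a * conj a = 2 := by
    rw [hca, ha]
    have : 2 * z * (2 * conj z) = 4 * (z * conj z) := by ring
    rw [this, hc, hch]; push_cast; norm_num
  have hsum : a + conj a = ε := by rw [hca]; exact hεz
  have haI : a ∈ intRing E := by
    rw [mem_intRing]
    refine ⟨?_, quad_integral (e := ε) ?_⟩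
    · have := rat_mem E 2
      rw [Rat.cast_ofNat] at this
      exact E.mul_mem this hzE
    · rw [← hsum]
      linear_combination -haa
  have haI' : conj a ∈ intRing E := intRing_conj hE haI
  -- the short vertical translation
  set θ : ℂ := (a - conj a) / 2 with hθ
  have hθc : conj θ = -θ := by
    rw [hθ, map_div₀, map_sub, Complex.conj_conj, Complex.conj_ofNat]; ring
  have hθI : θ - 1 / 2 ∈ intRing E := by
    rcases hε with rfl | rfl
    · have : θ - 1 / 2 = a - 1 := by
        rw [hθ]; push_cast at hsum; linear_combination (-1/2 : ℂ) * hsum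
      rw [this]
      exact (intRing E).sub_mem haI hO1
    · have : θ - 1 / 2 = a := by
        rw [hθ]; push_cast at hsum; linear_combination (-1/2 : ℂ) * hsum
      rw [this]
      exact haI
  have c4 : herm ((1 : ℂ) • e1) p = 0 := by rw [one_smul, e1p]
  have c5 : herm ((1 : ℂ) • f) p = 0 := by rw [one_smul, fp]
  have m4 := heis0 1 θ c4 hO1 hθc (by simpa using hθI)
  have m5 := heis1 1 θ c5 hO1 hθc (by simpa using hθI)
  have q3 := T_comm_mem hpp c4 c5 k0 m4 m5
  have b3 : herm ((1 : ℂ) • e1) ((1 : ℂ) • f) - herm ((1 : ℂ) • f) ((1 : ℂ) • e1) =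
      ((2 * z.im : ℝ) : ℂ) * Complex.I := by
    rw [one_smul, one_smul, ← hz, hfz, Complex.sub_conj]
  rw [b3] at q3
  -- the rotation in the plane of `e2` and `en`
  have DM : RotData e2 en 1 (-1) (conj a) 1 1 a := by
    refine ⟨e22, enn, e2n, by simp, by simp, by simp, by simp, ?_, ?_, ?_, ?_⟩
    · linear_combination haa
    · rw [Complex.conj_conj, map_one]; linear_combination haa
    · rw [map_one]; linear_combination -haa
    · rw [map_one]; ring
  have MK : rot DM ∈ K := hK0 _ (rot_mem_picard hE DM ie2 ien haI' hO1 hO1 haI)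
    (act_rot_perp DM e02 e0n)
  have hGK : rot DM * rot D1 ∈ K := K.mul_mem MK R1K
  have hGS : rot DM * rot D1 ∈ SU n := (SU n).mul_mem (rot_mem_SU DM) (rot_mem_SU D1)
  set x : V n := act (rot DM * rot D1) p with hx
  set y : V n := act (rot Df) p with hy
  have hxe : x = e1 + (e2 + a • en) := by
    rw [hx, act_mul, hp, act_add, act_rot_e, act_rot_perp D1 en2 en1, zero_smul, zero_add,
      one_smul, act_add, act_rot_perp DM e12 e1n, act_rot_f, one_smul]
  have hye : y = f + en := by
    rw [hy, hp, act_add, act_rot_e, act_rot_perp Df en2 nf, zero_smul, zero_add, one_smul]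
  have hxx : herm x x = 0 := (act_herm hGS p p).trans hpp
  have hyy : herm y y = 0 := (act_herm (rot_mem_SU Df) p p).trans hpp
  have hyx : herm y x = - conj z := by
    rw [hye, hxe]
    simp only [herm_add_left, herm_add_right, herm_smul_right, hfz, f2, fn, en1, en2, enn]
    rw [hca]; ring
  have hz0 : z ≠ 0 := by
    intro h
    rw [h] at hhalf
    norm_num at hhalf
  have hconjT : ∀ (g : SL n) (hg : g ∈ K) (hgS : g ∈ SU n) (h1 : herm (act g p) (act g p) = 0),
      T (act g p) 0 (((2 * z.im : ℝ) : ℂ) * Complex.I) h1 (herm_zero_left _) ∈ K := by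
    intro g hg hgS h1
    have h2 := conj_T hgS (θ := ((2 * z.im : ℝ) : ℂ) * Complex.I) hpp k0 h1
      (by rw [act_zero]; exact herm_zero_left _)
    have h3 := K.mul_mem (K.mul_mem hg q3) (K.inv_mem hg)
    rw [h2] at h3
    have e4 : T (act g p) (act g 0) (((2 * z.im : ℝ) : ℂ) * Complex.I) h1
        (by rw [act_zero]; exact herm_zero_left _) =
        T (act g p) 0 (((2 * z.im : ℝ) : ℂ) * Complex.I) h1 (herm_zero_left _) := by
      apply ext_act
      intro v
      rw [act_T, act_T, act_zero]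
    rwa [e4] at h3
  have hre2 : z.re ^ 2 = 1 / 16 := by
    have h5 : (4 * z.re) = ε := by
      have h6 : ((4 * z.re : ℝ) : ℂ) = ((ε : ℝ) : ℂ) := by
        have h7 : 2 * z + 2 * conj z = 2 * (z + conj z) := by ring
        rw [h7, hre] at hεz
        push_cast at hεz ⊢
        linear_combination hεz
      exact Complex.ofReal_injective h6
    rcases hε with rfl | rfl
    · push_cast at h5; nlinarith
    · push_cast at h5; nlinarith
  have him2 : z.im ^ 2 = 7 / 16 := by linarith
  have him0 : (2 * z.im) ≠ 0 := by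
    intro h
    have : z.im = 0 := by linarith
    rw [this] at him2
    norm_num at him2
  have hsh := shimizu hK hxx hyy (by rw [hyx]; simpa using hz0) (herm_zero_left x)
    (herm_zero_left y) him0 him0 (hconjT _ hGK hGS hxx) (hconjT _ RfK (rot_mem_SU Df) hyy)
  rw [hyx, norm_neg, RCLike.norm_conj, hzsq, hhalf] at hsh
  have h8 : |2 * z.im| * (|2 * z.im| * (1 / 2)) = 7 / 8 := by
    have : |2 * z.im| * |2 * z.im| = (2 * z.im) * (2 * z.im) := abs_mul_abs_self _
    nlinarith
  rw [h8] at hsh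
  norm_num at hsh

end Pool.Agent.H70.Hunt
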