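import Pool.Agent.H70.Hunt.Std3

/-! # The standard pieces: rigidity -/

namespace Pool.Agent.H70.Hunt

open Matrix ComplexConjugate Filter Topology Pool.Agent.Q107.Hunt Monoid

variable {n : ℕ}

theorem act_sum (g : SL n) {ι : Type*} (s : Finset ι) (f : ι → V n) :
    act g (∑ i ∈ s, f i) = ∑ i ∈ s, act g (f i) := by
  induction s using Finset.cons_induction with
  | empty => rw [Finset.sum_empty, Finset.sum_empty, act_zero]
  | cons a s ha ih => rw [Finset.sum_cons, Finset.sum_cons, act_add, ih]

/-- an isometry acting by a scalar on `m^⊥` commutes with the isometries fixing `m` -/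
theorem comm_fix {m : V n} (hm : herm m m ≠ 0) {v : SL n} (hv : v ∈ SU n) {c : ℂ}
    (hc : ∀ w, herm w m = 0 → act v w = c • w) {γ : SL n} (hγ : γ ∈ SU n) (hγm : act γ m = m) :
    v * γ = γ * v := by
  have hdec : ∀ x : V n, herm (x - (herm x m / herm m m) • m) m = 0 := by
    intro x
    rw [herm_sub_left, herm_smul_left, div_mul_cancel₀ _ hm, sub_self]
  have hx : ∀ x : V n, x = (x - (herm x m / herm m m) • m) + (herm x m / herm m m) • m := by
    intro x; abel
  have hvm : ∀ w, herm w m = 0 → herm w (act v m) = 0 := by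
    intro w hw
    have h1 : herm (act v w) (act v m) = 0 := by rw [act_herm hv, hw]
    rw [hc w hw, herm_smul_left] at h1
    rcases mul_eq_zero.1 h1 with h2 | h2
    · have h3 : act v w = 0 := by rw [hc w hw, h2, zero_smul]
      have h4 : w = 0 := by rw [← act_inv_act v w, h3, act_zero]
      rw [h4, herm_zero_left]
    · exact h2
  obtain ⟨b, hb⟩ : ∃ b : ℂ, act v m = b • m := by
    refine ⟨herm (act v m) m / herm m m, sub_eq_zero.1 (herm_nondeg fun x => ?_)⟩
    set d := act v m - (herm (act v m) m / herm m m) • m with hd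
    have h1 : herm d m = 0 := hdec _
    have h2 : ∀ w, herm w m = 0 → herm d w = 0 := by
      intro w hw
      apply herm_conj_zero
      rw [hd, herm_sub_right, herm_smul_right, hvm w hw, hw, mul_zero, sub_zero]
    rw [hx x, herm_add_right, herm_smul_right, h1, mul_zero, add_zero]
    exact h2 _ (hdec x)
  have hγp : ∀ w, herm w m = 0 → herm (act γ w) m = 0 := by
    intro w hw
    rw [← hγm, act_herm hγ, hw]
  apply ext_act
  intro x
  rw [act_mul, act_mul, hx x, act_add, act_add, act_add, act_add, act_smul, act_smul, act_smul,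
    act_smul, hγm, hb, act_smul, hγm, hc _ (hγp _ (hdec x)), hc _ (hdec x), act_smul]

/-- vectors orthogonal to `{e_0, e_1}^⊥` -/
theorem eq_of_perp (hn : 1 < n) {d : V n}
    (h : ∀ w : V n, herm w (bv n 0) = 0 → herm w (bv n 1) = 0 → herm d w = 0) :
    d = herm d (bv n 0) • bv n 0 + herm d (bv n 1) • bv n 1 := by
  have h0n : 0 < n := by omega
  have e00 : herm (bv n 0) (bv n 0) = 1 := by rw [bv_bv h0n]; simp
  have e11 : herm (bv n 1) (bv n 1) = 1 := by rw [bv_bv hn]; simp
  have e10 : herm (bv n 1) (bv n 0) = 0 := by rw [bv_bv h0n]; simp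
  have e01 : herm (bv n 0) (bv n 1) = 0 := herm_conj_zero e10
  set e0 := bv n 0
  set e1 := bv n 1
  clear_value e0 e1
  apply sub_eq_zero.1
  refine herm_nondeg fun x => ?_
  have hx : x = (x - (herm x e0 • e0 + herm x e1 • e1)) + (herm x e0 • e0 + herm x e1 • e1) := by
    abel
  set x' := x - (herm x e0 • e0 + herm x e1 • e1) with hx'
  have h1 : herm x' e0 = 0 := by
    rw [hx', herm_sub_left, herm_add_left, herm_smul_left, herm_smul_left, e00, e10]; ring
  have h2 : herm x' e1 = 0 := by
    rw [hx', herm_sub_left, herm_add_left, herm_smul_left, herm_smul_left, e11, e01]; ring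
  rw [hx]
  rw [herm_sub_left, herm_add_right, herm_add_left, herm_add_right (herm d e0 • e0),
    herm_add_right (herm d e1 • e1), herm_add_right, herm_add_right, herm_add_right, h x' h1 h2]
  simp only [herm_smul_left, herm_smul_right, herm_conj_zero h1, herm_conj_zero h2, e00, e11, e01,
    e10]
  ring

theorem T_mem_core {E : IntermediateField ℚ ℂ} (hE : ImagQuad E) (hn : 3 ≤ n) {p ζ : V n} {θ : ℂ}
    (hpp : herm p p = 0) (hζ : herm ζ p = 0) (hθ : conj θ = -θ) (hp : IsInt E p)
    (hz : IsInt E ζ) (hk : kap ζ θ ∈ intRing E) (h0 : herm (bv n 0) p = 0)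
    (h1 : herm (bv n 1) p = 0) (h0' : herm (bv n 0) ζ = 0) (h1' : herm (bv n 1) ζ = 0) :
    T p ζ θ hpp hζ ∈ stdCore E n := by
  refine ⟨⟨T_mem_picard hE hpp hζ hθ hp hz hk, ?_⟩, ?_⟩
  · show act _ _ = _
    rw [act_T, h0, h0', mul_zero, sub_zero, zero_smul, zero_smul, add_zero, add_zero]
  · show act _ _ = _
    rw [act_T, h1, h1', mul_zero, sub_zero, zero_smul, zero_smul, add_zero, add_zero]

/-- An isometry commuting with the core acts on `{e_0, e_1}^⊥` by a scalar. -/
theorem scalar_std {E : IntermediateField ℚ ℂ} (hE : ImagQuad E) (hn : 3 ≤ n) {u : SL n}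
    (hu : u ∈ SU n) (hc : ∀ γ ∈ stdCore E n, u * γ = γ * u) :
    ∃ l : ℂ, l * conj l = 1 ∧
      ∀ w : V n, herm w (bv n 0) = 0 → herm w (bv n 1) = 0 → act u w = l • w := by
  have h0n : 0 < n := by omega
  have h1n : 1 < n := by omega
  have h2n : 2 < n := by omega
  have e22 : herm (bv n 2) (bv n 2) = 1 := by rw [bv_bv h2n]; simp
  have e02 : herm (bv n 0) (bv n 2) = 0 := by rw [bv_bv h2n]; simp
  have e12 : herm (bv n 1) (bv n 2) = 0 := by rw [bv_bv h2n]; simp
  have e0n : herm (bv n 0) (bv n n) = 0 := bv_last h0n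
  have e1n : herm (bv n 1) (bv n n) = 0 := bv_last h1n
  have e2n : herm (bv n 2) (bv n n) = 0 := bv_last h2n
  have en2 : herm (bv n n) (bv n 2) = 0 := last_bv h2n
  have enn : herm (bv n n) (bv n n) = -1 := last_last
  have hpp : herm (bv n 2 + bv n n) (bv n 2 + bv n n) = 0 := by
    rw [herm_add_left, herm_add_right, herm_add_right, e22, e2n, en2, enn]; ring
  have hqq : herm (bv n 2 - bv n n) (bv n 2 - bv n n) = 0 := by
    rw [herm_sub_left, herm_sub_right, herm_sub_right, e22, e2n, en2, enn]; ring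
  have hqp : herm (bv n 2 - bv n n) (bv n 2 + bv n n) ≠ 0 := by
    rw [herm_sub_left, herm_add_right, herm_add_right, e22, e2n, en2, enn]; norm_num
  have hp0 : bv n 2 + bv n n ≠ 0 := by
    intro h; rw [h, herm_zero_right] at hqp; exact hqp rfl
  have hq0 : bv n 2 - bv n n ≠ 0 := by
    intro h; rw [h, herm_zero_left] at hqp; exact hqp rfl
  obtain ⟨δ, hδI, hδ0, hδ⟩ := exists_int_delta hE
  have ip : IsInt E (bv n 2 + bv n n) := (IsInt.bv E 2).add (IsInt.bv E n)
  have iq : IsInt E (bv n 2 - bv n n) := (IsInt.bv E 2).sub (IsInt.bv E n)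
  have p0 : herm (bv n 0) (bv n 2 + bv n n) = 0 := by rw [herm_add_right, e02, e0n, add_zero]
  have p1 : herm (bv n 1) (bv n 2 + bv n n) = 0 := by rw [herm_add_right, e12, e1n, add_zero]
  have q0 : herm (bv n 0) (bv n 2 - bv n n) = 0 := by rw [herm_sub_right, e02, e0n, sub_zero]
  have q1 : herm (bv n 1) (bv n 2 - bv n n) = 0 := by rw [herm_sub_right, e12, e1n, sub_zero]
  have m1 : T (bv n 2 + bv n n) 0 δ hpp (herm_zero_left _) ∈ stdCore E n :=
    T_mem_core hE hn hpp _ hδ ip (fun i => (intRing E).zero_mem) (by simpa [kap] using hδI) p0 p1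
      (herm_zero_right _) (herm_zero_right _)
  have m2 : T (bv n 2 - bv n n) 0 δ hqq (herm_zero_left _) ∈ stdCore E n :=
    T_mem_core hE hn hqq _ hδ iq (fun i => (intRing E).zero_mem) (by simpa [kap] using hδI) q0 q1
      (herm_zero_right _) (herm_zero_right _)
  obtain ⟨l, hl, hlp, hlq, hlζ⟩ := scalar_core hu hc hp0 hq0 hpp hqq hqp hδ0 hδ0 m1 m2
  refine ⟨l, hl, ?_⟩
  have hu2 : act u (bv n 2) = l • bv n 2 := by
    have e : bv n 2 = (1/2 : ℂ) • ((bv n 2 + bv n n) + (bv n 2 - bv n n)) := by
      funext i; simp only [Pi.add_apply, Pi.sub_apply, Pi.smul_apply, smul_eq_mul]; ring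
    rw [e, act_smul, act_add, hlp, hlq, ← smul_add, smul_comm]
  have hun : act u (bv n n) = l • bv n n := by
    have e : bv n n = (1/2 : ℂ) • ((bv n 2 + bv n n) - (bv n 2 - bv n n)) := by
      funext i; simp only [Pi.add_apply, Pi.sub_apply, Pi.smul_apply, smul_eq_mul]; ring
    have e' : act u ((bv n 2 + bv n n) - (bv n 2 - bv n n)) =
        act u (bv n 2 + bv n n) - act u (bv n 2 - bv n n) := by
      rw [sub_eq_add_neg, act_add, ← neg_one_smul ℂ (bv n 2 - bv n n), act_smul, neg_one_smul,
        ← sub_eq_add_neg]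
    rw [e, act_smul, e', hlp, hlq, ← smul_sub, smul_comm]
  have huj : ∀ j : ℕ, 3 ≤ j → j < n → act u (bv n j) = l • bv n j := by
    intro j hj hjn
    have ej2 : herm (bv n j) (bv n 2) = 0 := by rw [bv_bv h2n, if_neg (by omega)]
    have ejn : herm (bv n j) (bv n n) = 0 := bv_last hjn
    have e0j : herm (bv n 0) (bv n j) = 0 := by rw [bv_bv hjn, if_neg (by omega)]
    have e1j : herm (bv n 1) (bv n j) = 0 := by rw [bv_bv hjn, if_neg (by omega)]
    have ejj : herm (bv n j) (bv n j) = 1 := by rw [bv_bv hjn, if_pos rfl]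
    refine hlζ (bv n j) 2 two_ne_zero (by rw [herm_add_right, ej2, ejn, add_zero])
      (by rw [herm_sub_right, ej2, ejn, sub_zero]) ?_
    rintro θ h rfl
    have h2 : (2 : ℂ) ∈ intRing E := by
      have h := (intRing E).add_mem (intRing E).one_mem (intRing E).one_mem
      have e : (1 : ℂ) + 1 = 2 := by norm_num
      rwa [e] at h
    refine T_mem_core hE hn hpp h (by simp) ip ((IsInt.bv E j).smul h2) ?_ p0 p1
      (by rw [herm_smul_right, e0j, mul_zero]) (by rw [herm_smul_right, e1j, mul_zero])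
    rw [kap, herm_smul_left, herm_smul_right, ejj]
    convert (intRing E).neg_mem h2 using 1
    rw [Complex.conj_ofNat]; ring
  intro w hw0 hw1
  have hw : w = ∑ j : Fin (n + 1), w j • bv n j := by
    funext i
    rw [Finset.sum_apply, Finset.sum_eq_single i]
    · simp [bv]
    · intro b _ hb
      have : ¬ ((i : ℕ) = b) := fun h => hb (Fin.ext h.symm)
      simp [bv, this]
    · intro h; exact absurd (Finset.mem_univ i) h
  rw [herm_bv h0n] at hw0
  rw [herm_bv h1n] at hw1
  conv_lhs => rw [hw]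
  conv_rhs => rw [hw]
  rw [act_sum, Finset.smul_sum]
  refine Finset.sum_congr rfl fun j _ => ?_
  rw [act_smul, smul_comm]
  have hjn : (j : ℕ) < n + 1 := j.2
  by_cases h0 : (j : ℕ) = 0
  · have : j = ⟨0, by omega⟩ := Fin.ext h0
    rw [this, hw0, zero_smul, zero_smul]
  by_cases h1 : (j : ℕ) = 1
  · have : j = ⟨1, by omega⟩ := Fin.ext h1
    rw [this, hw1, zero_smul, zero_smul]
  congr 1
  by_cases h2 : (j : ℕ) = 2
  · rw [h2]; exact hu2
  by_cases h3 : (j : ℕ) = n
  · rw [h3]; exact hun
  exact huj j (by omega) (by omega)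

theorem std_alt {E : IntermediateField ℚ ℂ} (hE : ImagQuad E) (hn : 3 ≤ n) {u : SL n}
    (hu : u ∈ SU n) (hc : ∀ γ ∈ stdCore E n, u * γ = γ * u) {K : Subgroup (SL n)}
    (hK : DiscreteTopology K) (hK0 : ∀ γ ∈ stdPiece E n 0, γ ∈ K)
    (hK1 : ∀ γ ∈ stdPiece E n 1, u * γ * u⁻¹ ∈ K) :
    (∀ γ : SL n, act γ (bv n 1) = bv n 1 → act (u * γ * u⁻¹) (bv n 0) = bv n 0) ∨
      ∃ g ∈ SU n, (∀ γ ∈ SU n, act γ (bv n 0) = bv n 0 → γ = g * γ * g⁻¹) ∧
        ∀ γ ∈ SU n, act γ (bv n 1) = bv n 1 → u * γ * u⁻¹ = g * γ * g⁻¹ := by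
  obtain ⟨l, hl, hul⟩ := scalar_std hE hn hu hc
  have h0n : 0 < n := by omega
  have h1n : 1 < n := by omega
  have hl0 : l ≠ 0 := by rintro rfl; simp at hl
  have hcl : conj l * l = 1 := by rw [mul_comm]; exact hl
  have hcases := std_cases hE hn hK hu hl hul (fun γ h1 h2 => hK0 γ ⟨h1, h2⟩)
    (fun γ h1 h2 => hK1 γ ⟨h1, h2⟩)
  have e00 : herm (bv n 0) (bv n 0) = 1 := by rw [bv_bv h0n]; simp
  have e11 : herm (bv n 1) (bv n 1) = 1 := by rw [bv_bv h1n]; simp
  have e10 : herm (bv n 1) (bv n 0) = 0 := by rw [bv_bv h0n]; simp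
  have e01 : herm (bv n 0) (bv n 1) = 0 := herm_conj_zero e10
  have hdec := fun d => eq_of_perp h1n (d := d)
  set e0 := bv n 0
  set e1 := bv n 1
  clear_value e0 e1
  have perp : ∀ e : V n, (∀ w : V n, herm w e0 = 0 → herm w e1 = 0 → herm e w = 0) →
      ∀ w : V n, herm w e0 = 0 → herm w e1 = 0 → herm (act u e) w = 0 := by
    intro e he w h0 h1
    have h2 : w = conj l • act u w := by rw [hul w h0 h1, smul_smul, hcl, one_smul]
    rw [h2, herm_smul_right, act_herm hu, he w h0 h1, mul_zero]
  have pe0 := perp e0 fun w h _ => herm_conj_zero h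
  have pe1 := perp e1 fun w _ h => herm_conj_zero h
  set f : V n := conj l • act u e0 with hf
  have hlf : act u e0 = l • f := by rw [hf, smul_smul, hl, one_smul]
  have hff : herm f f = 1 := by
    rw [hf, herm_smul_left, herm_smul_right, act_herm hu, e00, Complex.conj_conj]
    linear_combination hl
  have pf : ∀ w : V n, herm w e0 = 0 → herm w e1 = 0 → herm f w = 0 := by
    intro w h0 h1
    rw [hf, herm_smul_left, pe0 w h0 h1, mul_zero]
  clear_value f
  have hfd := hdec f pf
  set α := herm f e0 with hα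
  set β := herm f e1 with hβ
  have hz : herm e1 f = conj β := by rw [hβ, conj_herm]
  have hnorm : α * conj α + β * conj β = 1 := by
    have h1 := hff
    rw [hfd] at h1
    simp only [herm_add_left, herm_add_right, herm_smul_left, herm_smul_right, e00, e11, e01,
      e10] at h1
    linear_combination h1
  clear_value α β
  rw [hz] at hcases
  rcases hcases with h0 | h1
  · -- the orthogonal case
    right
    have hβ0 : β = 0 := by simpa using h0
    rw [hβ0] at hnorm hfd
    have hα1 : α * conj α = 1 := by simpa using hnorm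
    rw [zero_smul, add_zero] at hfd
    obtain ⟨g, ν, hg, hν, hgw, hg0⟩ := exists_twist (m := e0) (by rw [e00]; exact one_ne_zero) hα1
    have hν0 : ν ≠ 0 := by rintro rfl; simp at hν
    refine ⟨g, hg, ?_, ?_⟩
    · intro γ hγ hγ0
      have h2 := comm_fix (m := e0) (by rw [e00]; exact one_ne_zero) hg hgw hγ hγ0
      rw [h2, mul_inv_cancel_right]
    · intro γ hγ hγ1
      have hvSU : g⁻¹ * u ∈ SU n := (SU n).mul_mem ((SU n).inv_mem hg) hu
      have hv : ∀ w, herm w e1 = 0 → act (g⁻¹ * u) w = (l * ν⁻¹) • w := by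
        intro w hw
        have h3 : act u w = act g ((l * ν⁻¹) • w) := by
          have hw0 : herm (w - herm w e0 • e0) e0 = 0 := by
            rw [herm_sub_left, herm_smul_left, e00]; ring
          have hw1 : herm (w - herm w e0 • e0) e1 = 0 := by
            rw [herm_sub_left, herm_smul_left, e01, hw]; ring
          have h4 : w = (w - herm w e0 • e0) + herm w e0 • e0 := by abel
          set w' := w - herm w e0 • e0
          set a := herm w e0
          clear_value w' a
          rw [h4, act_add, act_smul, act_smul, act_add, act_smul, hul w' hw0 hw1, hgw w' hw0, hlf,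
            hg0]
          nth_rewrite 1 [hfd]
          funext i
          simp only [Pi.add_apply, Pi.smul_apply, smul_eq_mul]
          field_simp
        rw [act_mul, h3, act_inv_act]
      have h2 := comm_fix (m := e1) (by rw [e11]; exact one_ne_zero) hvSU hv hγ hγ1
      calc u * γ * u⁻¹ = g * ((g⁻¹ * u) * γ) * (g⁻¹ * u)⁻¹ * g⁻¹ := by group
        _ = g * (γ * (g⁻¹ * u)) * (g⁻¹ * u)⁻¹ * g⁻¹ := by rw [h2]
        _ = _ := by group
  · -- the case of equal hyperplanes
    left
    have hβ1 : β * conj β = 1 := by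
      rw [RCLike.norm_conj] at h1
      rw [Complex.mul_conj, Complex.normSq_eq_norm_sq, h1]
      simp
    have hα0 : α = 0 := by
      have h2 : α * conj α = 0 := by linear_combination hnorm - hβ1
      rw [Complex.mul_conj] at h2
      exact Complex.normSq_eq_zero.1 (by exact_mod_cast h2)
    have hβ0 : β ≠ 0 := by rintro rfl; simp at hβ1
    rw [hα0, zero_smul, zero_add] at hfd
    have hd1 : herm (act u e1) e1 = 0 := by
      have h2 : herm (act u e1) (act u e0) = 0 := by rw [act_herm hu, e10]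
      rw [hlf, hfd, herm_smul_right, herm_smul_right] at h2
      rcases mul_eq_zero.1 h2 with h3 | h3
      · exact absurd h3 (by simpa using hl0)
      · rcases mul_eq_zero.1 h3 with h4 | h4
        · exact absurd h4 (by simpa using hβ0)
        · exact h4
    have hd := hdec _ pe1
    rw [hd1, zero_smul, add_zero] at hd
    set a := herm (act u e1) e0 with ha
    have ha0 : a ≠ 0 := by
      intro h
      rw [h, zero_smul] at hd
      have h2 : herm (act u e1) (act u e1) = 1 := by rw [act_herm hu, e11]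
      rw [hd, herm_zero_left] at h2
      exact zero_ne_one h2
    intro γ hγ
    have h2 : act (u * γ * u⁻¹) (a • e0) = a • e0 := by
      rw [← hd, act_mul, act_mul, act_inv_act, hγ]
    rw [act_smul] at h2
    exact smul_right_injective _ ha0 h2

end Pool.Agent.H70.Hunt
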