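import Pool.Agent.H70.Hunt.Std4

/-! # The standard pieces: geometric representations with discrete image -/

namespace Pool.Agent.H70.Hunt

open Matrix ComplexConjugate Filter Topology Pool.Agent.Q107.Hunt Monoid

section Generic

variable {G : Type*} [Group G]

/-- The natural homomorphism of the amalgamated product `A 0 ⋆_C A 1` to `G`, induced by the
inclusions of the factors. -/
def natHom (A : Fin 2 → Subgroup G) (C : Subgroup G) (h : ∀ i, C ≤ A i) :
    Monoid.PushoutI (inc A C h) →* G :=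
  Monoid.PushoutI.lift (fun i => (A i).subtype) C.subtype (fun _ => rfl)

/-- `ρ` is the conjugate of the natural homomorphism by an element of `U`. -/
def IsNat (U : Subgroup G) (A : Fin 2 → Subgroup G) (C : Subgroup G) (h : ∀ i, C ≤ A i)
    (ρ : Monoid.PushoutI (inc A C h) →* G) : Prop :=
  ∃ g ∈ U, ∀ a, ρ a = g * natHom A C h a * g⁻¹

/-- Every geometric homomorphism of `A 0 ⋆_C A 1` to `G` with discrete image either has its image in
a member of `F`, or is the conjugate of the natural homomorphism by an element of `U`. -/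
def RigidUpTo [TopologicalSpace G] (U : Subgroup G) (A : Fin 2 → Subgroup G) (C : Subgroup G)
    (h : ∀ i, C ≤ A i) (F : Set (Subgroup G)) : Prop :=
  ∀ ρ, IsGeom U A C h ρ → DiscreteTopology ρ.range →
    (∃ H ∈ F, ρ.range ≤ H) ∨ IsNat U A C h ρ

/-- Every geometric homomorphism of `A 0 ⋆_C A 1` to `G` whose image satisfies `L` is the conjugate
of the natural homomorphism by an element of `U`. -/
def RigidOn (U : Subgroup G) (A : Fin 2 → Subgroup G) (C : Subgroup G) (h : ∀ i, C ≤ A i)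
    (L : Subgroup G → Prop) : Prop :=
  ∀ ρ, IsGeom U A C h ρ → L ρ.range → IsNat U A C h ρ

/-- The image of the natural homomorphism is contained in `P`. -/
def NatIn (A : Fin 2 → Subgroup G) (C : Subgroup G) (h : ∀ i, C ≤ A i) (P : Subgroup G) : Prop :=
  (natHom A C h).range ≤ P

theorem natHom_range_le {A : Fin 2 → Subgroup G} {C : Subgroup G} {h : ∀ i, C ≤ A i}
    {P : Subgroup G} (hP : ∀ i, A i ≤ P) : (natHom A C h).range ≤ P := by
  rintro _ ⟨a, rfl⟩
  induction a using Monoid.PushoutI.induction_on with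
  | of i g => exact hP i g.2
  | base c => exact (h 0).trans (hP 0) c.2
  | mul x y hx hy => rw [map_mul]; exact P.mul_mem hx hy

theorem range_le_of {A : Fin 2 → Subgroup G} {C : Subgroup G} {h : ∀ i, C ≤ A i}
    {ρ : Monoid.PushoutI (inc A C h) →* G} {P : Subgroup G}
    (hP : ∀ i (γ : A i), ρ (Monoid.PushoutI.of i γ) ∈ P) : ρ.range ≤ P := by
  rintro _ ⟨a, rfl⟩
  induction a using Monoid.PushoutI.induction_on with
  | of i g => exact hP i g
  | base c =>
    rw [← Monoid.PushoutI.of_apply_eq_base _ (0 : Fin 2)]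
    exact hP 0 _
  | mul x y hx hy => rw [map_mul]; exact P.mul_mem hx hy

end Generic

variable {n : ℕ}

/-- the stabilisers of the vectors of positive norm -/
def posFixers (n : ℕ) : Set (Subgroup (SL n)) := {H | ∃ v : V n, herm v v = 1 ∧ H = fixer v}

theorem natIn_std (E : IntermediateField ℚ ℂ) (n : ℕ) :
    NatIn (stdPiece E n) (stdCore E n) (stdCore_le E n) (Picard E n) :=
  natHom_range_le fun _ _ hg => hg.1

theorem rigid_std {E : IntermediateField ℚ ℂ} (hE : ImagQuad E) (hn : 3 ≤ n) :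
    RigidUpTo (SU n) (stdPiece E n) (stdCore E n) (stdCore_le E n) (posFixers n) := by
  intro ρ hρ hd
  obtain ⟨u₀, hu₀, h₀⟩ := hρ 0
  obtain ⟨u₁, hu₁, h₁⟩ := hρ 1
  set u := u₀⁻¹ * u₁ with hu
  have huSU : u ∈ SU n := (SU n).mul_mem ((SU n).inv_mem hu₀) hu₁
  have hcomm : ∀ γ ∈ stdCore E n, u * γ = γ * u := by
    intro γ hγ
    have h2 := h₀ (inc (stdPiece E n) (stdCore E n) (stdCore_le E n) 0 ⟨γ, hγ⟩)
    have h3 := h₁ (inc (stdPiece E n) (stdCore E n) (stdCore_le E n) 1 ⟨γ, hγ⟩)
    rw [Monoid.PushoutI.of_apply_eq_base] at h2 h3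
    rw [h2] at h3
    have h4 : u₀ * γ * u₀⁻¹ = u₁ * γ * u₁⁻¹ := h3
    calc u * γ = u₀⁻¹ * (u₁ * γ * u₁⁻¹) * u₁ := by rw [hu]; group
      _ = u₀⁻¹ * (u₀ * γ * u₀⁻¹) * u₁ := by rw [h4]
      _ = γ * u := by rw [hu]; group
  let K : Subgroup (SL n) := stdPiece E n 0 ⊔ (stdPiece E n 1).map (MulAut.conj u).toMonoidHom
  have hK : K ≤ ρ.range.comap (MulAut.conj u₀).toMonoidHom := by
    refine sup_le ?_ ?_
    · intro g hg
      refine ⟨Monoid.PushoutI.of 0 ⟨g, hg⟩, ?_⟩
      rw [h₀]
      rfl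
    · rintro _ ⟨g, hg, rfl⟩
      refine ⟨Monoid.PushoutI.of 1 ⟨g, hg⟩, ?_⟩
      rw [h₁]
      show u₁ * g * u₁⁻¹ = u₀ * (u * g * u⁻¹) * u₀⁻¹
      rw [hu]
      group
  have hKd : DiscreteTopology K := by
    let f : K → ρ.range := fun k => ⟨u₀ * k * u₀⁻¹, hK k.2⟩
    have hf : Continuous f := by
      refine Continuous.subtype_mk ?_ _
      fun_prop
    have hfi : Function.Injective f := by
      intro a b hab
      have h1 : u₀ * (a : SL n) * u₀⁻¹ = u₀ * (b : SL n) * u₀⁻¹ := congrArg Subtype.val hab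
      apply Subtype.ext
      exact mul_left_cancel (mul_right_cancel h1)
    exact DiscreteTopology.of_continuous_injective hf hfi
  rcases std_alt hE hn huSU hcomm hKd (fun γ hγ => (le_sup_left : stdPiece E n 0 ≤ K) hγ)
    (fun γ hγ => (le_sup_right : (stdPiece E n 1).map (MulAut.conj u).toMonoidHom ≤ K)
      ⟨γ, hγ, rfl⟩) with hfix | ⟨g, hg, hg0, hg1⟩
  · left
    have h0n : 0 < n := by omega
    refine ⟨fixer (act u₀ (bv n 0)), ⟨act u₀ (bv n 0), ?_, rfl⟩, range_le_of ?_⟩
    · rw [act_herm hu₀, bv_bv h0n, if_pos rfl]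
    · rw [Fin.forall_fin_two]
      constructor
      · intro γ
        show act _ _ = _
        have h2 : act (γ : SL n) (bv n 0) = bv n 0 := γ.2.2
        rw [h₀, act_mul, act_mul, act_inv_act, h2]
      · intro γ
        show act _ _ = _
        have h2 : act (u * (γ : SL n) * u⁻¹) (bv n 0) = bv n 0 := hfix γ γ.2.2
        have h3 : u₁ * (γ : SL n) * u₁⁻¹ = u₀ * (u * γ * u⁻¹) * u₀⁻¹ := by rw [hu]; group
        rw [h₁, h3, act_mul, act_mul, act_inv_act, h2]
  · right
    refine ⟨u₀ * g, (SU n).mul_mem hu₀ hg, ?_⟩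
    have hext : ρ = (MulAut.conj (u₀ * g)).toMonoidHom.comp
        (natHom (stdPiece E n) (stdCore E n) (stdCore_le E n)) := by
      refine Monoid.PushoutI.hom_ext_nonempty fun i => ?_
      refine MonoidHom.ext fun γ => ?_
      show ρ (Monoid.PushoutI.of i γ) = (u₀ * g) * γ * (u₀ * g)⁻¹
      revert i
      rw [Fin.forall_fin_two]
      constructor
      · intro γ
        rw [h₀]
        have h5 := hg0 γ γ.2.1.2 γ.2.2
        calc u₀ * (γ : SL n) * u₀⁻¹ = u₀ * (g * γ * g⁻¹) * u₀⁻¹ := by rw [← h5]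
          _ = _ := by group
      · intro γ
        have h5 := hg1 γ γ.2.1.2 γ.2.2
        rw [h₁]
        calc u₁ * (γ : SL n) * u₁⁻¹ = u₀ * (u * γ * u⁻¹) * u₀⁻¹ := by rw [hu]; group
          _ = u₀ * (g * γ * g⁻¹) * u₀⁻¹ := by rw [h5]
          _ = _ := by group
    intro a
    rw [hext]
    rfl

/-- lattices of `SU(n,1)`, `n ≥ 2`, fix no nonzero vector -/
theorem lattice_not_fix (hn : 2 ≤ n) {Γ : Subgroup (SL n)} (h : IsLatticeOf n ⊤ Γ) {v : V n}
    (hv : v ≠ 0) : ¬ Γ ≤ fixer v := by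
  intro hle
  have h0n : 0 < n := by omega
  have h1 : Ample n ⊤ Γ := by
    refine ample_of_lattice (fun v _ hv => herm_nondeg fun w => hv w Submodule.mem_top) ?_
      (p := bv n 0 + bv n n) Submodule.mem_top ?_ ?_ h
    · rw [finrank_top, Module.finrank_fin_fun]; omega
    · intro h0
      have h2 : herm (bv n 0 + bv n n) (bv n 0) = 1 := by
        rw [herm_add_left, bv_bv h0n, last_bv h0n]; simp
      rw [h0, herm_zero_left] at h2
      exact zero_ne_one h2
    · rw [herm_add_left, herm_add_right, herm_add_right, bv_bv h0n, bv_last h0n, last_bv h0n,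
        last_last]
      simp
  have h2 := (h1.2 Γ le_rfl (by simp)).2 1 ⟨fun _ => Submodule.mem_top, fun w hw => by
    rw [herm_nondeg fun z => hw z Submodule.mem_top, Matrix.mulVec_zero]⟩
  have h3 : ∀ A ∈ Submodule.span ℝ {B : Matrix (Fin (n + 1)) (Fin (n + 1)) ℂ |
      ∃ γ ∈ Γ, B = (γ : Matrix (Fin (n + 1)) (Fin (n + 1)) ℂ) - 1}, A *ᵥ v = 0 := by
    intro A hA
    induction hA using Submodule.span_induction with
    | mem B hB =>
      obtain ⟨γ, hγ, rfl⟩ := hB
      have h4 : act γ v = v := hle hγ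
      rw [Matrix.sub_mulVec, Matrix.one_mulVec]
      exact sub_eq_zero.2 h4
    | zero => exact Matrix.zero_mulVec v
    | add x y _ _ hx hy => rw [Matrix.add_mulVec, hx, hy, add_zero]
    | smul a x _ hx => rw [Matrix.smul_mulVec, hx, smul_zero]
  have h4 := h3 1 h2
  rw [Matrix.one_mulVec] at h4
  exact hv h4

theorem rigid_lattice {E : IntermediateField ℚ ℂ} (hE : ImagQuad E) (hn : 3 ≤ n) :
    RigidOn (SU n) (stdPiece E n) (stdCore E n) (stdCore_le E n) (IsLatticeOf n ⊤) := by
  intro ρ hρ hL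
  have hd : DiscreteTopology ρ.range := by
    have h1 := hL.2.1
    let f : ρ.range → ρ.range.subgroupOf (suOf n ⊤) := fun g => ⟨⟨g, hL.1 g.2⟩, g.2⟩
    have hf : Continuous f := by
      refine Continuous.subtype_mk (Continuous.subtype_mk continuous_subtype_val _) _
    have hfi : Function.Injective f := by
      intro a b hab
      apply Subtype.ext
      have h5 : ((f a : suOf n ⊤) : SL n) = ((f b : suOf n ⊤) : SL n) := by rw [hab]
      exact h5
    exact DiscreteTopology.of_continuous_injective hf hfi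
  rcases rigid_std hE hn ρ hρ hd with ⟨H, ⟨v, hv, rfl⟩, hle⟩ | h
  · refine absurd hle (lattice_not_fix (by omega) hL ?_)
    rintro rfl
    rw [herm_zero_left] at hv
    exact zero_ne_one hv
  · exact h

end Pool.Agent.H70.Hunt
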