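import Pool.Agent.H70.Hunt.Main

/-! # Hunt data: two non-cocompact arithmetic pieces with a common non-cocompact arithmetic group -/

namespace Pool.Agent.H70.Hunt

open Pool.Agent.Q107.Hunt Matrix

section Generic

variable {G : Type*} [Group G]

/-- The inclusion of `C` in `A i`. -/
def inc (A : Fin 2 → Subgroup G) (C : Subgroup G) (h : ∀ i, C ≤ A i) (i : Fin 2) : C →* A i :=
  Subgroup.inclusion (h i)

/-- A homomorphism `ρ` of the amalgamated product `A 0 ⋆_C A 1` to `G` is geometric (for the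
subgroup `U` of `G`) if its restriction to each of the two factors is the conjugate of the inclusion
by an element of `U`. -/
def IsGeom (U : Subgroup G) (A : Fin 2 → Subgroup G) (C : Subgroup G) (h : ∀ i, C ≤ A i)
    (ρ : Monoid.PushoutI (inc A C h) →* G) : Prop :=
  ∀ i, ∃ u ∈ U, ∀ γ : A i, ρ (Monoid.PushoutI.of i γ) = u * γ * u⁻¹

/-- No geometric homomorphism of `A 0 ⋆_C A 1` to `G` is injective. -/
def NoneFaithful (U : Subgroup G) (A : Fin 2 → Subgroup G) (C : Subgroup G)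
    (h : ∀ i, C ≤ A i) : Prop :=
  ∀ ρ : Monoid.PushoutI (inc A C h) →* G, IsGeom U A C h ρ → ¬ Function.Injective ρ

/-- Up to conjugation by elements of `U` only finitely many geometric homomorphisms of
`A 0 ⋆_C A 1` to `G` have a discrete image. -/
def FinitelyManyDiscrete [TopologicalSpace G] (U : Subgroup G) (A : Fin 2 → Subgroup G)
    (C : Subgroup G) (h : ∀ i, C ≤ A i) : Prop :=
  ∃ R : Set (Monoid.PushoutI (inc A C h) →* G), R.Finite ∧
    ∀ ρ, IsGeom U A C h ρ → DiscreteTopology ρ.range →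
      ∃ σ ∈ R, IsGeom U A C h σ ∧ DiscreteTopology σ.range ∧ ∃ g ∈ U, ∀ a, ρ a = g * σ a * g⁻¹

end Generic

variable {n : ℕ}

/-- `Γ` is a non-cocompact arithmetic lattice of `SU(W)` (of the first kind). -/
def IsPiece (n : ℕ) (W : Submodule ℂ (V n)) (Γ : Subgroup (SL n)) : Prop :=
  ∃ E X, IsArith n E W X Γ

/-- Two distinct hyperplanes `W 0`, `W 1` of `ℂ^(n+1)`, non-cocompact arithmetic lattices `Γ i` of
`SU(W i)` and a common subgroup `Γ₃`, a non-cocompact arithmetic lattice of `SU(W 0 ⊓ W 1)`. -/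
structure Pieces (n : ℕ) where
  W : Fin 2 → Submodule ℂ (V n)
  Γ : Fin 2 → Subgroup (SL n)
  Γ₃ : Subgroup (SL n)
  finrank : ∀ i, Module.finrank ℂ (W i) = n
  ne : W 0 ≠ W 1
  arith : ∀ i, IsPiece n (W i) (Γ i)
  arith₃ : IsPiece n (W 0 ⊓ W 1) Γ₃
  le : ∀ i, Γ₃ ≤ Γ i

theorem gluings (P : Pieces n) :
    NoneFaithful (SU n) P.Γ P.Γ₃ P.le ∧ FinitelyManyDiscrete (SU n) P.Γ P.Γ₃ P.le := by
  have h1 := P.arith
  choose E X hΓ using h1
  obtain ⟨E₃, X₃, hΓ₃⟩ := P.arith₃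
  obtain ⟨D⟩ := exists_data P.finrank P.ne hΓ hΓ₃ P.le
  refine ⟨fun ρ hρ => not_faithful (hle := P.le) hΓ₃ D hρ, ?_⟩
  obtain ⟨R, hR, h2, h3⟩ := finite_main P.finrank P.ne (fun i => (hΓ i).2.1.1)
    (fun i => (hΓ i).2.2.1) hΓ₃ D (hle := P.le)
  refine ⟨R, hR, fun ρ hρ hd => ?_⟩
  obtain ⟨σ, hσ, h4⟩ := h3 ρ hρ hd
  exact ⟨σ, hσ, (h2 σ hσ).1, (h2 σ hσ).2, h4⟩

end Pool.Agent.H70.Hunt
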