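import Pool.Agent.H70.Hunt.Shim
import Pool.Graph.R_pool_sql_team_seeded_3997aac3.Q107.Hunt.Ping1

/-! # The possible values of the angle parameter form a finite set -/

namespace Pool.Agent.H70.Hunt

open Matrix ComplexConjugate Filter Topology Pool.Agent.Q107.Hunt

variable {n : ℕ}

/-- Elements of bounded size of the additive subgroups of `ℝ` containing `τ`, whose nonzero
elements are bounded below, form a finite set. -/
theorem fin_vals {τ c₀ : ℝ} (hτ : τ ≠ 0) (hc₀ : 0 < c₀) (B : ℝ) :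
    ∃ T : Set ℝ, T.Finite ∧ ∀ S : AddSubgroup ℝ, (∀ t ∈ S, t ≠ 0 → c₀ ≤ |t|) → τ ∈ S →
      ∀ t ∈ S, |t| ≤ B → t ∈ T := by
  set N : ℤ := ⌈max |τ| B / c₀⌉ with hN
  refine ⟨(fun z : ℤ × ℤ => (z.1 : ℝ) * τ / z.2) '' (Set.Icc (-N) N ×ˢ Set.Icc (-N) N),
    ((Set.finite_Icc _ _).prod (Set.finite_Icc _ _)).image _, ?_⟩
  intro S hS hτS t ht htB
  obtain ⟨b, hb⟩ := AddSubgroup.cyclic_of_isolated_zero (H := S) hc₀ (by
    rw [Set.disjoint_left]
    rintro x hx ⟨hx0, hxc⟩
    have := hS x hx hx0.ne'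
    rw [abs_of_pos hx0] at this
    linarith)
  have hbS : b ∈ S := by rw [hb]; exact AddSubgroup.mem_closure_singleton_self b
  have key : ∀ x ∈ S, ∃ k : ℤ, x = k * b := by
    intro x hx
    rw [hb, AddSubgroup.mem_closure_singleton] at hx
    obtain ⟨k, hk⟩ := hx
    exact ⟨k, by rw [← hk, zsmul_eq_mul]⟩
  obtain ⟨m, hm⟩ := key τ hτS
  obtain ⟨k, hk⟩ := key t ht
  have hb0 : b ≠ 0 := by rintro rfl; rw [mul_zero] at hm; exact hτ hm
  have hm0 : (m : ℝ) ≠ 0 := by intro h; rw [h, zero_mul] at hm; exact hτ hm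
  have hbc := hS b hbS hb0
  have hbound : ∀ (j : ℤ), |(j : ℝ) * b| ≤ max |τ| B → j ∈ Set.Icc (-N) N := by
    intro j hj
    have h1 : |(j : ℝ)| * c₀ ≤ max |τ| B := by
      calc |(j : ℝ)| * c₀ ≤ |(j : ℝ)| * |b| := mul_le_mul_of_nonneg_left hbc (abs_nonneg _)
        _ = |(j : ℝ) * b| := (abs_mul _ _).symm
        _ ≤ _ := hj
    have h2 : |(j : ℝ)| ≤ max |τ| B / c₀ := by rwa [le_div_iff₀ hc₀]
    have h3 : |(j : ℝ)| ≤ (N : ℝ) := h2.trans (Int.le_ceil _)
    rw [abs_le] at h3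
    exact ⟨by exact_mod_cast h3.1, by exact_mod_cast h3.2⟩
  refine ⟨(k, m), ⟨hbound k (by rw [← hk]; exact htB.trans (le_max_right _ _)),
    hbound m (by rw [← hm]; exact le_max_left _ _)⟩, ?_⟩
  show (k : ℝ) * τ / m = t
  rw [hm, hk]
  field_simp

/-- the form is nonnegative on the orthogonal complement of an isotropic vector -/
theorem nonneg_perp {p v : V n} (hp : p ≠ 0) (hpp : herm p p = 0) (hvp : herm v p = 0) :
    0 ≤ (herm v v).re := by
  by_contra h
  push Not at h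
  have h1 := pos_of_perp h (w := p) (herm_conj_zero' hvp) hp
  rw [hpp] at h1
  exact lt_irrefl _ h1

/-- Cauchy-Schwarz on the orthogonal complement of an isotropic vector -/
theorem cs_perp {p v w : V n} (hp : p ≠ 0) (hpp : herm p p = 0) (hvp : herm v p = 0)
    (hwp : herm w p = 0) : ‖herm v w‖ ^ 2 ≤ (herm v v).re * (herm w w).re := by
  have hv := nonneg_perp hp hpp hvp
  have hw := nonneg_perp hp hpp hwp
  rcases eq_or_lt_of_le hw with h0 | h0
  · have hww : herm w w = 0 := by rw [herm_self_re', ← h0]; simp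
    obtain ⟨c, rfl⟩ := iso_perp hp hpp hwp hww
    rw [herm_smul_right, hvp, mul_zero, norm_zero, ← h0]
    simp
  · have h1 := nonneg_perp hp hpp (v := v - (herm v w / (herm w w).re) • w) (by
      rw [herm_sub_left, herm_smul_left, hvp, hwp, mul_zero, sub_zero])
    rw [herm_sub_smul] at h1
    have h2 : (conj (herm v w / ((herm w w).re : ℂ)) * herm v w).re =
        ‖herm v w‖ ^ 2 / (herm w w).re := by
      rw [map_div₀, Complex.conj_ofReal, div_mul_eq_mul_div, mul_comm (conj _),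
        Complex.mul_conj, Complex.normSq_eq_norm_sq, ← Complex.ofReal_div, Complex.ofReal_re]
    have h3 : ‖herm v w / ((herm w w).re : ℂ)‖ ^ 2 * (herm w w).re =
        ‖herm v w‖ ^ 2 / (herm w w).re := by
      rw [norm_div, Complex.norm_real, Real.norm_eq_abs, abs_of_pos h0]
      field_simp
    rw [h2, h3] at h1
    have h4 : ‖herm v w‖ ^ 2 / (herm w w).re ≤ (herm v v).re := by linarith
    rwa [div_le_iff₀ h0] at h4

/-- the parameters of the vertical translations of `Γ` at `p` -/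
def vert (Γ : Subgroup (SL n)) {p : V n} (hpp : herm p p = 0) (h0 : herm (0 : V n) p = 0) :
    AddSubgroup ℝ where
  carrier := {t | T p 0 (t * Complex.I) hpp h0 ∈ Γ}
  add_mem' := by
    intro a b ha hb
    have h := Γ.mul_mem ha hb
    rw [T_zero_mul] at h
    show T p 0 (((a + b : ℝ) : ℂ) * Complex.I) hpp h0 ∈ Γ
    push_cast
    rw [add_mul]
    exact h
  zero_mem' := by
    show T p 0 (((0 : ℝ) : ℂ) * Complex.I) hpp h0 ∈ Γ
    have : T p 0 (((0 : ℝ) : ℂ) * Complex.I) hpp h0 = 1 := by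
      apply ext_act
      intro v
      rw [act_vert, act_one]
      simp
    rw [this]
    exact Γ.one_mem
  neg_mem' := by
    intro a ha
    have h := Γ.inv_mem ha
    rw [T_zero_inv] at h
    show T p 0 (((-a : ℝ) : ℂ) * Complex.I) hpp h0 ∈ Γ
    push_cast
    rw [neg_mul]
    exact h

/-- The short vertical translations of all discrete groups containing two given vertical
translations with distinct centres form a finite set. -/
theorem fin_vert {p q : V n} (hpp : herm p p = 0) (hqq : herm q q = 0) (hqp : herm q p ≠ 0)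
    (h0p : herm (0 : V n) p = 0) (h0q : herm (0 : V n) q = 0) {τ τ' : ℝ} (hτ : τ ≠ 0)
    (hτ' : τ' ≠ 0) (B : ℝ) :
    ∃ S : Set ℝ, S.Finite ∧ ∀ Γ : Subgroup (SL n), DiscreteTopology Γ →
      T p 0 (τ * Complex.I) hpp h0p ∈ Γ → T q 0 (τ' * Complex.I) hqq h0q ∈ Γ →
      ∀ t : ℝ, T p 0 (t * Complex.I) hpp h0p ∈ Γ → |t| ≤ B → t ∈ S := by
  have hc : 0 < |τ'| * ‖herm q p‖ ^ 2 := by
    have h1 := abs_pos.2 hτ'
    have h2 := norm_pos_iff.2 hqp
    positivity
  obtain ⟨S, hS, h⟩ := fin_vals hτ (inv_pos.2 hc) B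
  refine ⟨S, hS, fun Γ hΓ h1 h2 t ht htB => h (vert Γ hpp h0p) ?_ h1 t ht htB⟩
  intro t ht ht0
  have h3 := shimizu hΓ hpp hqq hqp h0p h0q ht0 hτ' ht h2
  rw [inv_le_iff_one_le_mul₀ hc]
  linarith

/-- **Finiteness of the pairings.** -/
theorem fin_pair {p q : V n} (hp : p ≠ 0) (hpp : herm p p = 0) (hqq : herm q q = 0)
    (hqp : herm q p ≠ 0)
    (h0p : herm (0 : V n) p = 0) (h0q : herm (0 : V n) q = 0) {τ τ' : ℝ} (hτ : τ ≠ 0)
    (hτ' : τ' ≠ 0) {x y : V n} (hxp : herm x p = 0) {a a' b : ℝ} (ha : a ≠ 0) (ha' : a' ≠ 0)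
    (hb : b ≠ 0) {δ : ℂ} (hδ0 : δ ≠ 0) (hδ : conj δ = -δ) :
    ∃ Z : Set ℂ, Z.Finite ∧ ∀ Γ : Subgroup (SL n), DiscreteTopology Γ →
      T p 0 (τ * Complex.I) hpp h0p ∈ Γ → T q 0 (τ' * Complex.I) hqq h0q ∈ Γ →
      (∀ h, T p ((a : ℂ) • x) 0 hpp h ∈ Γ) → (∀ h, T p ((a' : ℂ) • (δ • x)) 0 hpp h ∈ Γ) →
      ∀ y' : V n, herm y' p = 0 → herm y' y' = herm y y →
      (∀ h, T p ((b : ℂ) • y') 0 hpp h ∈ Γ) → herm x y' ∈ Z := by
  set η : ℝ := δ.im with hη
  have hδre : δ.re = 0 := by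
    have := congrArg Complex.re hδ
    rw [Complex.conj_re, Complex.neg_re] at this
    linarith
  have hη0 : η ≠ 0 := by
    intro h
    apply hδ0
    exact Complex.ext hδre h
  set M : ℝ := Real.sqrt ((herm x x).re * (herm y y).re) with hM
  obtain ⟨S₁, hS₁, h₁⟩ := fin_vert hpp hqq hqp h0p h0q hτ hτ' (2 * (|a| * |b| * M))
  obtain ⟨S₂, hS₂, h₂⟩ := fin_vert hpp hqq hqp h0p h0q hτ hτ' (2 * (|a'| * |b| * (|η| * M)))
  refine ⟨{z | 2 * a * b * z.im ∈ S₁ ∧ 2 * a' * b * η * z.re ∈ S₂}, ?_, ?_⟩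
  · refine Set.Finite.of_finite_image (f := fun z : ℂ => (2 * a * b * z.im, 2 * a' * b * η * z.re))
      ((hS₁.prod hS₂).subset ?_) ?_
    · rintro _ ⟨z, hz, rfl⟩
      exact hz
    · intro z _ w _ h
      simp only [Prod.mk.injEq] at h
      apply Complex.ext
      · exact mul_left_cancel₀ (by positivity : 2 * a' * b * η ≠ 0) h.2
      · exact mul_left_cancel₀ (by positivity : 2 * a * b ≠ 0) h.1
  · intro Γ hΓ hT hT' hx hx' y' hy'p hy'y' hy'
    have hcs : ‖herm x y'‖ ≤ M := by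
      have h1 := cs_perp hp hpp hxp hy'p
      rw [hy'y'] at h1
      exact Real.le_sqrt_of_sq_le h1
    have hax : herm ((a : ℂ) • x) p = 0 := by rw [herm_smul_left, hxp, mul_zero]
    have hax' : herm ((a' : ℂ) • (δ • x)) p = 0 := by
      rw [herm_smul_left, herm_smul_left, hxp, mul_zero, mul_zero]
    have hby : herm ((b : ℂ) • y') p = 0 := by rw [herm_smul_left, hy'p, mul_zero]
    have hyx : herm y' x = conj (herm x y') := (conj_herm x y').symm
    constructor
    · have h3 := T_comm_mem hpp hax hby h0p (hx hax) (hy' hby)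
      have e : herm ((a : ℂ) • x) ((b : ℂ) • y') - herm ((b : ℂ) • y') ((a : ℂ) • x) =
          ((2 * a * b * (herm x y').im : ℝ) : ℂ) * Complex.I := by
        rw [herm_smul_left, herm_smul_right, herm_smul_left, herm_smul_right, hyx,
          Complex.conj_ofReal, Complex.conj_ofReal]
        apply Complex.ext <;> simp <;> ring
      rw [e] at h3
      refine h₁ Γ hΓ hT hT' _ h3 ?_
      rw [abs_mul, abs_mul, abs_mul, abs_two]
      have h4 := (Complex.abs_im_le_norm (herm x y')).trans hcs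
      have h5 : 0 ≤ |a| * |b| := by positivity
      nlinarith
    · have h3 := T_comm_mem hpp hax' hby h0p (hx' hax') (hy' hby)
      have e : herm ((a' : ℂ) • (δ • x)) ((b : ℂ) • y') - herm ((b : ℂ) • y') ((a' : ℂ) • (δ • x)) =
          ((2 * a' * b * η * (herm x y').re : ℝ) : ℂ) * Complex.I := by
        rw [herm_smul_left, herm_smul_left, herm_smul_right, herm_smul_left, herm_smul_right,
          herm_smul_right, hyx, Complex.conj_ofReal, Complex.conj_ofReal, hδ]
        apply Complex.ext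
        · simp [hδre]; ring
        · simp [hδre]; ring
      rw [e] at h3
      refine h₂ Γ hΓ hT hT' _ h3 ?_
      rw [abs_mul, abs_mul, abs_mul, abs_mul, abs_two]
      have h4 := (Complex.abs_re_le_norm (herm x y')).trans hcs
      have h5 : 0 ≤ |a'| * |b| * |η| := by positivity
      nlinarith

end Pool.Agent.H70.Hunt
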